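import Mathlib

/-!
# Closed unbounded sets of ordinals: basic facts

Used for the problem on club guessing along weak square sequences.
-/

set_option autoImplicit false

namespace Pool.Agent.H665R2.ClubBasic

open Cardinal Ordinal Set Order

universe u

/-- `β` is a positive limit of elements of `C`. -/
def Acc (C : Set Ordinal.{u}) (β : Ordinal.{u}) : Prop := 0 < β ∧ ∀ γ < β, ∃ δ ∈ C, γ < δ ∧ δ < β

/-- `C` is closed and unbounded in `α`. -/
def Club (α : Ordinal.{u}) (C : Set Ordinal.{u}) : Prop :=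
  C ⊆ Set.Iio α ∧ (∀ β < α, ∃ γ ∈ C, β < γ) ∧
    ∀ β < α, 0 < β → (∀ γ < β, ∃ δ ∈ C, γ < δ ∧ δ < β) → β ∈ C

/-- supremum of the elements of `D` below `β` -/
noncomputable def sD (D : Set Ordinal.{u}) (β : Ordinal.{u}) : Ordinal.{u} := sSup (D ∩ Set.Iio β)

lemma bddAbove_inter (D : Set Ordinal.{u}) (β : Ordinal.{u}) : BddAbove (D ∩ Set.Iio β) :=
  ⟨β, fun _ h => le_of_lt h.2⟩

lemma sD_le (D : Set Ordinal.{u}) (β : Ordinal.{u}) : sD D β ≤ β :=
  csSup_le' fun _ h => le_of_lt h.2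

lemma le_sD {D : Set Ordinal.{u}} {β d : Ordinal.{u}} (hd : d ∈ D) (h : d < β) : d ≤ sD D β :=
  le_csSup (bddAbove_inter D β) ⟨hd, h⟩

lemma sD_mono (D : Set Ordinal.{u}) {β β' : Ordinal.{u}} (h : β ≤ β') : sD D β ≤ sD D β' := by
  apply csSup_le'
  rintro d ⟨hd, hdβ⟩
  exact le_sD hd (lt_of_lt_of_le hdβ h)

lemma sD_subset {D D' : Set Ordinal.{u}} (h : D ⊆ D') (β : Ordinal.{u}) : sD D β ≤ sD D' β := by
  apply csSup_le'
  rintro d ⟨hd, hdβ⟩
  exact le_sD (h hd) hdβ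

lemma lt_sD_iff {D : Set Ordinal.{u}} {β γ : Ordinal.{u}} :
    γ < sD D β ↔ ∃ d ∈ D, d < β ∧ γ < d := by
  constructor
  · intro h
    by_contra hne
    push Not at hne
    apply absurd h (not_lt.2 _)
    apply csSup_le'
    rintro d ⟨hd, hdβ⟩
    exact hne d hd hdβ
  · rintro ⟨d, hd, hdβ, h⟩
    exact lt_of_lt_of_le h (le_sD hd hdβ)

lemma Acc.sD_eq {D : Set Ordinal.{u}} {β : Ordinal.{u}} (h : Acc D β) : sD D β = β := by
  apply le_antisymm (sD_le D β)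
  by_contra hlt
  rw [not_le] at hlt
  obtain ⟨d, hd, h1, h2⟩ := h.2 _ hlt
  exact absurd (le_sD hd h2) (not_le.2 h1)

/-- the supremum of a nonempty bounded part of a club belongs to the club -/
lemma Club.sD_mem {α β : Ordinal.{u}} {D : Set Ordinal.{u}} {T : Set Ordinal.{u}} (hD : Club α D)
    (hT : T ⊆ D) (hne : ∃ d ∈ T, d < β) (hlt : sD T β < α) : sD T β ∈ D := by
  by_cases hmem : sD T β ∈ T ∩ Set.Iio β
  · exact hT hmem.1
  · obtain ⟨d, hd, hdβ⟩ := hne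
    have hlt' : ∀ d ∈ T, d < β → d < sD T β := by
      intro d hd hdβ
      refine lt_of_le_of_ne (le_sD hd hdβ) ?_
      intro he
      apply hmem
      rw [← he]
      exact ⟨hd, hdβ⟩
    refine hD.2.2 _ hlt (lt_of_le_of_lt (zero_le) (hlt' d hd hdβ)) ?_
    intro γ hγ
    obtain ⟨d', hd', h1, h2⟩ := lt_sD_iff.1 hγ
    exact ⟨d', hT hd', h2, hlt' d' hd' h1⟩

lemma sup_lt {c : Cardinal.{u}} (hc : c.IsRegular) {s : Set Ordinal.{u}}
    (hs : #s < Cardinal.lift.{u + 1} c) (h : ∀ i ∈ s, i < c.ord) : sSup s < c.ord := by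
  apply Ordinal.sSup_lt_of_lt_cof _ h
  rwa [← Ordinal.lift_cof, hc.cof_ord]

lemma mk_Iio_lt {c : Cardinal.{u}} {i : Ordinal.{u}} (hi : i < c.ord) :
    #(Set.Iio i) < Cardinal.lift.{u + 1} c := by
  rw [Cardinal.mk_Iio_ordinal, Cardinal.lift_lt]
  exact Cardinal.lt_ord.1 hi

/-- Every unbounded subset of a regular cardinal has many elements between any point and some
later point. -/
lemma exists_many {c : Cardinal.{u}} (hc : c.IsRegular) {l : Cardinal.{u}} (hl : l < c)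
    {D : Set Ordinal.{u}} (hsub : D ⊆ Set.Iio c.ord) (hD : ∀ β < c.ord, ∃ γ ∈ D, β < γ)
    {γ : Ordinal.{u}} (hγ : γ < c.ord) :
    ∃ x ∈ D, γ < x ∧ Cardinal.lift.{u + 1} l ≤ #(D ∩ Set.Ioo γ x : Set Ordinal.{u}) := by
  have h1 : Cardinal.lift.{u + 1} l ≤ #(D ∩ Set.Ioi γ : Set Ordinal.{u}) := by
    by_contra hlt
    rw [not_le] at hlt
    have h2 := sup_lt hc (hlt.trans (Cardinal.lift_lt.2 hl)) (fun i hi => hsub hi.1)
    obtain ⟨x, hx, hx2⟩ := hD _ (max_lt h2 hγ)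
    have h3 : x ∈ D ∩ Set.Ioi γ := ⟨hx, lt_of_le_of_lt (le_max_right _ _) hx2⟩
    have h4 : x ≤ sSup (D ∩ Set.Ioi γ) := le_csSup ⟨c.ord, fun i hi => le_of_lt (hsub hi.1)⟩ h3
    exact absurd h4 (not_le.2 (lt_of_le_of_lt (le_max_left _ _) hx2))
  obtain ⟨T, hT, hTc⟩ := Cardinal.le_mk_iff_exists_subset.1 h1
  have h2 : sSup T < c.ord := sup_lt hc (by rw [hTc]; exact Cardinal.lift_lt.2 hl)
    (fun i hi => hsub (hT hi).1)
  obtain ⟨x, hx, hx2⟩ := hD _ (max_lt h2 hγ)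
  refine ⟨x, hx, lt_of_le_of_lt (le_max_right _ _) hx2, ?_⟩
  rw [← hTc]
  apply Cardinal.mk_le_mk_of_subset
  intro i hi
  refine ⟨(hT hi).1, (hT hi).2, ?_⟩
  have : i ≤ sSup T := le_csSup ⟨c.ord, fun i hi => le_of_lt (hsub (hT hi).1)⟩ hi
  exact lt_of_le_of_lt this (lt_of_le_of_lt (le_max_left _ _) hx2)

/-- The intersection of fewer than `c` clubs of the regular uncountable cardinal `c`. -/
lemma club_iInter {c : Cardinal.{u}} (hc : c.IsRegular) (hc0 : ℵ₀ < c) {i : Ordinal.{u}}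
    (hi : i < c.ord) (D : Ordinal.{u} → Set Ordinal.{u}) (hD : ∀ j < i, Club c.ord (D j)) :
    Club c.ord (Set.Iio c.ord ∩ {x | ∀ j < i, x ∈ D j}) := by
  classical
  refine ⟨Set.inter_subset_left, ?_, ?_⟩
  · intro β hβ
    -- `nx j γ` is an element of `D j` above `γ`
    have hnx : ∀ (j γ : Ordinal.{u}), ∃ x : Ordinal.{u}, j < i → γ < c.ord → x ∈ D j ∧ γ < x := by
      intro j γ
      by_cases h : j < i ∧ γ < c.ord
      · obtain ⟨x, hx, hx'⟩ := (hD j h.1).2.1 γ h.2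
        exact ⟨x, fun _ _ => ⟨hx, hx'⟩⟩
      · exact ⟨0, fun h1 h2 => absurd ⟨h1, h2⟩ h⟩
    choose nx hnx using hnx
    let F : Ordinal.{u} → Ordinal.{u} := fun γ => max (Order.succ γ) (sSup ((fun j => nx j γ) '' Set.Iio i) + 1)
    have hlim : Order.IsSuccLimit c.ord := Cardinal.isSuccLimit_ord hc0.le
    have hF : ∀ γ < c.ord, F γ < c.ord := by
      intro γ hγ
      apply max_lt (hlim.succ_lt hγ)
      apply hlim.succ_lt
      apply sup_lt hc
      · exact (Cardinal.mk_image_le).trans_lt (mk_Iio_lt hi)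
      · rintro _ ⟨j, hj, rfl⟩
        exact (hD j hj).1 (hnx j γ hj hγ).1
    have hcof : ℵ₀ < c.ord.cof := by rw [hc.cof_ord]; exact hc0
    have hnfp := Ordinal.nfp_lt_ord hcof hF hβ
    have hit : ∀ n : ℕ, F^[n] β < c.ord := fun n => by
      induction n with
      | zero => exact hβ
      | succ n ih => rw [Function.iterate_succ_apply']; exact hF _ ih
    have hlt : ∀ n : ℕ, F^[n] β < F^[n + 1] β := fun n => by
      rw [Function.iterate_succ_apply']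
      exact lt_of_lt_of_le (Order.lt_succ _) (le_max_left _ _)
    have hlt' : ∀ n : ℕ, F^[n] β < Ordinal.nfp F β := fun n =>
      lt_of_lt_of_le (hlt n) (Ordinal.iterate_le_nfp F β (n + 1))
    refine ⟨Ordinal.nfp F β, ⟨hnfp, ?_⟩, hlt' 0⟩
    intro j hj
    refine (hD j hj).2.2 _ hnfp (lt_of_le_of_lt (zero_le) (hlt' 0)) ?_
    intro γ hγ
    obtain ⟨n, hn⟩ := Ordinal.lt_nfp_iff.1 hγ
    refine ⟨nx j (F^[n] β), (hnx j _ hj (hit n)).1, hn.trans (hnx j _ hj (hit n)).2, ?_⟩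
    have h1 : nx j (F^[n] β) < F^[n + 1] β := by
      rw [Function.iterate_succ_apply']
      refine lt_of_lt_of_le ?_ (le_max_right _ _)
      apply Order.lt_succ_of_le
      apply le_csSup
      · exact ⟨c.ord, by rintro _ ⟨j', hj', rfl⟩; exact le_of_lt ((hD j' hj').1 (hnx j' _ hj' (hit n)).1)⟩
      · exact ⟨j, hj, rfl⟩
    exact h1.trans (hlt' (n + 1))
  · intro β hβ h0 hlim
    refine ⟨hβ, fun j hj => (hD j hj).2.2 β hβ h0 ?_⟩
    intro γ hγ
    obtain ⟨δ, hδ, h1, h2⟩ := hlim γ hγ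
    exact ⟨δ, hδ.2 j hj, h1, h2⟩

/-- the continuous iteration of `H` -/
noncomputable def iter (H : Ordinal.{u} → Ordinal.{u}) (ξ : Ordinal.{u}) : Ordinal.{u} :=
  sSup (Set.range fun η : Set.Iio ξ => H (iter H η.1))
termination_by ξ
decreasing_by exact η.2

lemma iter_bdd (H : Ordinal.{u} → Ordinal.{u}) (ξ : Ordinal.{u}) :
    BddAbove (Set.range fun η : Set.Iio ξ => H (iter H η.1)) := Ordinal.bddAbove_of_small

lemma lt_iter {H : Ordinal.{u} → Ordinal.{u}} {η ξ : Ordinal.{u}} (h : η < ξ) :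
    H (iter H η) ≤ iter H ξ := by
  rw [iter.eq_1 H ξ]
  exact le_csSup (iter_bdd H ξ) ⟨⟨η, h⟩, rfl⟩

lemma iter_le {H : Ordinal.{u} → Ordinal.{u}} {ξ a : Ordinal.{u}} (h : ∀ η < ξ, H (iter H η) ≤ a) :
    iter H ξ ≤ a := by
  rw [iter.eq_1 H ξ]
  apply csSup_le'
  rintro _ ⟨η, rfl⟩
  exact h η.1 η.2

lemma iter_normal {H : Ordinal.{u} → Ordinal.{u}} (hH : ∀ β, β < H β) : Order.IsNormal (iter H) := by
  rw [Order.isNormal_iff]
  refine ⟨fun η ξ h => lt_of_lt_of_le (hH _) (lt_iter h), ?_⟩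
  intro o ho a ha
  apply iter_le
  intro η hη
  exact (lt_iter (Order.lt_succ η)).trans (ha _ (ho.succ_lt hη))

lemma iter_lt {c : Cardinal.{u}} (hc : c.IsRegular) {H : Ordinal.{u} → Ordinal.{u}}
    (hH : ∀ β < c.ord, H β < c.ord) (ξ : Ordinal.{u}) (hξ : ξ < c.ord) : iter H ξ < c.ord := by
  induction ξ using WellFoundedLT.induction with
  | ind ξ ih =>
    rw [iter.eq_1 H ξ]
    apply sup_lt hc
    · exact Cardinal.mk_range_le.trans_lt (mk_Iio_lt hξ)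
    · rintro _ ⟨η, rfl⟩
      exact hH _ (ih η.1 η.2 (lt_trans η.2 hξ))

/-- A point of cofinality `θ` closed under `H`. -/
lemma exists_closed {c θ : Cardinal.{u}} (hc : c.IsRegular) (hθ : θ.IsRegular) (hθc : θ < c)
    {H : Ordinal.{u} → Ordinal.{u}} (hH1 : ∀ β, β < H β) (hH : ∀ β < c.ord, H β < c.ord) :
    ∃ α < c.ord, α.cof = θ ∧ ∀ γ < α, ∃ β, γ < β ∧ H β < α := by
  refine ⟨iter H θ.ord, iter_lt hc hH _ (Cardinal.ord_lt_ord.2 hθc), ?_, ?_⟩
  · rw [Ordinal.cof_map_of_isNormal (iter_normal hH1) (Cardinal.isSuccLimit_ord hθ.aleph0_le),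
      hθ.cof_ord]
  · intro γ hγ
    have hlim : Order.IsSuccLimit θ.ord := Cardinal.isSuccLimit_ord hθ.aleph0_le
    obtain ⟨η, hη, h1⟩ := ((iter_normal hH1).lt_iff_exists_lt hlim).1 hγ
    refine ⟨iter H η, h1, ?_⟩
    exact lt_of_le_of_lt (lt_iter (Order.lt_succ η))
      ((iter_normal hH1).strictMono (hlim.succ_lt hη))

end Pool.Agent.H665R2.ClubBasic
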