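import Mathlib

/-!
# A `K₄`-free graph on `ω₁ × ω₁` without large independent sets, from CH

`I` is a well-ordered set in which all initial segments are countable. A point `(α, ξ)` of `I × I`
lies in column `α` and on level `ξ`. The graph is described by the sets `f ζ γ` of lower neighbours
(neighbours on lower levels) of the point `(γ, ζ)`.
-/

set_option autoImplicit false

namespace Pool.Agent.H665R2.ColK4

open Set

universe u v

/-- Definition of a function by recursion along a well-order, with choices. -/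
theorem exists_rec {I : Type u} [LinearOrder I] [WellFoundedLT I] {T : Type v} [Nonempty T]
    (R : I → (I → T) → T → Prop)
    (hR : ∀ i f g, (∀ j, j < i → f j = g j) → ∀ t, R i f t → R i g t)
    (hex : ∀ i f, (∀ j, j < i → R j f (f j)) → ∃ t, R i f t) :
    ∃ f : I → T, ∀ i, R i f (f i) := by
  classical
  let F : ∀ i : I, (∀ j : I, j < i → T) → T := fun i prev =>
    if h : ∃ t, R i (fun j => if h : j < i then prev j h else Classical.arbitrary T) t
      then h.choose else Classical.arbitrary T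
  let f : I → T := WellFounded.fix (wellFounded_lt (α := I)) F
  have hf : ∀ i, f i = F i (fun j _ => f j) := fun i => WellFounded.fix_eq _ F i
  refine ⟨f, fun i => ?_⟩
  induction i using WellFoundedLT.induction with
  | ind i ih =>
    set f' : I → T := fun j => if h : j < i then f j else Classical.arbitrary T with hf'
    have hag : ∀ j, j < i → f' j = f j := by
      intro j hj
      simp [hf', hj]
    have hprev : ∀ j, j < i → R j f' (f' j) := by
      intro j hj
      rw [hag j hj]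
      exact hR j f f' (fun k hk => (hag k (hk.trans hj)).symm) _ (ih j hj)
    have hE : ∃ t, R i f' t := hex i f' hprev
    have h2 : f i = hE.choose := by
      rw [hf i]
      simp only [F]
      exact dif_pos hE
    rw [h2]
    exact hR i f' f hag _ hE.choose_spec

variable {I : Type u} [LinearOrder I]

/-- Adjacency: one of the two points is a lower neighbour of the other. -/
def adj (f : I → I → Set (I × I)) (x y : I × I) : Prop := x ∈ f y.2 y.1 ∨ y ∈ f x.2 x.1

omit [LinearOrder I] in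
theorem adj_symm {f : I → I → Set (I × I)} {x y : I × I} (h : adj f x y) : adj f y x := h.symm

theorem adj_congr {f g : I → I → Set (I × I)} {ζ : I} (h : ∀ j, j < ζ → f j = g j)
    {x y : I × I} (hx : x.2 < ζ) (hy : y.2 < ζ) : adj f x y ↔ adj g x y := by
  unfold adj
  rw [h _ hx, h _ hy]

/-- `Y` is a legitimate requirement for column `γ`, with bound `δ`. -/
def Legit (f : I → I → Set (I × I)) (γ : I) (Y : Set (I × I)) (δ : I) : Prop :=
  (∀ x ∈ Y, x.1 < x.2 ∧ x.2 < δ) ∧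
  ∀ E : Set ((I × I) × (I × I)), E.Finite →
    (∀ p ∈ E, p.1.2 < δ ∧ p.2.2 < δ ∧ adj f p.1 p.2) →
    {α | γ < α ∧ {ξ | (α, ξ) ∈ Y ∧
      ∀ p ∈ E, ¬ (adj f p.1 (α, ξ) ∧ adj f p.2 (α, ξ))}.Infinite}.Infinite

theorem Legit.congr {f g : I → I → Set (I × I)} {γ δ ζ : I} {Y : Set (I × I)}
    (h : ∀ j, j < ζ → f j = g j) (hδ : δ ≤ ζ) (hL : Legit f γ Y δ) : Legit g γ Y δ := by
  refine ⟨hL.1, fun E hE hE2 => ?_⟩
  have hE3 : ∀ p ∈ E, p.1.2 < δ ∧ p.2.2 < δ ∧ adj f p.1 p.2 := by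
    intro p hp
    obtain ⟨h1, h2, h3⟩ := hE2 p hp
    exact ⟨h1, h2, (adj_congr h (h1.trans_le hδ) (h2.trans_le hδ)).2 h3⟩
  refine (hL.2 E hE hE3).mono ?_
  rintro α ⟨h1, h2⟩
  refine ⟨h1, h2.mono ?_⟩
  rintro ξ ⟨h3, h4⟩
  refine ⟨h3, fun p hp hh => h4 p hp ?_⟩
  have hξ : ξ < ζ := ((hL.1 _ h3).2).trans_le hδ
  obtain ⟨h5, h6, _⟩ := hE3 p hp
  exact ⟨(adj_congr h (x := p.1) (y := (α, ξ)) (h5.trans_le hδ) hξ).2 hh.1,
    (adj_congr h (x := p.2) (y := (α, ξ)) (h6.trans_le hδ) hξ).2 hh.2⟩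

/-- The conditions on the lower neighbourhoods `t γ` of the points `(γ, ζ)`. -/
def Step (e : I → I → ℕ) (Yf : I → Set (I × I)) (ζ : I) (f : I → I → Set (I × I))
    (t : I → Set (I × I)) : Prop :=
  ∀ γ, (∀ x ∈ t γ, γ < x.1 ∧ x.1 < x.2 ∧ x.2 < ζ) ∧
    (∀ x ∈ t γ, ∀ y ∈ t γ, x.1 = y.1 → x = y) ∧
    (∀ x ∈ t γ, ∀ y ∈ t γ, ∀ z ∈ t γ, adj f x y → adj f y z → adj f x z → False) ∧
    (∀ x ∈ t γ, ∀ y ∈ t γ, x ∈ f y.2 y.1 → e x.1 γ < e x.1 y.1) ∧
    (γ < ζ → ∀ i, i < ζ → ∀ δ, δ < ζ → Legit f γ (Yf i) δ → (t γ ∩ Yf i).Nonempty)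

theorem Step.congr {e : I → I → ℕ} {Yf : I → Set (I × I)} {ζ : I} {f g : I → I → Set (I × I)}
    {t : I → Set (I × I)} (h : ∀ j, j < ζ → f j = g j) (hS : Step e Yf ζ f t) :
    Step e Yf ζ g t := by
  intro γ
  obtain ⟨h1, h2, h3, h4, h5⟩ := hS γ
  have hadj : ∀ x ∈ t γ, ∀ y ∈ t γ, adj g x y → adj f x y := fun x hx y hy hxy =>
    (adj_congr h (h1 x hx).2.2 (h1 y hy).2.2).2 hxy
  refine ⟨h1, h2, ?_, ?_, ?_⟩
  · intro x hx y hy z hz hxy hyz hxz
    exact h3 x hx y hy z hz (hadj _ hx _ hy hxy) (hadj _ hy _ hz hyz) (hadj _ hx _ hz hxz)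
  · intro x hx y hy hxy
    refine h4 x hx y hy ?_
    rw [h _ (h1 y hy).2.2]
    exact hxy
  · intro hγ i hi δ hδ hL
    exact h5 hγ i hi δ hδ (hL.congr (fun j hj => (h j hj).symm) hδ.le)

theorem finite_image_pairs {α : Type*} (y : ℕ → α) (j : ℕ) (P : α × α → Prop) :
    {p : α × α | ∃ i < j, ∃ k < j, p = (y i, y k) ∧ P p}.Finite := by
  have h1 : ((Set.Iio j ×ˢ Set.Iio j).image (fun q : ℕ × ℕ => (y q.1, y q.2))).Finite :=
    ((Set.finite_Iio j).prod (Set.finite_Iio j)).image _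
  refine h1.subset ?_
  rintro p ⟨i, hi, k, hk, rfl, _⟩
  exact ⟨(i, k), ⟨hi, hk⟩, rfl⟩

/-- The recursion step. -/
theorem step_exists [WellFoundedLT I] (hcount : ∀ a : I, (Set.Iio a).Countable)
    {e : I → I → ℕ} (he : ∀ β, Set.InjOn (e β) (Set.Iio β)) (Yf : I → Set (I × I)) (ζ : I)
    (f : I → I → Set (I × I)) (hprev : ∀ ξ, ξ < ζ → Step e Yf ξ f (f ξ)) :
    ∃ t, Step e Yf ζ f t := by
  classical
  have key : ∀ γ : I, ∃ S : Set (I × I), (∀ x ∈ S, γ < x.1 ∧ x.1 < x.2 ∧ x.2 < ζ) ∧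
    (∀ x ∈ S, ∀ y ∈ S, x.1 = y.1 → x = y) ∧
    (∀ x ∈ S, ∀ y ∈ S, ∀ z ∈ S, adj f x y → adj f y z → adj f x z → False) ∧
    (∀ x ∈ S, ∀ y ∈ S, x ∈ f y.2 y.1 → e x.1 γ < e x.1 y.1) ∧
    (γ < ζ → ∀ i, i < ζ → ∀ δ, δ < ζ → Legit f γ (Yf i) δ → (S ∩ Yf i).Nonempty) := by
    intro γ
    set L : Set (I × I) := {q | q.1 < ζ ∧ q.2 < ζ ∧ Legit f γ (Yf q.1) q.2} with hLdef
    have hLc : L.Countable := by
      refine ((hcount ζ).prod (hcount ζ)).mono ?_
      rintro q ⟨h1, h2, _⟩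
      exact ⟨h1, h2⟩
    rcases L.eq_empty_or_nonempty with hL0 | hLne
    · refine ⟨∅, by simp, by simp, by simp, by simp, ?_⟩
      intro _ i hi δ hδ hleg
      exfalso
      have : (i, δ) ∈ L := ⟨hi, hδ, hleg⟩
      rw [hL0] at this
      exact this
    · obtain ⟨q, hq⟩ := hLc.exists_eq_range hLne
      have hqL : ∀ k, q k ∈ L := fun k => by rw [hq]; exact ⟨k, rfl⟩
      have : Nonempty (I × I) := ⟨q 0⟩
      have hy := exists_rec (I := ℕ) (T := I × I) (hR := ?_) (hex := ?_)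
        (R := fun j y t => t ∈ Yf (q j).1 ∧ γ < t.1 ∧ ∀ k, k < j → (t.1 ≠ (y k).1 ∧
          t ∉ f (y k).2 (y k).1 ∧ (t.1 < (y k).1 → e (y k).1 γ < e (y k).1 t.1) ∧
          ∀ i, i < j → adj f (y i) (y k) → ¬ (adj f (y i) t ∧ adj f (y k) t)))
      · obtain ⟨y, hy⟩ := hy
        have hlev : ∀ k, (y k).1 < (y k).2 ∧ (y k).2 < ζ := by
          intro k
          have h1 := (hqL k).2.2.1 _ (hy k).1
          exact ⟨h1.1, h1.2.trans (hqL k).2.1⟩
        have hlt : ∀ a b, y a ∈ f (y b).2 (y b).1 → (y b).1 < (y a).1 ∧ (y a).2 < (y b).2 := by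
          intro a b hab
          have h1 := (hprev _ (hlev b).2 (y b).1).1 _ hab
          exact ⟨h1.1, h1.2.2⟩
        have hirr : ∀ a, ¬ adj f (y a) (y a) := by
          rintro a (h | h)
          · exact absurd (hlt a a h).2 (lt_irrefl _)
          · exact absurd (hlt a a h).2 (lt_irrefl _)
        have htri : ∀ a b c, a < c → b < c → adj f (y a) (y b) → adj f (y a) (y c) →
            adj f (y b) (y c) → False := by
          intro a b c hac hbc h1 h2 h3
          exact ((hy c).2.2 b hbc).2.2.2 a hac h1 ⟨h2, h3⟩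
        refine ⟨Set.range y, ?_, ?_, ?_, ?_, ?_⟩
        · rintro _ ⟨k, rfl⟩
          exact ⟨(hy k).2.1, (hlev k).1, (hlev k).2⟩
        · rintro _ ⟨a, rfl⟩ _ ⟨b, rfl⟩ hab
          rcases lt_trichotomy a b with h | h | h
          · exact absurd hab.symm ((hy b).2.2 a h).1
          · rw [h]
          · exact absurd hab ((hy a).2.2 b h).1
        · rintro _ ⟨a, rfl⟩ _ ⟨b, rfl⟩ _ ⟨c, rfl⟩ hab hbc hac
          have nab : a ≠ b := by
            rintro rfl
            exact hirr _ hab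
          have nbc : b ≠ c := by
            rintro rfl
            exact hirr _ hbc
          have nac : a ≠ c := by
            rintro rfl
            exact hirr _ hac
          rcases lt_or_gt_of_ne nac with h1 | h1
          · rcases lt_or_gt_of_ne nbc with h2 | h2
            · exact htri a b c h1 h2 hab hac hbc
            · exact htri a c b (h1.trans h2) h2 hac hab (adj_symm hbc)
          · rcases lt_or_gt_of_ne nab with h2 | h2
            · exact htri a c b h2 (h1.trans h2) hac hab (adj_symm hbc)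
            · exact htri b c a h2 h1 hbc (adj_symm hab) (adj_symm hac)
        · rintro _ ⟨a, rfl⟩ _ ⟨b, rfl⟩ hab
          have hl := hlt a b hab
          rcases lt_trichotomy a b with h | h | h
          · exact ((hy b).2.2 a h).2.2.1 hl.1
          · subst h
            exact absurd hl.1 (lt_irrefl _)
          · exact absurd hab ((hy a).2.2 b h).2.1
        · intro _ i hi δ hδ hleg
          have hm : (i, δ) ∈ L := ⟨hi, hδ, hleg⟩
          rw [hq] at hm
          obtain ⟨k, hk⟩ := hm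
          refine ⟨y k, ⟨k, rfl⟩, ?_⟩
          have h1 := (hy k).1
          rw [hk] at h1
          exact h1
      · -- the relation only depends on the earlier values
        intro j y y' hag t ht
        refine ⟨ht.1, ht.2.1, fun k hk => ?_⟩
        have h1 := ht.2.2 k hk
        rw [hag k hk] at h1
        refine ⟨h1.1, h1.2.1, h1.2.2.1, fun i hi => ?_⟩
        have h2 := h1.2.2.2 i hi
        rw [hag i hi] at h2
        exact h2
      · -- the choice
        intro j y hyp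
        have hlev : ∀ k, k < j → (y k).2 < ζ := fun k hk =>
          ((hqL k).2.2.1 _ (hyp k hk).1).2.trans (hqL k).2.1
        obtain ⟨hδζ, hleg⟩ := (hqL j).2
        set δ := (q j).2 with hδdef
        set Y := Yf (q j).1 with hYdef
        set E : Set ((I × I) × (I × I)) := {p | ∃ i < j, ∃ k < j, p = (y i, y k) ∧
          (p.1.2 < δ ∧ p.2.2 < δ ∧ adj f p.1 p.2)} with hEdef
        have hEfin : E.Finite := finite_image_pairs y j _
        have hinf := hleg.2 E hEfin (by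
          rintro p ⟨i, _, k, _, _, h⟩
          exact h)
        -- choice of the column
        have hbad1 : ((Set.Iio j).image (fun k => (y k).1)).Finite :=
          (Set.finite_Iio j).image _
        have hbad2 : (⋃ k ∈ Set.Iio j, {α | α < (y k).1 ∧
            ¬ (e (y k).1 γ < e (y k).1 α)}).Finite := by
          refine (Set.finite_Iio j).biUnion fun k _ => ?_
          refine Set.Finite.of_finite_image (f := e (y k).1) ?_ ?_
          · refine (Set.finite_Iic (e (y k).1 γ)).subset ?_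
            rintro _ ⟨α, ⟨_, hα⟩, rfl⟩
            exact not_lt.1 hα
          · intro a ha b hb hab
            exact he (y k).1 ha.1 hb.1 hab
        obtain ⟨α, ⟨hγα, hαinf⟩, hαn⟩ := (hinf.sdiff (hbad1.union hbad2)).nonempty
        -- choice of the level
        have hbad3 : (⋃ k ∈ Set.Iio j, {ξ | (α, ξ) ∈ f (y k).2 (y k).1}).Finite := by
          refine (Set.finite_Iio j).biUnion fun k hk => ?_
          refine Set.Subsingleton.finite ?_
          intro a ha b hb
          have h1 := (hprev _ (hlev k hk) (y k).1).2.1 _ ha _ hb rfl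
          exact (Prod.mk.inj h1).2
        obtain ⟨ξ, ⟨hξY, hξE⟩, hξn⟩ := (hαinf.sdiff hbad3).nonempty
        have hξδ : ξ < δ := (hleg.1 _ hξY).2
        have hnf : ∀ k, k < j → (α, ξ) ∉ f (y k).2 (y k).1 := by
          intro k hk hmem
          exact hξn (Set.mem_biUnion (show k ∈ Set.Iio j from hk) hmem)
        have hhigh : ∀ k, k < j → δ ≤ (y k).2 → ¬ adj f (y k) (α, ξ) := by
          rintro k hk hδk (h | h)
          · have h1 := (hprev ξ (hξδ.trans hδζ) α).1 _ h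
            exact absurd (h1.2.2.trans hξδ) (not_lt.2 hδk)
          · exact hnf k hk h
        refine ⟨(α, ξ), hξY, hγα, fun k hk => ⟨?_, hnf k hk, ?_, ?_⟩⟩
        · intro hc
          exact hαn (Or.inl ⟨k, hk, hc.symm⟩)
        · intro hαk
          by_contra hc
          exact hαn (Or.inr (Set.mem_biUnion (show k ∈ Set.Iio j from hk) ⟨hαk, hc⟩))
        · intro i hi hik hboth
          by_cases h1 : (y i).2 < δ
          · by_cases h2 : (y k).2 < δ
            · exact hξE (y i, y k) ⟨i, hi, k, hk, rfl, h1, h2, hik⟩ hboth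
            · exact hhigh k hk (not_lt.1 h2) hboth.2
          · exact hhigh i hi (not_lt.1 h1) hboth.1
  choose t ht using key
  exact ⟨t, ht⟩

/-- The lower neighbourhoods satisfying all the conditions. -/
theorem exists_graph [WellFoundedLT I] (hcount : ∀ a : I, (Set.Iio a).Countable)
    {e : I → I → ℕ} (he : ∀ β, Set.InjOn (e β) (Set.Iio β)) (Yf : I → Set (I × I)) :
    ∃ f : I → I → Set (I × I), ∀ ζ, Step e Yf ζ f (f ζ) :=
  exists_rec (Step e Yf) (fun _ _ _ h _ ht => ht.congr h)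
    (fun ζ f h => step_exists hcount he Yf ζ f h)

section Use

variable {e : I → I → ℕ} {Yf : I → Set (I × I)} {f : I → I → Set (I × I)}

theorem low (hf : ∀ ζ, Step e Yf ζ f (f ζ)) {x y : I × I} (h : x ∈ f y.2 y.1) :
    y.1 < x.1 ∧ x.1 < x.2 ∧ x.2 < y.2 := (hf y.2 y.1).1 x h

theorem mem_of_adj (hf : ∀ ζ, Step e Yf ζ f (f ζ)) {x y : I × I} (h : adj f x y)
    (hl : x.2 ≤ y.2) : x ∈ f y.2 y.1 := by
  rcases h with h | h
  · exact h
  · exact absurd (low hf h).2.2 (not_lt.2 hl)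

theorem level_ne (hf : ∀ ζ, Step e Yf ζ f (f ζ)) {x y : I × I} (h : adj f x y) : x.2 ≠ y.2 := by
  rcases h with h | h
  · exact (low hf h).2.2.ne
  · exact (low hf h).2.2.ne'

/-- No four pairwise adjacent points. -/
theorem no_four (hf : ∀ ζ, Step e Yf ζ f (f ζ)) (g : Fin 4 → I × I)
    (hg : ∀ i j, i ≠ j → adj f (g i) (g j)) : False := by
  obtain ⟨i, hi⟩ := Finite.exists_max (fun i => (g i).2)
  have hd : ∀ i : Fin 4, i + 1 ≠ i ∧ i + 2 ≠ i ∧ i + 3 ≠ i ∧ i + 1 ≠ i + 2 ∧ i + 2 ≠ i + 3 ∧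
      i + 1 ≠ i + 3 := by decide
  obtain ⟨h1, h2, h3, h12, h23, h13⟩ := hd i
  exact (hf (g i).2 (g i).1).2.2.1 _ (mem_of_adj hf (hg _ _ h1) (hi _))
    _ (mem_of_adj hf (hg _ _ h2) (hi _)) _ (mem_of_adj hf (hg _ _ h3) (hi _))
    (hg _ _ h12) (hg _ _ h23) (hg _ _ h13)

/-- The common neighbours of two adjacent points meet only finitely many columns in an uncountable
set. -/
theorem common_finite (hcount : ∀ a : I, (Set.Iio a).Countable)
    (he : ∀ β, Set.InjOn (e β) (Set.Iio β)) (hf : ∀ ζ, Step e Yf ζ f (f ζ)) {x y : I × I}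
    (h : adj f x y) :
    {γ | ¬ {ζ | adj f x (γ, ζ) ∧ adj f y (γ, ζ)}.Countable}.Finite := by
  wlog hxy : y ∈ f x.2 x.1 generalizing x y
  · have h' := this (adj_symm h) (h.resolve_right hxy)
    refine h'.subset ?_
    rintro γ hγ hc
    refine hγ (hc.mono ?_)
    rintro ζ ⟨h1, h2⟩
    exact ⟨h2, h1⟩
  have hl := low hf hxy
  have hfin : {γ | γ < y.1 ∧ e y.1 γ < e y.1 x.1}.Finite := by
    refine Set.Finite.of_finite_image (f := e y.1) ?_ ?_
    · refine (Set.finite_Iio (e y.1 x.1)).subset ?_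
      rintro _ ⟨α, ⟨_, hα⟩, rfl⟩
      exact hα
    · intro a ha b hb hab
      exact he y.1 ha.1 hb.1 hab
  refine hfin.subset ?_
  intro γ hγ
  have hIic : (Set.Iic x.2).Countable := by
    have h0 : Set.Iic x.2 = Set.Iio x.2 ∪ {x.2} := by
      ext z
      simp [le_iff_lt_or_eq]
    rw [h0]
    exact (hcount _).union (Set.countable_singleton _)
  have hex : ∃ ζ, (adj f x (γ, ζ) ∧ adj f y (γ, ζ)) ∧ x.2 < ζ := by
    by_contra hno
    push Not at hno
    refine hγ (hIic.mono ?_)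
    intro ζ hζ
    exact hno ζ hζ
  obtain ⟨ζ, ⟨h1, h2⟩, h3⟩ := hex
  have m1 : x ∈ f ζ γ := mem_of_adj hf h1 h3.le
  have m2 : y ∈ f ζ γ := mem_of_adj hf h2 (hl.2.2.trans h3).le
  have h4 := (hf ζ γ).2.2.2.1 y m2 x m1 hxy
  exact ⟨((hf ζ γ).1 y m2).1, h4⟩

/-- A countable set is bounded. -/
theorem exists_bound (hcount : ∀ a : I, (Set.Iio a).Countable) (hunc : ¬ (Set.univ : Set I).Countable)
    {S : Set I} (hS : S.Countable) : ∃ b, ∀ s ∈ S, s < b := by
  by_contra hno
  push Not at hno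
  refine hunc ?_
  have h1 : (⋃ s ∈ S, (Set.Iio s ∪ {s})).Countable :=
    hS.biUnion fun s _ => (hcount s).union (Set.countable_singleton _)
  refine h1.mono ?_
  intro b _
  obtain ⟨s, hs, hbs⟩ := hno b
  refine Set.mem_biUnion hs ?_
  rcases hbs.lt_or_eq with h | h
  · exact Or.inl h
  · exact Or.inr h

/-- Closing off: for every function `b` assigning elements of `I` to pairs (finite set of pairs of
points, natural number) there is a `δ` above a given element such that `b E n ≤ δ` for all `n` and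
all finite `E` with all coordinates below `δ`. -/
theorem exists_closed [WellFoundedLT I] (hcount : ∀ a : I, (Set.Iio a).Countable)
    (hunc : ¬ (Set.univ : Set I).Countable) (b : Set ((I × I) × (I × I)) → ℕ → I) (s : I) :
    ∃ δ, s < δ ∧ ∀ E : Set ((I × I) × (I × I)), E.Finite →
      (∀ p ∈ E, p.1.1 < δ ∧ p.1.2 < δ ∧ p.2.1 < δ ∧ p.2.2 < δ) → ∀ n, b E n < δ := by
  classical
  let W : I → Set ((I × I) × (I × I)) := fun d =>
    ((Set.Iio d ×ˢ Set.Iio d) ×ˢ (Set.Iio d ×ˢ Set.Iio d))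
  have hW : ∀ d, (W d).Countable := fun d =>
    ((hcount d).prod (hcount d)).prod ((hcount d).prod (hcount d))
  have hstep : ∀ d : I, ∃ d', d < d' ∧ ∀ E, E.Finite → E ⊆ W d → ∀ n, b E n < d' := by
    intro d
    have h1 : {E | E.Finite ∧ E ⊆ W d}.Countable := Set.countable_ofPred_finite_subset (hW d)
    have h2 : (insert d (⋃ E ∈ {E | E.Finite ∧ E ⊆ W d}, Set.range (b E))).Countable :=
      (h1.biUnion fun E _ => Set.countable_range _).insert _
    obtain ⟨d', hd'⟩ := exists_bound hcount hunc h2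
    refine ⟨d', hd' d (Set.mem_insert _ _), fun E hE hEW n => ?_⟩
    refine hd' _ (Set.mem_insert_of_mem _ ?_)
    exact Set.mem_biUnion (show E ∈ {E | E.Finite ∧ E ⊆ W d} from ⟨hE, hEW⟩) ⟨n, rfl⟩
  choose h hh1 hh2 using hstep
  let d : ℕ → I := fun n => (h^[n]) s
  have hd : ∀ n, d (n + 1) = h (d n) := fun n => Function.iterate_succ_apply' h n s
  have hmono : StrictMono d := strictMono_nat_of_lt_succ fun n => by rw [hd]; exact hh1 _
  obtain ⟨b0, hb0⟩ := exists_bound hcount hunc (Set.countable_range d)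
  have hne : {x | ∀ n, d n < x}.Nonempty := ⟨b0, fun n => hb0 _ ⟨n, rfl⟩⟩
  set δ := WellFounded.min (wellFounded_lt (α := I)) _ hne with hδ
  have hδ1 : ∀ n, d n < δ := WellFounded.min_mem (wellFounded_lt (α := I)) _ hne
  have hδ2 : ∀ ξ, ξ < δ → ∃ n, ξ < d n := by
    intro ξ hξ
    have h1 : ¬ ∀ n, d n < ξ := fun hc =>
      WellFounded.not_lt_min (wellFounded_lt (α := I)) {x | ∀ n, d n < x} hc hξ
    push Not at h1
    obtain ⟨n, hn⟩ := h1
    exact ⟨n + 1, hn.trans_lt (hmono (Nat.lt_succ_self n))⟩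
  refine ⟨δ, hδ1 0, fun E hE hEδ n => ?_⟩
  have h1 : ∀ p : (I × I) × (I × I), ∃ m : ℕ, p ∈ E → p ∈ W (d m) := by
    intro p
    by_cases hp : p ∈ E
    · obtain ⟨q1, q2, q3, q4⟩ := hEδ p hp
      obtain ⟨n1, k1⟩ := hδ2 _ q1
      obtain ⟨n2, k2⟩ := hδ2 _ q2
      obtain ⟨n3, k3⟩ := hδ2 _ q3
      obtain ⟨n4, k4⟩ := hδ2 _ q4
      refine ⟨max (max n1 n2) (max n3 n4), fun _ => ⟨⟨?_, ?_⟩, ⟨?_, ?_⟩⟩⟩
      · exact k1.trans_le (hmono.monotone ((le_max_left _ _).trans (le_max_left _ _)))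
      · exact k2.trans_le (hmono.monotone ((le_max_right _ _).trans (le_max_left _ _)))
      · exact k3.trans_le (hmono.monotone ((le_max_left _ _).trans (le_max_right _ _)))
      · exact k4.trans_le (hmono.monotone ((le_max_right _ _).trans (le_max_right _ _)))
    · exact ⟨0, fun h => absurd h hp⟩
  choose m hm using h1
  obtain ⟨N, hN⟩ := (hE.image m).bddAbove
  have h2 : E ⊆ W (d N) := by
    intro p hp
    have h3 := hm p hp
    have h4 : d (m p) ≤ d N := hmono.monotone (hN ⟨p, hp, rfl⟩)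
    exact ⟨⟨h3.1.1.trans_le h4, h3.1.2.trans_le h4⟩, ⟨h3.2.1.trans_le h4, h3.2.2.trans_le h4⟩⟩
  have h3 := hh2 (d N) E hE h2 n
  rw [← hd] at h3
  exact h3.trans (hδ1 _)

/-- A set with uncountable sections over the columns `a 0 < a 1 < …` is not independent. -/
theorem not_indep [WellFoundedLT I] (hcount : ∀ a : I, (Set.Iio a).Countable)
    (hunc : ¬ (Set.univ : Set I).Countable)
    (he : ∀ β, Set.InjOn (e β) (Set.Iio β)) (hf : ∀ ζ, Step e Yf ζ f (f ζ))
    (hYf : ∀ Y : Set (I × I), Y.Countable → ∃ i, Yf i = Y)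
    {a : ℕ → I} (ha : StrictMono a) {X : Set (I × I)}
    (hX : ∀ n, ¬ {ξ | (a n, ξ) ∈ X}.Countable) : ∃ x ∈ X, ∃ y ∈ X, adj f x y := by
  classical
  have hIic : ∀ x : I, (Set.Iic x).Countable := by
    intro x
    have h0 : Set.Iic x = Set.Iio x ∪ {x} := by
      ext z
      simp [le_iff_lt_or_eq]
    rw [h0]
    exact (hcount _).union (Set.countable_singleton _)
  let Z : Set ((I × I) × (I × I)) → ℕ → Set I := fun E n =>
    {ξ | (a n, ξ) ∈ X ∧ a n < ξ ∧ ∀ p ∈ E, ¬ (adj f p.1 (a n, ξ) ∧ adj f p.2 (a n, ξ))}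
  have hb : ∀ E n, ∃ b : I, ¬ (Z E n).Countable → (Z E n ∩ Set.Iio b).Infinite := by
    intro E n
    by_cases hc : (Z E n).Countable
    · exact ⟨a 0, fun h => absurd hc h⟩
    · have hinf : (Z E n).Infinite := fun hfin => hc hfin.countable
      obtain ⟨T, hT1, hT2, hT3⟩ : ∃ T ⊆ Z E n, T.Countable ∧ T.Infinite := by
        have g : ℕ ↪ Z E n := Set.Infinite.natEmbedding _ hinf
        refine ⟨Set.range fun k => (g k : I), ?_, Set.countable_range _,
          Set.infinite_range_of_injective (Subtype.val_injective.comp g.injective)⟩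
        rintro _ ⟨k, rfl⟩
        exact (g k).2
      obtain ⟨b, hb⟩ := exists_bound hcount hunc hT2
      exact ⟨b, fun _ => hT3.mono fun t ht => ⟨hT1 ht, hb t ht⟩⟩
  choose b hb using hb
  obtain ⟨s, hs⟩ := exists_bound hcount hunc (Set.countable_range a)
  obtain ⟨δ, hsδ, hδ⟩ := exists_closed hcount hunc b s
  have haδ : ∀ n, a n < δ := fun n => (hs _ ⟨n, rfl⟩).trans hsδ
  set Y : Set (I × I) := {x | x ∈ X ∧ x.1 < x.2 ∧ x.2 < δ} with hYdef
  have hYc : Y.Countable := by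
    refine ((hcount δ).prod (hcount δ)).mono ?_
    rintro x ⟨_, h1, h2⟩
    exact ⟨h1.trans h2, h2⟩
  obtain ⟨i, hi⟩ := hYf Y hYc
  have hleg : Legit f (a 0) Y δ := by
    refine ⟨fun x hx => hx.2, fun E hE hE2 => ?_⟩
    -- coordinates of the points of `E` are below `δ`
    have hcoord : ∀ p ∈ E, p.1.1 < δ ∧ p.1.2 < δ ∧ p.2.1 < δ ∧ p.2.2 < δ := by
      intro p hp
      obtain ⟨h1, h2, h3⟩ := hE2 p hp
      rcases h3 with h3 | h3
      · have h4 := low hf h3
        exact ⟨h4.2.1.trans h1, h1, (h4.1.trans h4.2.1).trans h1, h2⟩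
      · have h4 := low hf h3
        exact ⟨(h4.1.trans h4.2.1).trans h2, h1, h4.2.1.trans h2, h2⟩
    have hbad : (⋃ p ∈ E, {γ | ¬ {ζ | adj f p.1 (γ, ζ) ∧ adj f p.2 (γ, ζ)}.Countable}).Finite :=
      hE.biUnion fun p hp => common_finite hcount he hf (hE2 p hp).2.2
    have hgood : {n : ℕ | 0 < n ∧ a n ∉ (⋃ p ∈ E,
        {γ | ¬ {ζ | adj f p.1 (γ, ζ) ∧ adj f p.2 (γ, ζ)}.Countable})}.Infinite := by
      have h1 : (a ⁻¹' (⋃ p ∈ E,
        {γ | ¬ {ζ | adj f p.1 (γ, ζ) ∧ adj f p.2 (γ, ζ)}.Countable})).Finite :=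
        hbad.preimage ha.injective.injOn
      have h2 : (a ⁻¹' (⋃ p ∈ E,
        {γ | ¬ {ζ | adj f p.1 (γ, ζ) ∧ adj f p.2 (γ, ζ)}.Countable}) ∪ {0})ᶜ.Infinite :=
        (h1.union (Set.finite_singleton 0)).infinite_compl
      refine h2.mono ?_
      intro n hn
      refine ⟨Nat.pos_of_ne_zero fun h0 => hn (Or.inr h0), fun h0 => hn (Or.inl h0)⟩
    refine (hgood.image ha.injective.injOn).mono ?_
    rintro _ ⟨n, ⟨hn0, hn⟩, rfl⟩
    refine ⟨ha hn0, ?_⟩
    have hunZ : ¬ (Z E n).Countable := by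
      intro hc
      refine hX n ?_
      have h1 : (⋃ p ∈ E, {ζ | adj f p.1 (a n, ζ) ∧ adj f p.2 (a n, ζ)}).Countable := by
        refine hE.countable.biUnion fun p hp => ?_
        by_contra hcc
        exact hn (Set.mem_biUnion hp hcc)
      refine ((hc.union h1).union (hIic (a n))).mono ?_
      intro ξ hξ
      by_cases h2 : a n < ξ
      · by_cases h3 : ∀ p ∈ E, ¬ (adj f p.1 (a n, ξ) ∧ adj f p.2 (a n, ξ))
        · exact Or.inl (Or.inl ⟨hξ, h2, h3⟩)
        · push Not at h3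
          obtain ⟨p, hp, h4⟩ := h3
          exact Or.inl (Or.inr (Set.mem_biUnion hp h4))
      · exact Or.inr (not_lt.1 h2)
    refine (hb E n hunZ).mono ?_
    rintro ξ ⟨⟨h1, h2, h3⟩, h4⟩
    exact ⟨⟨h1, h2, lt_trans h4 (hδ E hE hcoord n)⟩, h3⟩
  -- a point of `X` on a high level
  obtain ⟨ζ, hζX, hζi, hζδ⟩ : ∃ ζ, (a 0, ζ) ∈ X ∧ i < ζ ∧ δ < ζ := by
    by_contra hno
    push Not at hno
    refine hX 0 (((hIic i).union (hIic δ)).mono ?_)
    intro ζ hζ
    by_cases h1 : i < ζ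
    · exact Or.inr (hno ζ hζ h1)
    · exact Or.inl (not_lt.1 h1)
  have hleg' : Legit f (a 0) (Yf i) δ := by rw [hi]; exact hleg
  obtain ⟨x, hx1, hx2⟩ := (hf ζ (a 0)).2.2.2.2 ((haδ 0).trans hζδ) i hζi δ hζδ hleg'
  rw [hi] at hx2
  exact ⟨x, hx2.1, (a 0, ζ), hζX, Or.inl hx1⟩

end Use

end Pool.Agent.H665R2.ColK4
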