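import Mathlib
import Pool.Agent.H665R2.ColK4

/-!
# CH implies `ω₁² · n ↛ (ω₁ · ω, 4)²`
-/

set_option autoImplicit false

namespace Pool.Agent.H665R2.ColOrd

open Set Cardinal Ordinal ColK4

/-- The partition relation `α → (β, k)²` for ordinals and a natural number `k`: every colouring `c`
of the pairs `x < y` of ordinals below `α` with two colours has a subset of order type `β` (the
range of a strictly increasing function on the ordinals below `β`) all of whose pairs have
property `c`, or `k` elements all of whose pairs fail `c`. -/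
def Arrow (α β : Ordinal.{0}) (k : ℕ) : Prop :=
  ∀ c : Ordinal.{0} → Ordinal.{0} → Prop,
    (∃ f : Ordinal.{0} → Ordinal.{0}, StrictMonoOn f (Set.Iio β) ∧ (∀ x, x < β → f x < α) ∧
      (∀ x y, x < y → y < β → c (f x) (f y))) ∨
    (∃ g : Fin k → Ordinal.{0}, StrictMono g ∧ (∀ i, g i < α) ∧
      (∀ i j, i < j → ¬ c (g i) (g j)))

theorem Arrow.mono {α α' β : Ordinal.{0}} {k : ℕ} (h : α ≤ α') (hA : Arrow α β k) :
    Arrow α' β k := by
  intro c
  rcases hA c with ⟨f, h1, h2, h3⟩ | ⟨g, h1, h2, h3⟩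
  · exact Or.inl ⟨f, h1, fun x hx => (h2 x hx).trans_le h, h3⟩
  · exact Or.inr ⟨g, h1, fun i => (h2 i).trans_le h, h3⟩

theorem countable_Iio_of_lt {x : Ordinal.{0}} (hx : x < ω_ 1) : (Set.Iio x).Countable := by
  rw [← Cardinal.le_aleph0_iff_set_countable, Cardinal.mk_Iio_ordinal, Cardinal.lift_le_aleph0]
  have h1 : x.card < ℵ₁ := by
    rw [← Cardinal.lt_ord, Cardinal.ord_aleph]
    exact hx
  rw [← Cardinal.succ_aleph0] at h1
  exact Order.lt_succ_iff.1 h1

theorem countable_Iic_of_lt {x : Ordinal.{0}} (hx : x < ω_ 1) : (Set.Iic x).Countable := by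
  have h0 : Set.Iic x = Set.Iio x ∪ {x} := by
    ext z
    simp [le_iff_lt_or_eq]
  rw [h0]
  exact (countable_Iio_of_lt hx).union (Set.countable_singleton _)

theorem not_countable_Iio : ¬ (Set.Iio (ω_ 1 : Ordinal.{0})).Countable := by
  rw [← Cardinal.le_aleph0_iff_set_countable, Cardinal.mk_Iio_ordinal, Cardinal.lift_le_aleph0,
    Ordinal.card_omega, not_le]
  exact Cardinal.aleph0_lt_aleph_one

/-- `I` is `ω₁`. -/
abbrev I : Type := (ω_ 1 : Ordinal.{0}).ToType

theorem mk_I : #I = ℵ₁ := by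
  rw [Cardinal.mk_toType, Ordinal.card_omega]

theorem hcount (a : I) : (Set.Iio a).Countable := by
  have h1 : ((fun b : I => (ToType.toOrd b : Ordinal.{0})) '' Set.Iio a).Countable := by
    have h0 : (ToType.toOrd a : Ordinal.{0}) < ω_ 1 := (ToType.toOrd a).2
    refine (countable_Iio_of_lt h0).mono ?_
    rintro _ ⟨b, hb, rfl⟩
    have h2 : ToType.toOrd b < ToType.toOrd a := ToType.mk.symm.lt_iff_lt.2 hb
    exact h2
  refine Set.countable_of_injective_of_countable_image (Function.Injective.injOn ?_) h1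
  intro b c h
  exact ToType.mk.symm.injective (Subtype.ext h)

theorem hunc : ¬ (Set.univ : Set I).Countable := by
  rw [← Cardinal.le_aleph0_iff_set_countable, Cardinal.mk_univ, mk_I, not_le]
  exact Cardinal.aleph0_lt_aleph_one

theorem exists_e : ∃ e : I → I → ℕ, ∀ β, Set.InjOn (e β) (Set.Iio β) := by
  have h : ∀ β : I, ∃ g : I → ℕ, Set.InjOn g (Set.Iio β) := by
    intro β
    exact (Set.countable_iff_exists_injOn).1 (hcount β)
  choose e he using h
  exact ⟨e, he⟩

theorem exists_Yf (hCH : Cardinal.continuum.{0} = ℵ₁) :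
    ∃ Yf : I → Set (I × I), ∀ Y : Set (I × I), Y.Countable → ∃ i, Yf i = Y := by
  have h1 : #(ℕ → Option (I × I)) ≤ #I := by
    rw [Cardinal.mk_pi]
    simp only [Cardinal.prod_const, Cardinal.lift_id, Cardinal.mk_option, Cardinal.mk_prod,
      mk_I, Cardinal.mk_nat, Cardinal.lift_id]
    rw [Cardinal.mul_eq_self (Cardinal.aleph0_le_aleph 1),
      Cardinal.add_one_eq (Cardinal.aleph0_le_aleph 1), ← hCH, Cardinal.continuum_power_aleph0]
  obtain ⟨emb⟩ := Cardinal.le_def _ _ |>.1 h1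
  classical
  refine ⟨fun i => {x | ∃ n, Function.invFun emb i n = some x}, fun Y hY => ?_⟩
  have h2 : ∃ s : ℕ → Option (I × I), {x | ∃ n, s n = some x} = Y := by
    rcases Y.eq_empty_or_nonempty with rfl | hne
    · exact ⟨fun _ => none, by simp⟩
    · obtain ⟨s, hs⟩ := hY.exists_eq_range hne
      refine ⟨fun n => some (s n), ?_⟩
      rw [hs]
      ext x
      simp
  obtain ⟨s, hs⟩ := h2
  refine ⟨emb s, ?_⟩
  have h3 := Function.leftInverse_invFun emb.injective s
  change {x | ∃ n, Function.invFun emb (emb s) n = some x} = Y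
  rw [h3]
  exact hs

theorem exists_injOn {o : Ordinal.{0}} (ho : o.card ≤ ℵ₁) :
    ∃ φ : Ordinal.{0} → I, Set.InjOn φ (Set.Iio o) := by
  have h1 : #o.ToType ≤ #I := by
    rw [mk_I, Cardinal.mk_toType]
    exact ho
  obtain ⟨emb⟩ := Cardinal.le_def _ _ |>.1 h1
  classical
  have hI : Nonempty I := by
    rw [← Cardinal.mk_ne_zero_iff, mk_I]
    exact (Cardinal.aleph_pos 1).ne'
  refine ⟨fun x => if h : x < o then emb (ToType.mk ⟨x, h⟩) else Classical.arbitrary I, ?_⟩
  intro x hx y hy hxy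
  have hx' : x < o := hx
  have hy' : y < o := hy
  simp only [hx', hy', dif_pos] at hxy
  have h2 := ToType.mk.injective (emb.injective hxy)
  exact congrArg Subtype.val h2

theorem omega1_ne : (ω_ 1 : Ordinal.{0}) ≠ 0 := by
  have h1 : (ω : Ordinal.{0}) < ω_ 1 := Ordinal.omega0_lt_omega_one
  exact (lt_trans Ordinal.omega0_pos h1).ne'

/-- In a strictly increasing map from `ω₁ · ω` into `ω₁ · (ω₁ · n)` infinitely many columns are
hit uncountably often. -/
theorem exists_columns {n : ℕ} {f : Ordinal.{0} → Ordinal.{0}}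
    (hf : StrictMonoOn f (Set.Iio (ω_ 1 * ω)))
    (hlt : ∀ x, x < ω_ 1 * ω → f x < ω_ 1 * (ω_ 1 * (n : Ordinal.{0}))) :
    ∃ C : ℕ → Ordinal.{0}, StrictMono C ∧ (∀ m, C m < ω_ 1 * (n : Ordinal.{0})) ∧
      ∀ m, ¬ {y | y < ω_ 1 * ω ∧ f y / ω_ 1 = C m}.Countable := by
  set o : Ordinal.{0} := ω_ 1 with ho
  have ho0 : o ≠ 0 := omega1_ne
  have hopos : 0 < o := pos_iff_ne_zero.2 ho0
  -- the blocks
  have hY : ∀ m : ℕ, o * (m : Ordinal.{0}) < o * ω := fun m =>
    (mul_lt_mul_iff_right₀ hopos).2 (Ordinal.natCast_lt_omega0 m)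
  have hYle : ∀ {a b : ℕ}, a ≤ b → o * (a : Ordinal.{0}) ≤ o * (b : Ordinal.{0}) := fun h =>
    mul_le_mul_right (by exact_mod_cast h) o
  have hfmono : ∀ {x y : Ordinal.{0}}, x ≤ y → y < o * ω → f x ≤ f y := fun hxy hy =>
    hf.monotoneOn (hxy.trans_lt hy) hy hxy
  -- the top coordinate
  have hK : ∀ m : ℕ, ∃ k : ℕ, f (o * m) / (o * o) = (k : Ordinal.{0}) ∧ k < n := by
    intro m
    have h1 : f (o * m) / (o * o) < (n : Ordinal.{0}) := by
      rw [← Ordinal.lt_mul_iff_div_lt (mul_ne_zero ho0 ho0), mul_assoc]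
      exact hlt _ (hY m)
    obtain ⟨k, hk⟩ := Ordinal.lt_omega0.1 (h1.trans (Ordinal.natCast_lt_omega0 n))
    refine ⟨k, hk, ?_⟩
    rw [hk] at h1
    exact_mod_cast h1
  choose κ hκ1 hκ2 using hK
  have hκmono : Monotone κ := by
    intro a b hab
    have h1 : (κ a : Ordinal.{0}) ≤ (κ b : Ordinal.{0}) := by
      rw [← hκ1, ← hκ1]
      exact Ordinal.div_le_left (hfmono (hYle hab) (hY b)) _
    exact_mod_cast h1
  obtain ⟨m₀, hm₀⟩ : ∃ m₀, ∀ m, κ m ≤ κ m₀ := by
    have hfin : (Set.range κ).Finite := (Set.finite_Iio n).subset (by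
      rintro _ ⟨m, rfl⟩
      exact hκ2 m)
    obtain ⟨_, ⟨m₀, rfl⟩, hmax⟩ := Set.exists_max_image (Set.range κ) id hfin ⟨_, ⟨0, rfl⟩⟩
    exact ⟨m₀, fun m => hmax _ ⟨m, rfl⟩⟩
  have hconst : ∀ m, m₀ ≤ m → κ m = κ m₀ := fun m hm => le_antisymm (hm₀ m) (hκmono hm)
  set k := κ m₀ with hk
  -- columns in blocks past `m₀`
  have hcol : ∀ m, m₀ ≤ m → o * (k : Ordinal.{0}) ≤ f (o * m) / o ∧
      ∃ d, d < o ∧ f (o * m) / o = o * k + d := by
    intro m hm
    have h1 : f (o * m) / (o * o) = (k : Ordinal.{0}) := by rw [hκ1, hconst m hm]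
    have h2 : o * (k : Ordinal.{0}) ≤ f (o * m) / o := by
      rw [← Ordinal.mul_le_iff_le_div ho0, ← mul_assoc, Ordinal.mul_le_iff_le_div (mul_ne_zero ho0 ho0), h1]
    refine ⟨h2, f (o * m) / o - o * k, ?_, (Ordinal.add_sub_cancel_of_le h2).symm⟩
    rw [Ordinal.sub_lt_of_le h2]
    have h3 : f (o * m) / (o * o) < ((k + 1 : ℕ) : Ordinal.{0}) := by
      rw [h1]
      exact_mod_cast Nat.lt_succ_self k
    rw [← Ordinal.lt_mul_iff_div_lt (mul_ne_zero ho0 ho0), mul_assoc,
      Ordinal.lt_mul_iff_div_lt ho0] at h3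
    have h4 : o * ((k + 1 : ℕ) : Ordinal.{0}) = o * k + o := by
      push_cast
      rw [mul_add, mul_one]
    rw [h4] at h3
    exact h3
  -- the blocks are uncountable
  have hB : ∀ m : ℕ, ¬ {y : Ordinal.{0} | o * (m : Ordinal.{0}) ≤ y ∧
      y < o * ((m + 1 : ℕ) : Ordinal.{0})}.Countable := by
    intro m hc
    refine not_countable_Iio ?_
    have h1 : ((fun t : Ordinal.{0} => o * (m : Ordinal.{0}) + t) '' Set.Iio o).Countable := by
      refine hc.mono ?_
      rintro _ ⟨t, ht, rfl⟩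
      refine ⟨le_self_add, ?_⟩
      push_cast
      rw [mul_add, mul_one]
      exact (add_lt_add_iff_left _).2 ht
    refine Set.countable_of_injective_of_countable_image ?_ h1
    intro a _ b _ hab
    exact add_left_cancel hab
  have hC : ∀ m : ℕ, ∃ C : Ordinal.{0}, m₀ ≤ m → ¬ {y : Ordinal.{0} | (o * (m : Ordinal.{0}) ≤ y ∧
      y < o * ((m + 1 : ℕ) : Ordinal.{0})) ∧ f y / o = C}.Countable := by
    intro m
    by_contra hno
    push Not at hno
    have hm := (hno 0).1
    refine hB m ?_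
    obtain ⟨h1, _⟩ := hcol m hm
    obtain ⟨_, d, hd, hd2⟩ := hcol (m + 1) (hm.trans (Nat.le_succ m))
    have h3 : ((fun t : Ordinal.{0} => o * (k : Ordinal.{0}) + t) '' Set.Iic d).Countable :=
      (countable_Iic_of_lt hd).image _
    refine (h3.biUnion fun C _ => (hno C).2).mono ?_
    rintro y ⟨hy1, hy2⟩
    have hylt : y < o * ω := hy2.trans (hY (m + 1))
    have h4 : o * (k : Ordinal.{0}) ≤ f y / o :=
      h1.trans (Ordinal.div_le_left (hfmono hy1 hylt) _)
    have h5 : f y / o ≤ o * k + d := by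
      rw [← hd2]
      exact Ordinal.div_le_left (hfmono hy2.le (hY (m + 1))) _
    refine Set.mem_biUnion (x := f y / o) ?_ ⟨⟨hy1, hy2⟩, rfl⟩
    refine ⟨f y / o - o * k, ?_, Ordinal.add_sub_cancel_of_le h4⟩
    exact Ordinal.sub_le.2 h5
  choose C hC using hC
  have hCne : ∀ m, m₀ ≤ m → ∃ y, o * (m : Ordinal.{0}) ≤ y ∧
      y < o * ((m + 1 : ℕ) : Ordinal.{0}) ∧ f y / o = C m := by
    intro m hm
    by_contra hno
    push Not at hno
    refine hC m hm ?_
    convert Set.countable_empty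
    ext y
    simp only [Set.mem_ofPred_eq, Set.mem_empty_iff_false, iff_false]
    rintro ⟨⟨h1, h2⟩, h3⟩
    exact hno y h1 h2 h3
  have hCmono : ∀ m, m₀ ≤ m → C m < C (m + 1) := by
    intro m hm
    obtain ⟨y', h1, h2, h3⟩ := hCne (m + 1) (hm.trans (Nat.le_succ m))
    have hy'lt : y' < o * ω := h2.trans (hY _)
    by_contra hno
    rw [not_lt] at hno
    refine hC m hm ?_
    have h4 : (Set.Iio (f y' % o)).Countable := countable_Iio_of_lt (Ordinal.mod_lt _ ho0)
    have h5 : ∀ y ∈ {y : Ordinal.{0} | (o * (m : Ordinal.{0}) ≤ y ∧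
        y < o * ((m + 1 : ℕ) : Ordinal.{0})) ∧ f y / o = C m},
        f y' / o = C m ∧ f y % o < f y' % o := by
      rintro y ⟨⟨hy1, hy2⟩, hy3⟩
      have hyy : f y < f y' := hf (hy2.trans (hY _)) hy'lt (hy2.trans_le h1)
      have h6 : C m ≤ f y' / o := by
        rw [← hy3]
        exact Ordinal.div_le_left hyy.le _
      have h7 : f y' / o = C m := le_antisymm (by rw [h3]; exact hno) h6
      refine ⟨h7, ?_⟩
      have e1 := Ordinal.div_add_mod (f y) o
      have e2 := Ordinal.div_add_mod (f y') o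
      rw [hy3] at e1
      rw [h7] at e2
      rw [← e1, ← e2] at hyy
      exact (add_lt_add_iff_left _).1 hyy
    refine Set.countable_of_injective_of_countable_image (f := fun y => f y % o) ?_
      (h4.mono ?_)
    · intro a ha b hb hab
      have e1 := Ordinal.div_add_mod (f a) o
      have e2 := Ordinal.div_add_mod (f b) o
      rw [ha.2] at e1
      rw [hb.2] at e2
      have h8 : f a = f b := by
        rw [← e1, ← e2]
        simp only at hab
        rw [hab]
      exact hf.injOn (ha.1.2.trans (hY _)) (hb.1.2.trans (hY _)) h8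
    · rintro _ ⟨y, hy, rfl⟩
      exact (h5 y hy).2
  refine ⟨fun j => C (m₀ + j), strictMono_nat_of_lt_succ fun j => ?_, fun j => ?_, fun j => ?_⟩
  · exact hCmono (m₀ + j) (Nat.le_add_right _ _)
  · obtain ⟨y, h1, h2, h3⟩ := hCne (m₀ + j) (Nat.le_add_right _ _)
    change C (m₀ + j) < o * n
    rw [← h3, ← Ordinal.lt_mul_iff_div_lt ho0]
    exact hlt y (h2.trans (hY _))
  · intro hc
    refine hC (m₀ + j) (Nat.le_add_right _ _) (hc.mono ?_)
    rintro y ⟨⟨h1, h2⟩, h3⟩
    exact ⟨h2.trans (hY _), h3⟩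

/-- CH implies `ω₁² · n ↛ (ω₁ · ω, 4)²` for every `n < ω`. -/
theorem not_arrow_nat (hCH : Cardinal.continuum.{0} = ℵ₁) (n : ℕ) :
    ¬ Arrow (ω_ 1 * (ω_ 1 * (n : Ordinal.{0}))) (ω_ 1 * ω) 4 := by
  classical
  intro hA
  set o : Ordinal.{0} := ω_ 1 with ho
  have ho0 : o ≠ 0 := omega1_ne
  obtain ⟨e, he⟩ := exists_e
  obtain ⟨Yf, hYf⟩ := exists_Yf hCH
  obtain ⟨F, hF⟩ := exists_graph hcount he Yf
  have hcard : (o * (n : Ordinal.{0})).card ≤ ℵ₁ := by
    rw [Ordinal.card_mul, ho, Ordinal.card_omega, Ordinal.card_nat]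
    calc (ℵ₁ : Cardinal.{0}) * (n : Cardinal.{0}) ≤ ℵ₁ * ℵ₁ := by
          gcongr
          exact (Cardinal.natCast_lt_aleph0.le).trans (Cardinal.aleph0_le_aleph 1)
      _ = ℵ₁ := Cardinal.mul_eq_self (Cardinal.aleph0_le_aleph 1)
  obtain ⟨φ, hφ⟩ := exists_injOn hcard
  obtain ⟨ψ, hψ⟩ := exists_injOn (o := o) (by rw [ho, Ordinal.card_omega])
  let π : Ordinal.{0} → I × I := fun x => (φ (x / o), ψ (x % o))
  rcases hA (fun x y => ¬ adj F (π x) (π y)) with ⟨f, h1, h2, h3⟩ | ⟨g, h1, h2, h3⟩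
  · obtain ⟨C, hC1, hC2, hC3⟩ := exists_columns h1 h2
    -- a subsequence along which the column numbers increase in `I`
    obtain ⟨s, hs | hs⟩ := exists_increasing_or_nonincreasing_subseq (· < ·) (fun m => φ (C m))
    swap
    · have hanti : ∀ m k, m < k → φ (C (s k)) < φ (C (s m)) := by
        intro m k hmk
        refine lt_of_le_of_ne (not_lt.1 (hs m k hmk)) ?_
        intro heq
        have h4 := hφ (hC2 _) (hC2 _) heq
        have h5 := s.injective (hC1.injective h4)
        exact hmk.ne' h5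
      exact (RelEmbedding.natGT (r := (· < ·)) (fun m => φ (C (s m)))
        (fun m => hanti m (m + 1) (Nat.lt_succ_self m))).not_wellFounded
          (wellFounded_lt (α := I))
    · have hsm : StrictMono (fun m => φ (C (s m))) := fun m k hmk => hs m k hmk
      obtain ⟨x, ⟨a, ha, rfl⟩, y, ⟨b, hb, rfl⟩, hxy⟩ := not_indep hcount hunc he hF hYf hsm
        (X := {x | ∃ y < o * ω, π (f y) = x}) (by
          intro m hc
          refine hC3 (s m) ?_
          refine Set.countable_of_injective_of_countable_image (f := fun y => ψ (f y % o)) ?_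
            (hc.mono ?_)
          · intro a ha b hb hab
            have h4 := hψ (Ordinal.mod_lt _ ho0) (Ordinal.mod_lt _ ho0) hab
            have e1 := Ordinal.div_add_mod (f a) o
            have e2 := Ordinal.div_add_mod (f b) o
            rw [ha.2, h4] at e1
            rw [hb.2] at e2
            exact h1.injOn ha.1 hb.1 (e1.symm.trans e2)
          · rintro _ ⟨y, hy, rfl⟩
            refine ⟨y, hy.1, ?_⟩
            change (φ (f y / o), ψ (f y % o)) = _
            rw [hy.2])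
      rcases lt_trichotomy a b with h | h | h
      · exact h3 a b h hb hxy
      · subst h
        exact level_ne hF hxy rfl
      · exact h3 b a h ha (adj_symm hxy)
  · refine no_four hF (fun i => π (g i)) ?_
    intro i j hij
    rcases lt_or_gt_of_ne hij with h | h
    · exact not_not.1 (h3 i j h)
    · exact adj_symm (not_not.1 (h3 j i h))

/-- CH implies `α ↛ (ω₁ · ω, 4)²` for every `α < ω₁² · ω`. -/
theorem not_arrow (hCH : Cardinal.continuum.{0} = ℵ₁) (α : Ordinal.{0})
    (hα : α < ω_ 1 * ω_ 1 * ω) : ¬ Arrow α (ω_ 1 * ω) 4 := by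
  rw [Ordinal.lt_mul_iff_of_isSuccLimit Ordinal.isSuccLimit_omega0] at hα
  obtain ⟨c, hc, hαc⟩ := hα
  obtain ⟨n, rfl⟩ := Ordinal.lt_omega0.1 hc
  rw [mul_assoc] at hαc
  intro hA
  exact not_arrow_nat hCH n (hA.mono hαc.le)

end Pool.Agent.H665R2.ColOrd
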