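import Mathlib

/-!
# Rayless graphs steered by finite sets of traps

`X` is a vertex set, `T` a linearly ordered set of traps `t` with sets `Z t`, `L z` is a finite
sorted list of traps for every vertex `z`, and `blk z` is the block of `z`.  By recursion on the
block every vertex gets a finite set of ancestors and a label `< 2 ^ (L z).length`.
-/

set_option autoImplicit false

namespace Pool.Agent.H665R2.PathTree

open Set

universe u v w

section Run

variable {X : Type u} {T : Type v}

/-- candidates for the next ancestor -/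
def cand (d : X → Set X × ℕ) (ok : X → Prop) (Z : T → Set X) (y : Option X) (m : ℕ) (t : T) :
    Set X :=
  {a | a ∈ Z t ∧ ok a ∧ (∀ w ∈ y, w ∈ (d a).1) ∧ m ≤ (d a).2}

open Classical in
/-- the steering procedure -/
noncomputable def run (d : X → Set X × ℕ) (ok : X → Prop) (Z : T → Set X) :
    List T → Option X → ℕ → ℕ → Option X × ℕ
  | [], y, lo, _ => (y, lo)
  | t :: l, y, lo, hi =>
    if h : (cand d ok Z y ((lo + hi) / 2) t).Nonempty then
      run d ok Z l (some h.some) lo (d h.some).2
    else run d ok Z l y ((lo + hi) / 2) hi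

/-- ancestors and label from the result of the procedure -/
def res (d : X → Set X × ℕ) (r : Option X × ℕ) : Set X × ℕ :=
  ({w | ∃ y ∈ r.1, w = y ∨ w ∈ (d y).1}, r.2)

lemma cand_congr {d d' : X → Set X × ℕ} {ok : X → Prop} (h : ∀ a, ok a → d a = d' a)
    (Z : T → Set X) (y : Option X) (m : ℕ) (t : T) : cand d ok Z y m t = cand d' ok Z y m t := by
  ext a
  simp only [cand, mem_ofPred_eq]
  constructor
  · rintro ⟨h1, h2, h3⟩
    rw [h a h2] at h3
    exact ⟨h1, h2, h3⟩
  · rintro ⟨h1, h2, h3⟩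
    rw [← h a h2] at h3
    exact ⟨h1, h2, h3⟩

lemma run_congr {d d' : X → Set X × ℕ} {ok : X → Prop} (h : ∀ a, ok a → d a = d' a)
    (Z : T → Set X) (l : List T) : ∀ (y : Option X) (lo hi : ℕ),
      run d ok Z l y lo hi = run d' ok Z l y lo hi := by
  induction l with
  | nil => intro y lo hi; rfl
  | cons t l ih =>
    intro y lo hi
    have hc := cand_congr h Z y ((lo + hi) / 2) t
    simp only [run]
    by_cases hn : (cand d ok Z y ((lo + hi) / 2) t).Nonempty
    · have hn' : (cand d' ok Z y ((lo + hi) / 2) t).Nonempty := hc ▸ hn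
      have hs : hn.some = hn'.some := by
        congr 1
      rw [dif_pos hn, dif_pos hn', ih, hs, h hn'.some hn'.some_mem.2.1]
    · have hn' : ¬ (cand d' ok Z y ((lo + hi) / 2) t).Nonempty := hc ▸ hn
      rw [dif_neg hn, dif_neg hn', ih]

/-- Basic specification: the label stays in the window, and the current ancestor is fine. -/
lemma run_spec (d : X → Set X × ℕ) (ok : X → Prop) (Z : T → Set X) (M : ℕ)
    (hM : ∀ a, ok a → (d a).2 < M) (hanc : ∀ a, ok a → ∀ w ∈ (d a).1, (d a).2 < (d w).2)
    (l : List T) :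
    ∀ (y : Option X) (lo hi : ℕ), lo + 2 ^ l.length ≤ hi → (∀ w ∈ y, ok w ∧ (d w).2 = hi) →
      (y = none → M ≤ hi) →
      lo ≤ (run d ok Z l y lo hi).2 ∧ (run d ok Z l y lo hi).2 < hi ∧
        ∀ w ∈ (run d ok Z l y lo hi).1, ok w ∧ (run d ok Z l y lo hi).2 < (d w).2 := by
  induction l with
  | nil =>
    intro y lo hi h1 h2 h3
    simp only [run]
    simp only [List.length_nil, pow_zero] at h1
    refine ⟨le_refl _, by omega, ?_⟩
    intro w hw
    refine ⟨(h2 w hw).1, ?_⟩
    rw [(h2 w hw).2]; omega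
  | cons t l ih =>
    intro y lo hi h1 h2 h3
    simp only [List.length_cons, pow_succ] at h1
    simp only [run]
    by_cases hn : (cand d ok Z y ((lo + hi) / 2) t).Nonempty
    · rw [dif_pos hn]
      obtain ⟨a1, a2, a3, a4⟩ := hn.some_mem
      have h4 : lo + 2 ^ l.length ≤ (d hn.some).2 := by omega
      obtain ⟨b1, b2, b3⟩ := ih (some hn.some) lo (d hn.some).2 h4 (by
        intro w hw
        simp only [Option.mem_def, Option.some.injEq] at hw
        subst hw
        exact ⟨a2, rfl⟩) (by intro h; cases h)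
      refine ⟨b1, ?_, b3⟩
      have h5 : (d hn.some).2 < hi := by
        cases y with
        | none => exact lt_of_lt_of_le (hM _ a2) (h3 rfl)
        | some w =>
          exact lt_of_lt_of_eq (hanc _ a2 w (a3 w rfl)) (h2 w rfl).2
      omega
    · rw [dif_neg hn]
      obtain ⟨b1, b2, b3⟩ := ih y ((lo + hi) / 2) hi (by omega) h2 h3
      exact ⟨by omega, b2, b3⟩

/-- The ancestors are kept. -/
lemma run_reach (d : X → Set X × ℕ) (ok : X → Prop) (Z : T → Set X)
    (htr : ∀ a b c : X, b ∈ (d a).1 → c ∈ (d b).1 → c ∈ (d a).1)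
    (l : List T) :
    ∀ (y : Option X) (lo hi : ℕ), ∀ w ∈ y, ∃ w' ∈ (run d ok Z l y lo hi).1, w = w' ∨ w ∈ (d w').1 := by
  induction l with
  | nil =>
    intro y lo hi w hw
    exact ⟨w, hw, Or.inl rfl⟩
  | cons t l ih =>
    intro y lo hi w hw
    simp only [run]
    by_cases hn : (cand d ok Z y ((lo + hi) / 2) t).Nonempty
    · rw [dif_pos hn]
      obtain ⟨a1, a2, a3, a4⟩ := hn.some_mem
      obtain ⟨w', hw', h⟩ := ih (some hn.some) lo (d hn.some).2 hn.some rfl
      refine ⟨w', hw', Or.inr ?_⟩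
      have h1 : w ∈ (d hn.some).1 := a3 w hw
      rcases h with h | h
      · rw [← h]; exact h1
      · exact htr _ _ _ h h1
    · rw [dif_neg hn]
      exact ih y _ _ w hw

/-- The kill lemma.  `N t` grows with `t`, the list is sorted, the trap `t` belongs to the list,
`Q` is the set of possible ancestors with the witness property. -/
lemma run_kill [LinearOrder T] (d : X → Set X × ℕ) (ok : X → Prop) (Z : T → Set X)
    (N : T → Set X) (hN : ∀ t t' : T, t ≤ t' → N t ⊆ N t') (hZN : ∀ t, Z t ⊆ N t) (M : ℕ)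
    (hM : ∀ a, ok a → (d a).2 < M) (hanc : ∀ a, ok a → ∀ w ∈ (d a).1, (d a).2 < (d w).2)
    (htr : ∀ a b c : X, b ∈ (d a).1 → c ∈ (d b).1 → c ∈ (d a).1) (t : T) (r : Option X × ℕ)
    (hr : ∀ a ∈ Z t, ∀ w ∈ r.1, ¬ (a = w ∨ a ∈ (d w).1))
    (hw : ∀ (y : Option X) (m : ℕ), (∀ w ∈ y, w ∈ N t) → (∀ w ∈ y, ∃ w' ∈ r.1, w = w' ∨ w ∈ (d w').1) →
      m ≤ r.2 → ∃ a ∈ Z t, ok a ∧ (∀ w ∈ y, w ∈ (d a).1) ∧ m ≤ (d a).2)
    (l : List T) :
    ∀ (y : Option X) (lo hi : ℕ), t ∈ l → l.Pairwise (· ≤ ·) → (∀ w ∈ y, w ∈ N t) →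
      lo + 2 ^ l.length ≤ hi → (∀ w ∈ y, ok w ∧ (d w).2 = hi) →
      (y = none → M ≤ hi) →
      run d ok Z l y lo hi = r → False := by
  induction l with
  | nil =>
    intro y lo hi h
    simp at h
  | cons t' l ih =>
    intro y lo hi ht hs hy h1 h2 h3 he
    simp only [List.length_cons, pow_succ] at h1
    simp only [run] at he
    have hle : t' ≤ t := by
      rcases List.mem_cons.1 ht with h | h
      · exact h ▸ le_refl _
      · exact (List.pairwise_cons.1 hs).1 t h
    by_cases hn : (cand d ok Z y ((lo + hi) / 2) t').Nonempty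
    · rw [dif_pos hn] at he
      obtain ⟨a1, a2, a3, a4⟩ := hn.some_mem
      have hs1 : ∀ w ∈ some hn.some, ok w ∧ (d w).2 = (d hn.some).2 := by
        intro w hw
        simp only [Option.mem_def, Option.some.injEq] at hw
        subst hw
        exact ⟨a2, rfl⟩
      rcases List.mem_cons.1 ht with h | h
      · -- the trap is processed now and succeeds
        subst h
        obtain ⟨w', hw', h'⟩ := run_reach d ok Z htr l (some hn.some) lo (d hn.some).2 hn.some rfl
        rw [he] at hw'
        exact hr _ a1 w' hw' h'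
      · refine ih (some hn.some) lo (d hn.some).2 h (List.pairwise_cons.1 hs).2 ?_ (by omega) hs1
          (by intro h; cases h) he
        intro w hw
        simp only [Option.mem_def, Option.some.injEq] at hw
        subst hw
        exact hN _ _ hle (hZN _ a1)
    · rw [dif_neg hn] at he
      rcases List.mem_cons.1 ht with h | h
      · subst h
        apply hn
        have hsp := run_spec d ok Z M hM hanc l y ((lo + hi) / 2) hi (by omega) h2 h3
        rw [he] at hsp
        obtain ⟨a, b1, b2, b3, b4⟩ := hw y ((lo + hi) / 2) hy (by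
          intro w hw
          obtain ⟨w', hw', h'⟩ := run_reach d ok Z htr l y ((lo + hi) / 2) hi w hw
          rw [he] at hw'
          exact ⟨w', hw', h'⟩) hsp.1
        exact ⟨a, b1, b2, b3, b4⟩
      · exact ih y _ _ h (List.pairwise_cons.1 hs).2 hy (by omega) h2 h3 he

end Run

section Dat

variable {X : Type u} {T : Type v} {K : Type w} [LinearOrder K] [WellFoundedLT K]

/-- admissible ancestors of `z` -/
def okz (blk : X → K) (L : X → List T) (z : X) : X → Prop :=
  fun a => blk a < blk z ∧ (L a).length = (L z).length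

open Classical in
/-- extension by a default value -/
noncomputable def ext (blk : X → K) (z : X) (prev : ∀ a, blk a < blk z → Set X × ℕ) :
    X → Set X × ℕ :=
  fun a => if h : blk a < blk z then prev a h else (∅, 0)

/-- ancestors and labels, by recursion on the block -/
noncomputable def dat (blk : X → K) (Z : T → Set X) (L : X → List T) : X → Set X × ℕ :=
  WellFounded.fix (InvImage.wf blk (wellFounded_lt (α := K))) fun z prev =>
    res (ext blk z prev) (run (ext blk z prev) (okz blk L z) Z (L z) none 0 (2 ^ (L z).length))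

/-- the result of the procedure at `z` -/
noncomputable def rz (blk : X → K) (Z : T → Set X) (L : X → List T) (z : X) : Option X × ℕ :=
  run (dat blk Z L) (okz blk L z) Z (L z) none 0 (2 ^ (L z).length)

omit [WellFoundedLT K] in
lemma run_ok {X : Type u} {T : Type v} (d : X → Set X × ℕ) (ok : X → Prop) (Z : T → Set X)
    (l : List T) : ∀ (y : Option X) (lo hi : ℕ), (∀ w ∈ y, ok w) →
      ∀ w ∈ (run d ok Z l y lo hi).1, ok w := by
  induction l with
  | nil =>
    intro y lo hi hy w hw
    exact hy w hw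
  | cons t l ih =>
    intro y lo hi hy
    simp only [run]
    by_cases hn : (cand d ok Z y ((lo + hi) / 2) t).Nonempty
    · rw [dif_pos hn]
      apply ih
      intro w hw
      simp only [Option.mem_def, Option.some.injEq] at hw
      subst hw
      exact hn.some_mem.2.1
    · rw [dif_neg hn]
      exact ih y _ _ hy

variable (blk : X → K) (Z : T → Set X) (L : X → List T)

lemma rz_ok (z : X) : ∀ w ∈ (rz blk Z L z).1, okz blk L z w := by
  apply run_ok
  intro w hw
  cases hw

lemma dat_eq (z : X) : dat blk Z L z = res (dat blk Z L) (rz blk Z L z) := by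
  have h0 : dat blk Z L z = res (ext blk z (fun a _ => dat blk Z L a))
      (run (ext blk z (fun a _ => dat blk Z L a)) (okz blk L z) Z (L z) none 0
        (2 ^ (L z).length)) := by
    conv_lhs => rw [dat, WellFounded.fix_eq]
    rfl
  have h1 : ∀ a, okz blk L z a → ext blk z (fun a _ => dat blk Z L a) a = dat blk Z L a := by
    intro a ha
    simp only [ext]
    rw [dif_pos ha.1]
  rw [run_congr h1 Z (L z)] at h0
  rw [h0]
  change res _ (rz blk Z L z) = _
  simp only [res]
  congr 1
  ext w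
  simp only [mem_ofPred_eq]
  constructor
  · rintro ⟨y, hy, h⟩
    rw [h1 y (rz_ok blk Z L z y hy)] at h
    exact ⟨y, hy, h⟩
  · rintro ⟨y, hy, h⟩
    rw [← h1 y (rz_ok blk Z L z y hy)] at h
    exact ⟨y, hy, h⟩

lemma mem_anc {z w : X} : w ∈ (dat blk Z L z).1 ↔
    ∃ y ∈ (rz blk Z L z).1, w = y ∨ w ∈ (dat blk Z L y).1 := by
  conv_lhs => rw [dat_eq]
  rfl

lemma lab_eq (z : X) : (dat blk Z L z).2 = (rz blk Z L z).2 := by
  conv_lhs => rw [dat_eq]
  rfl

/-- invariants -/
structure Inv (z : X) : Prop where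
  lt : (dat blk Z L z).2 < 2 ^ (L z).length
  anc : ∀ w ∈ (dat blk Z L z).1, blk w < blk z ∧ (L w).length = (L z).length ∧
    (dat blk Z L z).2 < (dat blk Z L w).2
  tr : ∀ w ∈ (dat blk Z L z).1, ∀ c ∈ (dat blk Z L w).1, c ∈ (dat blk Z L z).1
  chain : ∀ w ∈ (dat blk Z L z).1, ∀ v ∈ (dat blk Z L z).1,
    w = v ∨ w ∈ (dat blk Z L v).1 ∨ v ∈ (dat blk Z L w).1

lemma spec_of (z : X) (h : ∀ a, blk a < blk z → Inv blk Z L a) :
    (rz blk Z L z).2 < 2 ^ (L z).length ∧
        ∀ w ∈ (rz blk Z L z).1, okz blk L z w ∧ (rz blk Z L z).2 < (dat blk Z L w).2 := by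
  have := run_spec (dat blk Z L) (okz blk L z) Z (2 ^ (L z).length)
    (fun a ha => by rw [← ha.2]; exact (h a ha.1).lt)
    (fun a ha w hw => ((h a ha.1).anc w hw).2.2) (L z) none 0 (2 ^ (L z).length) (by omega)
    (by intro w hw; cases hw) (fun _ => le_refl _)
  exact this.2

lemma inv (z : X) : Inv blk Z L z := by
  induction z using (InvImage.wf blk (wellFounded_lt (α := K))).induction with
  | _ z ih =>
    have ih' : ∀ a, blk a < blk z → Inv blk Z L a := ih
    obtain ⟨h1, h2⟩ := spec_of blk Z L z ih'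
    refine ⟨by rw [lab_eq]; exact h1, ?_, ?_, ?_⟩
    · intro w hw
      obtain ⟨y, hy, h⟩ := (mem_anc blk Z L).1 hw
      obtain ⟨h3, h4⟩ := h2 y hy
      rcases h with rfl | h
      · exact ⟨h3.1, h3.2, by rw [lab_eq]; exact h4⟩
      · have h5 := (ih' y h3.1).anc w h
        refine ⟨h5.1.trans h3.1, h5.2.1.trans h3.2, ?_⟩
        rw [lab_eq]
        exact h4.trans h5.2.2
    · intro w hw c hc
      obtain ⟨y, hy, h⟩ := (mem_anc blk Z L).1 hw
      obtain ⟨h3, h4⟩ := h2 y hy
      rw [mem_anc]
      refine ⟨y, hy, Or.inr ?_⟩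
      rcases h with rfl | h
      · exact hc
      · exact (ih' y h3.1).tr w h c hc
    · intro w hw v hv
      obtain ⟨y, hy, h⟩ := (mem_anc blk Z L).1 hw
      obtain ⟨y', hy', h'⟩ := (mem_anc blk Z L).1 hv
      have hyy : y = y' := by
        rw [Option.mem_def] at hy hy'
        rw [hy] at hy'
        exact Option.some.inj hy'
      subst hyy
      obtain ⟨h3, h4⟩ := h2 y hy
      rcases h with rfl | h <;> rcases h' with rfl | h'
      · exact Or.inl rfl
      · exact Or.inr (Or.inr h')
      · exact Or.inr (Or.inl h)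
      · exact (ih' y h3.1).chain w h v h'

/-- the graph -/
def gr : SimpleGraph X where
  Adj u v := u ∈ (dat blk Z L v).1 ∨ v ∈ (dat blk Z L u).1
  symm := ⟨fun u v h => h.symm⟩
  loopless := ⟨fun u h => by
    have h' : u ∈ (dat blk Z L u).1 := by
      rcases h with h | h <;> exact h
    exact lt_irrefl _ ((inv blk Z L u).anc u h').1⟩

lemma gr_adj {u v : X} : (gr blk Z L).Adj u v ↔
    u ∈ (dat blk Z L v).1 ∨ v ∈ (dat blk Z L u).1 := Iff.rfl

/-- being the ancestor-or-self with label `m` is inherited along edges with labels `≤ m` -/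
lemma anc_iff {u v : X} {m : ℕ} (hu : (dat blk Z L u).2 ≤ m)
    (h : u ∈ (dat blk Z L v).1) (w : X) :
    ((w = u ∨ w ∈ (dat blk Z L u).1) ∧ (dat blk Z L w).2 = m) ↔
    ((w = v ∨ w ∈ (dat blk Z L v).1) ∧ (dat blk Z L w).2 = m) := by
  constructor
  · rintro ⟨h1, h2⟩
    refine ⟨Or.inr ?_, h2⟩
    rcases h1 with rfl | h1
    · exact h
    · exact (inv blk Z L v).tr u h w h1
  · rintro ⟨h1, h2⟩
    refine ⟨?_, h2⟩
    have h3 := ((inv blk Z L v).anc u h).2.2
    rcases h1 with rfl | h1
    · omega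
    · rcases (inv blk Z L v).chain w h1 u h with h4 | h4 | h4
      · exact Or.inl h4
      · exact Or.inr h4
      · have := ((inv blk Z L w).anc u h4).2.2
        omega

lemma no_ray_aux (m : ℕ) : ∀ v : ℕ → X, Function.Injective v →
    (∀ k, (gr blk Z L).Adj (v k) (v (k + 1))) → (∀ k, (dat blk Z L (v k)).2 < m) → False := by
  induction m with
  | zero => intro v _ _ h; exact absurd (h 0) (Nat.not_lt_zero _)
  | succ m ih =>
    intro v hv hadj hlt
    have key : ∀ k w, ((w = v k ∨ w ∈ (dat blk Z L (v k)).1) ∧ (dat blk Z L w).2 = m) ↔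
        ((w = v (k + 1) ∨ w ∈ (dat blk Z L (v (k + 1))).1) ∧ (dat blk Z L w).2 = m) := by
      intro k w
      rcases hadj k with h | h
      · exact anc_iff blk Z L (Nat.lt_succ_iff.1 (hlt k)) h w
      · exact (anc_iff blk Z L (Nat.lt_succ_iff.1 (hlt (k + 1))) h w).symm
    have key' : ∀ k j w, ((w = v k ∨ w ∈ (dat blk Z L (v k)).1) ∧ (dat blk Z L w).2 = m) ↔
        ((w = v (k + j) ∨ w ∈ (dat blk Z L (v (k + j))).1) ∧ (dat blk Z L w).2 = m) := by
      intro k j w
      induction j with
      | zero => exact Iff.rfl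
      | succ j ihj => exact ihj.trans (key (k + j) w)
    by_cases hex : ∃ k, (dat blk Z L (v k)).2 = m
    · obtain ⟨k, hk⟩ := hex
      refine ih (fun j => v (k + 1 + j)) ?_ ?_ ?_
      · intro i j hij
        have := hv hij
        omega
      · intro j
        exact hadj (k + 1 + j)
      · intro j
        refine lt_of_le_of_ne (Nat.lt_succ_iff.1 (hlt _)) ?_
        intro he
        -- `v k` is an ancestor-or-self of `v (k + 1 + j)` with the same label
        have h1 := (key' k (1 + j) (v k)).1 ⟨Or.inl rfl, hk⟩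
        rw [← add_assoc] at h1
        rcases h1.1 with h2 | h2
        · have := hv h2
          omega
        · have := ((inv blk Z L _).anc _ h2).2.2
          omega
    · push Not at hex
      exact ih v hv hadj (fun k => lt_of_le_of_ne (Nat.lt_succ_iff.1 (hlt k)) (hex k))

/-- The graph has no infinite path. -/
theorem no_ray (v : ℕ → X) (hv : Function.Injective v)
    (hadj : ∀ k, (gr blk Z L).Adj (v k) (v (k + 1))) : False := by
  have hcls : ∀ k, (L (v k)).length = (L (v 0)).length := by
    intro k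
    induction k with
    | zero => rfl
    | succ k ih =>
      rw [← ih]
      rcases hadj k with h | h
      · exact ((inv blk Z L _).anc _ h).2.1.symm
      · exact ((inv blk Z L _).anc _ h).2.1
  refine no_ray_aux blk Z L (2 ^ (L (v 0)).length) v hv hadj ?_
  intro k
  rw [← hcls k]
  exact (inv blk Z L (v k)).lt

/-- Killing: an independent set `A` with a closed trap `t`, `Z t = A ∩ N t`. -/
theorem kill [LinearOrder T] (N : T → Set X) (hN : ∀ t t' : T, t ≤ t' → N t ⊆ N t')
    (hZN : ∀ t, Z t ⊆ N t) (hL : ∀ z, (L z).Pairwise (· ≤ ·)) (A : Set X)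
    (hA : ∀ a ∈ A, ∀ b ∈ A, ¬ (gr blk Z L).Adj a b) (t : T) (hZA : Z t = A ∩ N t)
    (hclosed : ∀ (y : Option X) (n m : ℕ), (∀ w ∈ y, w ∈ N t) →
      (∃ a ∈ A, (L a).length = n ∧ (∀ w ∈ y, w ∈ (dat blk Z L a).1) ∧ m ≤ (dat blk Z L a).2) →
      ∃ a ∈ Z t, (L a).length = n ∧ (∀ w ∈ y, w ∈ (dat blk Z L a).1) ∧ m ≤ (dat blk Z L a).2)
    (z : X) (hz : z ∈ A) (hb : ∀ a ∈ Z t, blk a < blk z) : t ∉ L z := by
  intro ht
  refine run_kill (dat blk Z L) (okz blk L z) Z N hN hZN (2 ^ (L z).length)
    (fun a ha => by rw [← ha.2]; exact (inv blk Z L a).lt)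
    (fun a _ w hw => ((inv blk Z L a).anc w hw).2.2)
    (fun a b c hb hc => (inv blk Z L a).tr b hb c hc) t (rz blk Z L z) ?_ ?_ (L z) none 0
    (2 ^ (L z).length) ht (hL z) (by intro w hw; cases hw) (by omega)
    (by intro w hw; cases hw) (fun _ => le_refl _) rfl
  · intro a ha w hw h
    have h1 : a ∈ (dat blk Z L z).1 := (mem_anc blk Z L).2 ⟨w, hw, h⟩
    rw [hZA] at ha
    exact hA a ha.1 z hz (Or.inl h1)
  · intro y m hy1 hy2 hm
    obtain ⟨a, h1, h2, h3, h4⟩ := hclosed y (L z).length m hy1 ⟨z, hz, rfl, by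
      intro w hw
      obtain ⟨w', hw', h⟩ := hy2 w hw
      exact (mem_anc blk Z L).2 ⟨w', hw', h⟩, by rw [lab_eq]; exact hm⟩
    exact ⟨a, h1, ⟨hb a h1, h2⟩, h3, h4⟩

end Dat

end Pool.Agent.H665R2.PathTree
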