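import Mathlib
import Pool.Agent.H665R2.PathTree

set_option autoImplicit false

namespace Pool.Agent.H665R2.PathTree

open Set Cardinal

universe u

section Reg

variable {I : Type u} [LinearOrder I] {κ : Cardinal.{u}}

lemma bdd_of_lt (hκ : κ.IsRegular) (hI : #I = κ) (hIio : ∀ i : I, #(Set.Iio i) < κ) (S : Set I)
    (hS : #S < κ) : ∃ b, ∀ s ∈ S, s < b := by
  by_contra hcon
  push Not at hcon
  have h1 : (Set.univ : Set I) ⊆ ⋃ s ∈ S, Set.Iic s := by
    intro b _
    obtain ⟨s, hs, hb⟩ := hcon b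
    simp only [Set.mem_iUnion]
    exact ⟨s, hs, hb⟩
  have h2 : #(⋃ s ∈ S, Set.Iic s : Set I) < κ := by
    rw [card_biUnion_lt_iff_forall_of_isRegular hκ hS]
    intro a _
    have : Set.Iic a = insert a (Set.Iio a) := by
      ext x
      simp [le_iff_lt_or_eq, or_comm]
    rw [this]
    exact lt_of_le_of_lt Cardinal.mk_insert_le (Cardinal.add_lt_of_lt hκ.aleph0_le (hIio a)
      (lt_of_lt_of_le Cardinal.one_lt_aleph0 hκ.aleph0_le))
  have h3 := (Cardinal.mk_le_mk_of_subset h1).trans_lt h2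
  rw [Cardinal.mk_univ, hI] at h3
  exact lt_irrefl _ h3

lemma mk_fiber_lt {X : Type u} (g : X → I) (hg : Function.Injective g)
    (hIio : ∀ i : I, #(Set.Iio i) < κ) (δ : I) : #{z : X | g z < δ} < κ := by
  refine lt_of_le_of_lt ?_ (hIio δ)
  refine Cardinal.mk_le_of_injective (f := fun z : {z : X | g z < δ} => (⟨g z.1, z.2⟩ : Set.Iio δ)) ?_
  intro a b hab
  exact Subtype.ext (hg (congrArg Subtype.val hab))

lemma exists_closed [WellFoundedLT I] {X : Type u} (hκ : κ.IsRegular) (hκ0 : ℵ₀ < κ) (hI : #I = κ)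
    (hIio : ∀ i : I, #(Set.Iio i) < κ) (g : X → I) (hg : Function.Injective g)
    (C : Option X → ℕ → ℕ → I) :
    ∃ δ : I, ∀ (y : Option X) (n m : ℕ), (∀ w ∈ y, g w < δ) → C y n m < δ := by
  have step : ∀ δ : I, ∃ δ', δ < δ' ∧ ∀ (y : Option X) (n m : ℕ), (∀ w ∈ y, g w < δ) →
      C y n m < δ' := by
    intro δ
    let F : Option {z : X | g z < δ} × ℕ × ℕ → I := fun p => C (p.1.map Subtype.val) p.2.1 p.2.2
    have h1 : #(Option {z : X | g z < δ} × ℕ × ℕ) < κ := by
      simp only [Cardinal.mk_prod, Cardinal.mk_option, Cardinal.lift_uzero, Cardinal.mk_nat,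
        Cardinal.lift_mul, Cardinal.lift_aleph0]
      refine Cardinal.mul_lt_of_lt hκ.aleph0_le ?_ ?_
      · exact Cardinal.add_lt_of_lt hκ.aleph0_le (mk_fiber_lt g hg hIio δ)
          (lt_of_lt_of_le Cardinal.one_lt_aleph0 hκ.aleph0_le)
      · simpa using hκ0
    have h2 : #(Set.range F) < κ := lt_of_le_of_lt Cardinal.mk_range_le h1
    obtain ⟨b, hb⟩ := bdd_of_lt hκ hI hIio (insert δ (Set.range F))
      (lt_of_le_of_lt Cardinal.mk_insert_le (Cardinal.add_lt_of_lt hκ.aleph0_le h2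
      (lt_of_lt_of_le Cardinal.one_lt_aleph0 hκ.aleph0_le)))
    refine ⟨b, hb δ (Set.mem_insert _ _), ?_⟩
    intro y n m hy
    cases y with
    | none => exact hb _ (Set.mem_insert_of_mem _ ⟨(none, n, m), rfl⟩)
    | some w => exact hb _ (Set.mem_insert_of_mem _ ⟨(some ⟨w, hy w rfl⟩, n, m), rfl⟩)
  choose nx hnx1 hnx2 using step
  have hne : Nonempty I := by
    rw [← Cardinal.mk_ne_zero_iff, hI]
    exact (lt_of_le_of_lt (zero_le) hκ0).ne'
  obtain ⟨δ0⟩ := hne
  let s : ℕ → I := fun n => nx^[n] δ0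
  have hs : ∀ n, s (n + 1) = nx (s n) := fun n => Function.iterate_succ_apply' nx n δ0
  have hbd : ∃ b, ∀ n, s n < b := by
    have h3 : #(Set.range s) < κ := by
      refine lt_of_le_of_lt ?_ hκ0
      exact Set.countable_range s |>.le_aleph0
    obtain ⟨b, hb⟩ := bdd_of_lt hκ hI hIio (Set.range s) h3
    exact ⟨b, fun n => hb _ ⟨n, rfl⟩⟩
  let δ : I := WellFounded.min (wellFounded_lt (α := I)) {b | ∀ n, s n < b} hbd
  have hδ : ∀ n, s n < δ := WellFounded.min_mem (wellFounded_lt (α := I)) {b | ∀ n, s n < b} hbd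
  have hmin : ∀ b, b < δ → ∃ n, b < s n := by
    intro b hb
    have h4 : ¬ ∀ n, s n < b := fun h5 =>
      WellFounded.not_lt_min (wellFounded_lt (α := I)) (s := {b | ∀ n, s n < b}) h5 hb
    push Not at h4
    obtain ⟨n, hn⟩ := h4
    exact ⟨n + 1, lt_of_le_of_lt hn (by rw [hs]; exact hnx1 _)⟩
  refine ⟨δ, ?_⟩
  intro y n m hy
  cases y with
  | none =>
    refine lt_trans (hnx2 (s 0) none n m (by intro w hw; cases hw)) ?_
    rw [← hs]; exact hδ _
  | some w =>
    obtain ⟨k, hk⟩ := hmin (g w) (hy w rfl)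
    refine lt_trans (hnx2 (s k) (some w) n m ?_) ?_
    · intro w' hw'
      simp only [Option.mem_def, Option.some.injEq] at hw'
      subst hw'
      exact hk
    · rw [← hs]; exact hδ _

/-- An injection which is everywhere larger than a given function. -/
lemma exists_inj_gt {T : Type u} (hκ : κ.IsRegular) (hI : #I = κ)
    (hIio : ∀ i : I, #(Set.Iio i) < κ) (hT : #T ≤ κ) (h : T → I) :
    ∃ idx : T → I, Function.Injective idx ∧ ∀ t, h t < idx t := by
  obtain ⟨j, hj⟩ : ∃ j : T → I, Function.Injective j := by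
    rw [← hI] at hT
    obtain ⟨e⟩ := hT
    exact ⟨e, e.injective⟩
  have h1 : #(I × I) = #I := by
    rw [Cardinal.mk_prod, Cardinal.lift_id, Cardinal.mul_eq_self]
    rw [hI]; exact hκ.aleph0_le
  obtain ⟨p⟩ := Cardinal.eq.1 h1
  have h2 : ∀ t : T, ∃ i : I, h t < p (j t, i) := by
    intro t
    by_contra hcon
    push Not at hcon
    have h3 : #(Set.Iic (h t)) < κ := by
      have : Set.Iic (h t) = insert (h t) (Set.Iio (h t)) := by
        ext x
        simp [le_iff_lt_or_eq, or_comm]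
      rw [this]
      exact lt_of_le_of_lt Cardinal.mk_insert_le (Cardinal.add_lt_of_lt hκ.aleph0_le (hIio _)
        (lt_of_lt_of_le Cardinal.one_lt_aleph0 hκ.aleph0_le))
    have h4 : #I ≤ #(Set.Iic (h t)) := by
      refine Cardinal.mk_le_of_injective (f := fun i : I => (⟨p (j t, i), hcon i⟩ : Set.Iic (h t))) ?_
      intro a b hab
      have := p.injective (congrArg Subtype.val hab)
      exact (Prod.mk.inj this).2
    rw [hI] at h4
    exact absurd h3 (not_lt.2 h4)
  choose i hi using h2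
  refine ⟨fun t => p (j t, i t), ?_, hi⟩
  intro a b hab
  exact hj (Prod.mk.inj (p.injective hab)).1

end Reg

open Classical in
/-- **Main construction.**  If `κ` is regular, uncountable and `2 ^ l ≤ κ` for all `l < κ`, then for
every assignment `φ` of finite sets of indices `< κ` to at most `κ` vertices there is a graph
without infinite path, every independent set of which is contained in one of the sets
`{x | t ∉ φ x}`. -/
theorem exists_graph {X I : Type u} [LinearOrder I] [WellFoundedLT I] {κ : Cardinal.{u}}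
    (hκ : κ.IsRegular) (hκ0 : ℵ₀ < κ) (hpow : ∀ l < κ, (2 : Cardinal.{u}) ^ l ≤ κ) (hI : #I = κ)
    (hIio : ∀ i : I, #(Set.Iio i) < κ) (hX : #X ≤ κ) (φ : X → Finset I) :
    ∃ G : SimpleGraph X,
      (∀ v : ℕ → X, Function.Injective v → (∀ n, G.Adj (v n) (v (n + 1))) → False) ∧
      ∀ A : Set X, (∀ a ∈ A, ∀ b ∈ A, ¬ G.Adj a b) →
        ∃ t : I, ∀ x ∈ A, t ∉ φ x := by
  -- the index of a vertex
  obtain ⟨g, hg⟩ : ∃ g : X → I, Function.Injective g := by
    rw [← hI] at hX
    obtain ⟨e⟩ := hX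
    exact ⟨e, e.injective⟩
  have hne : Nonempty I := by
    rw [← Cardinal.mk_ne_zero_iff, hI]
    exact (lt_of_le_of_lt (zero_le) hκ0).ne'
  -- enumeration of the subsets of `{z | g z < δ}`
  have hen : ∀ δ : I, ∃ en : I → Set X, ∀ B : Set X, B ⊆ {z | g z < δ} → ∃ ζ, en ζ = B := by
    intro δ
    have h1 : #(Set {z : X | g z < δ}) ≤ #I := by
      rw [Cardinal.mk_set, hI]
      exact hpow _ (mk_fiber_lt g hg hIio δ)
    obtain ⟨e⟩ := h1
    have hinj : Function.Injective (fun B : Set {z : X | g z < δ} => e B) := e.injective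
    refine ⟨fun ζ => Subtype.val '' (Function.invFun (fun B : Set {z : X | g z < δ} => e B) ζ), ?_⟩
    intro B hB
    refine ⟨e (Subtype.val ⁻¹' B), ?_⟩
    have h2 : Function.invFun (fun B : Set {z : X | g z < δ} => e B) (e (Subtype.val ⁻¹' B)) =
        Subtype.val ⁻¹' B := Function.leftInverse_invFun hinj (Subtype.val ⁻¹' B)
    beta_reduce
    rw [h2, Set.image_preimage_eq_inter_range]
    ext z
    simp only [Set.mem_inter_iff, Subtype.range_coe_subtype, Set.mem_ofPred_eq]
    exact ⟨fun h => h.1, fun h => ⟨h, hB h⟩⟩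
  choose en hen using hen
  -- the traps
  let T := I ×ₗ I
  let N : T → Set X := fun t => {z | g z < (ofLex t).1}
  let Z : T → Set X := fun t => en (ofLex t).1 (ofLex t).2 ∩ N t
  have hTI : #T ≤ #I := by
    have h1 : #T = #I * #I := by
      change #(I × I) = _
      rw [Cardinal.mk_prod, Cardinal.lift_id]
    rw [h1, Cardinal.mul_eq_self]
    rw [hI]; exact hκ.aleph0_le
  -- bound for the blocks
  have hbd : ∀ δ : I, ∃ t' : I, ∀ s ∈ ⋃ a ∈ {z | g z < δ}, (φ a : Set I), s < t' := by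
    intro δ
    apply bdd_of_lt hκ hI hIio
    rw [card_biUnion_lt_iff_forall_of_isRegular hκ (mk_fiber_lt g hg hIio δ)]
    intro a _
    exact lt_of_le_of_lt (Finset.countable_toSet (φ a)).le_aleph0 hκ0
  choose bd hbd using hbd
  obtain ⟨idx, hidx, hidx'⟩ := exists_inj_gt hκ hI hIio (hTI.trans_eq hI) (fun t : T => bd (ofLex t).1)
  let φT : X → Finset T := fun z => (φ z).preimage idx hidx.injOn
  let L : X → List T := fun z => (φT z).sort (· ≤ ·)
  let blk : X → WithBot I := fun z => (φ z).max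
  have hN : ∀ t t' : T, t ≤ t' → N t ⊆ N t' := by
    intro t t' htt z hz
    have h1 : (ofLex t).1 ≤ (ofLex t').1 := by
      rcases Prod.Lex.le_iff.1 htt with h | h
      · exact le_of_lt h
      · exact le_of_eq h.1
    exact lt_of_lt_of_le hz h1
  have hZN : ∀ t, Z t ⊆ N t := fun t => Set.inter_subset_right
  have hL : ∀ z, (L z).Pairwise (· ≤ ·) := fun z => by
    exact Finset.pairwise_sort (φT z) (· ≤ ·)
  refine ⟨gr blk Z L, no_ray blk Z L, ?_⟩
  intro A hA
  -- witnesses
  let W : Option X → ℕ → ℕ → Set X := fun y n m =>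
    {a | a ∈ A ∧ (L a).length = n ∧ (∀ w ∈ y, w ∈ (dat blk Z L a).1) ∧ m ≤ (dat blk Z L a).2}
  let C : Option X → ℕ → ℕ → I := fun y n m =>
    if h : (W y n m).Nonempty then g h.some else Classical.arbitrary I
  obtain ⟨δ, hδ⟩ := exists_closed hκ hκ0 hI hIio g hg C
  obtain ⟨ζ, hζ⟩ := hen δ (A ∩ {z | g z < δ}) Set.inter_subset_right
  let t₀ : T := toLex (δ, ζ)
  have hZA : Z t₀ = A ∩ N t₀ := by
    change en δ ζ ∩ {z | g z < δ} = A ∩ {z | g z < δ}
    rw [hζ, Set.inter_assoc, Set.inter_self]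
  refine ⟨idx t₀, ?_⟩
  intro x hx h1
  refine kill blk Z L N hN hZN hL A hA t₀ hZA ?_ x hx ?_ ?_
  · rintro y n m hy ⟨a, ha⟩
    have hne' : (W y n m).Nonempty := ⟨a, ha⟩
    have h3 := hδ y n m hy
    simp only [C] at h3
    rw [dif_pos hne'] at h3
    obtain ⟨b1, b2, b3, b4⟩ := hne'.some_mem
    refine ⟨hne'.some, ?_, b2, b3, b4⟩
    rw [hZA]
    exact ⟨b1, h3⟩
  · intro a ha
    have h3 : (φ a).max < (bd δ : WithBot I) := by
      rw [Finset.max_eq_sup_withBot, Finset.sup_lt_iff (WithBot.bot_lt_coe _)]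
      intro s hs
      rw [WithBot.coe_lt_coe]
      apply hbd δ
      simp only [Set.mem_iUnion]
      exact ⟨a, (hZN t₀ ha), hs⟩
    exact lt_of_lt_of_le (h3.trans (WithBot.coe_lt_coe.2 (hidx' t₀))) (Finset.le_max h1)
  · simp only [L, Finset.mem_sort]
    simp only [φT, Finset.mem_preimage]
    exact h1

end Pool.Agent.H665R2.PathTree
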