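import Mathlib

/-!
# Decomposing ordinals: Milner–Rado norms and finite sets of indices

`Emb S β`: the set `S` of ordinals has order type at most `β`.
-/

set_option autoImplicit false

namespace Pool.Agent.H665R2.PathOrd

open Set Ordinal Cardinal

/-- the set `S` of ordinals has order type at most `β` -/
def Emb (S : Set Ordinal.{0}) (β : Ordinal.{0}) : Prop :=
  ∃ f : Ordinal.{0} → Ordinal.{0}, StrictMonoOn f S ∧ ∀ x ∈ S, f x < β

lemma Emb.mono {S S' : Set Ordinal.{0}} {β β' : Ordinal.{0}} (h : Emb S' β) (hS : S ⊆ S')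
    (hβ : β ≤ β') : Emb S β' := by
  obtain ⟨f, h1, h2⟩ := h
  exact ⟨f, h1.mono hS, fun x hx => lt_of_lt_of_le (h2 x (hS hx)) hβ⟩

lemma emb_of_subset {S : Set Ordinal.{0}} {β : Ordinal.{0}} (h : S ⊆ Set.Iio β) : Emb S β :=
  ⟨id, strictMonoOn_id, h⟩

lemma emb_of_subsingleton {S : Set Ordinal.{0}} {β : Ordinal.{0}} (h : S.Subsingleton)
    (hβ : 0 < β) : Emb S β := by
  refine ⟨fun _ => 0, ?_, fun x _ => hβ⟩
  intro x hx y hy hxy
  exact absurd (h hx hy) (ne_of_lt hxy)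

lemma emb_of_forall_not {S : Set Ordinal.{0}} {β : Ordinal.{0}} (h : ∀ x, x ∉ S) : Emb S β :=
  ⟨id, strictMonoOn_id, fun x hx => absurd hx (h x)⟩

/-- sum of length `δ` of sets of type `≤ β` -/
lemma emb_sum {S : Set Ordinal.{0}} {β δ : Ordinal.{0}} (D : Ordinal.{0} → Ordinal.{0})
    (hD : MonotoneOn D S) (hDδ : ∀ x ∈ S, D x < δ)
    (h : ∀ d < δ, Emb {x | x ∈ S ∧ D x = d} β) : Emb S (β * δ) := by
  have h' : ∀ d : Ordinal.{0}, ∃ f : Ordinal.{0} → Ordinal.{0}, d < δ →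
      StrictMonoOn f {x | x ∈ S ∧ D x = d} ∧ ∀ x ∈ {x | x ∈ S ∧ D x = d}, f x < β := by
    intro d
    by_cases hd : d < δ
    · obtain ⟨f, hf⟩ := h d hd
      exact ⟨f, fun _ => hf⟩
    · exact ⟨id, fun h => absurd h hd⟩
  choose f hf using h'
  have hlt : ∀ x ∈ S, β * D x + f (D x) x < β * (D x + 1) := by
    intro x hx
    rw [mul_add_one]
    exact (add_lt_add_iff_left _).2 ((hf (D x) (hDδ x hx)).2 x ⟨hx, rfl⟩)
  refine ⟨fun x => β * D x + f (D x) x, ?_, ?_⟩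
  · intro x hx y hy hxy
    change β * D x + f (D x) x < β * D y + f (D y) y
    rcases lt_or_eq_of_le (hD hx hy hxy.le) with h1 | h1
    · refine lt_of_lt_of_le (hlt x hx) (le_trans ?_ (le_self_add))
      exact mul_le_mul_right (Order.add_one_le_of_lt h1) β
    · rw [← h1]
      exact (add_lt_add_iff_left _).2 ((hf (D x) (hDδ x hx)).1 ⟨hx, rfl⟩ ⟨hy, h1.symm⟩ hxy)
  · intro x hx
    exact lt_of_lt_of_le (hlt x hx) (mul_le_mul_right (Order.add_one_le_of_lt (hDδ x hx)) β)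

/-- concatenation -/
lemma emb_append {S : Set Ordinal.{0}} {β₁ β₂ : Ordinal.{0}} (p : Ordinal.{0} → Prop)
    (hp : ∀ x ∈ S, ∀ y ∈ S, x ≤ y → p y → p x)
    (h1 : Emb {x | x ∈ S ∧ p x} β₁) (h2 : Emb {x | x ∈ S ∧ ¬ p x} β₂) : Emb S (β₁ + β₂) := by
  classical
  obtain ⟨f, f1, f2⟩ := h1
  obtain ⟨g, g1, g2⟩ := h2
  refine ⟨fun x => if p x then f x else β₁ + g x, ?_, ?_⟩
  · intro x hx y hy hxy
    by_cases px : p x <;> by_cases py : p y
    · simp only [px, py, if_true]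
      exact f1 ⟨hx, px⟩ ⟨hy, py⟩ hxy
    · simp only [px, py, if_true, if_false]
      exact lt_of_lt_of_le (f2 x ⟨hx, px⟩) le_self_add
    · exact absurd (hp x hx y hy hxy.le py) px
    · simp only [px, py, if_false]
      exact (add_lt_add_iff_left _).2 (g1 ⟨hx, px⟩ ⟨hy, py⟩ hxy)
  · intro x hx
    by_cases px : p x
    · simp only [px, if_true]
      exact lt_of_lt_of_le (f2 x ⟨hx, px⟩) le_self_add
    · simp only [px, if_false]
      exact (add_lt_add_iff_left _).2 (g2 x ⟨hx, px⟩)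

/-- An induction principle for the ordinals of cardinality at most `|κ|`. -/
lemma ind_card {κ : Ordinal.{0}} (hκ : 1 < κ) (P : Set Ordinal.{0} → Prop)
    (hmono : ∀ S S' : Set Ordinal.{0}, S ⊆ S' → P S' → P S)
    (hsub : ∀ S : Set Ordinal.{0}, S.Subsingleton → P S)
    (hstep : ∀ (S : Set Ordinal.{0}) (D : Ordinal.{0} → Ordinal.{0}), MonotoneOn D S →
      (∀ x ∈ S, D x < κ) → (∀ d < κ, P {x | x ∈ S ∧ D x = d}) → P S)
    (α : Ordinal.{0}) (hα : α.card ≤ κ.card) : P (Set.Iio α) := by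
  induction α using WellFoundedLT.induction with
  | ind α ih =>
  rcases Ordinal.zero_or_succ_or_isSuccLimit α with h0 | ⟨β, hβ⟩ | hlim
  · subst h0
    apply hsub
    intro x hx
    exact absurd (show x < 0 from hx) (not_lt.2 (zero_le))
  · subst hβ
    have hβlt : β < Order.succ β := Order.lt_succ β
    have hP : P (Set.Iio β) := ih β hβlt ((Ordinal.card_le_card hβlt.le).trans hα)
    classical
    refine hstep (Set.Iio (Order.succ β)) (fun x => if x < β then 0 else 1) ?_ ?_ ?_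
    · intro x _ y _ hxy
      change (if x < β then (0 : Ordinal.{0}) else 1) ≤ (if y < β then (0 : Ordinal.{0}) else 1)
      by_cases hy : y < β
      · rw [if_pos hy, if_pos (lt_of_le_of_lt hxy hy)]
      · rw [if_neg hy]
        split_ifs
        · exact zero_le
        · exact le_refl _
    · intro x _
      split_ifs
      · exact lt_trans zero_lt_one hκ
      · exact hκ
    · intro d hd
      by_cases hd0 : d = 0
      · refine hmono _ _ ?_ hP
        rintro x ⟨_, hx⟩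
        subst hd0
        by_contra hcon
        have hcon' : ¬ x < β := hcon
        have h2 : (if x < β then (0 : Ordinal.{0}) else 1) = 0 := hx
        rw [if_neg hcon'] at h2
        exact one_ne_zero h2
      · apply hsub
        have key : ∀ x, x ∈ {x | x ∈ Set.Iio (Order.succ β) ∧ (if x < β then (0 : Ordinal.{0}) else 1) = d} → x = β := by
          rintro x ⟨hx1, hx2⟩
          have h2 : (if x < β then (0 : Ordinal.{0}) else 1) = d := hx2
          by_cases h3 : x < β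
          · rw [if_pos h3] at h2
            exact absurd h2.symm hd0
          · exact le_antisymm (Order.lt_succ_iff.1 hx1) (not_lt.1 h3)
        intro x hx y hy
        rw [key x hx, key y hy]
  · have hemb : #(Set.Iio α) ≤ #(Set.Iio κ) := by
      rw [Cardinal.mk_Iio_ordinal, Cardinal.mk_Iio_ordinal, Cardinal.lift_le]
      exact hα
    obtain ⟨e⟩ := hemb
    have hne : ∀ x < α, {d : Ordinal.{0} | ∃ (y : Ordinal.{0}) (hy : y < α),
        (e ⟨y, hy⟩ : Ordinal.{0}) = d ∧ x < y}.Nonempty := by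
      intro x hx
      have hx1 : Order.succ x < α := hlim.succ_lt hx
      exact ⟨_, Order.succ x, hx1, rfl, Order.lt_succ x⟩
    have hmem : ∀ x < α, ∃ (y : Ordinal.{0}) (hy : y < α),
        (e ⟨y, hy⟩ : Ordinal.{0}) = sInf {d : Ordinal.{0} | ∃ (y : Ordinal.{0}) (hy : y < α),
        (e ⟨y, hy⟩ : Ordinal.{0}) = d ∧ x < y} ∧ x < y := by
      intro x hx
      exact csInf_mem (hne x hx)
    refine hstep (Set.Iio α) (fun x => sInf {d : Ordinal.{0} | ∃ (y : Ordinal.{0}) (hy : y < α),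
      (e ⟨y, hy⟩ : Ordinal.{0}) = d ∧ x < y}) ?_ ?_ ?_
    · intro x hx y hy hxy
      apply csInf_le_csInf (OrderBot.bddBelow _) (hne y hy)
      rintro d ⟨z, hz, h1, h2⟩
      exact ⟨z, hz, h1, lt_of_le_of_lt hxy h2⟩
    · intro x hx
      obtain ⟨y, hy, h1, h2⟩ := hmem x hx
      rw [← h1]
      exact (e ⟨y, hy⟩).2
    · intro d hd
      by_cases hex : ∃ (y : Ordinal.{0}) (hy : y < α), (e ⟨y, hy⟩ : Ordinal.{0}) = d
      · obtain ⟨y, hy, hyd⟩ := hex
        refine hmono _ _ ?_ (ih y hy ((Ordinal.card_le_card hy.le).trans hα))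
        rintro x ⟨hx1, hx2⟩
        obtain ⟨z, hz, h1, h2⟩ := hmem x hx1
        have h3 : (e ⟨z, hz⟩ : Ordinal.{0}) = d := h1.trans hx2
        have h4 : (⟨z, hz⟩ : Set.Iio α) = ⟨y, hy⟩ := e.injective (Subtype.ext (h3.trans hyd.symm))
        have h5 : z = y := congrArg Subtype.val h4
        exact h5 ▸ h2
      · apply hsub
        rintro x ⟨hx1, hx2⟩
        obtain ⟨z, hz, h1, h2⟩ := hmem x hx1
        exact absurd ⟨z, hz, h1.trans hx2⟩ hex

/-- Milner–Rado norm on a set of ordinals. -/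
def MR (κ : Ordinal.{0}) (S : Set Ordinal.{0}) : Prop :=
  ∃ N : Ordinal.{0} → ℕ, ∀ n : ℕ, Emb {x | x ∈ S ∧ N x ≤ n} (κ ^ (n + 1))

lemma MR.mono {κ : Ordinal.{0}} {S S' : Set Ordinal.{0}} (hS : S ⊆ S') (h : MR κ S') : MR κ S := by
  obtain ⟨N, hN⟩ := h
  exact ⟨N, fun n => (hN n).mono (fun x hx => ⟨hS hx.1, hx.2⟩) le_rfl⟩

lemma MR.sub {κ : Ordinal.{0}} (hκ : 1 < κ) {S : Set Ordinal.{0}} (h : S.Subsingleton) :
    MR κ S := by
  refine ⟨fun _ => 0, fun n => emb_of_subsingleton (h.anti fun x hx => hx.1) ?_⟩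
  exact pow_pos (lt_trans zero_lt_one hκ) _

/-- a choice lemma for `d < κ` -/
lemma choose_lt {β : Type*} [Nonempty β] {κ : Ordinal.{0}} {R : Ordinal.{0} → β → Prop}
    (h : ∀ d < κ, ∃ b, R d b) : ∃ f : Ordinal.{0} → β, ∀ d < κ, R d (f d) := by
  classical
  refine ⟨fun d => if hd : ∃ b, R d b then hd.choose else Classical.arbitrary β, ?_⟩
  intro d hd
  have := h d hd
  beta_reduce
  rw [dif_pos this]
  exact this.choose_spec

lemma MR.step {κ : Ordinal.{0}} (S : Set Ordinal.{0}) (D : Ordinal.{0} → Ordinal.{0})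
    (hD : MonotoneOn D S) (hDκ : ∀ x ∈ S, D x < κ) (h : ∀ d < κ, MR κ {x | x ∈ S ∧ D x = d}) :
    MR κ S := by
  obtain ⟨N, hN⟩ := choose_lt h
  refine ⟨fun x => N (D x) x + 1, ?_⟩
  intro n
  cases n with
  | zero =>
    refine ⟨id, strictMonoOn_id, ?_⟩
    rintro x ⟨_, hx⟩
    exact absurd hx (by simp)
  | succ n =>
    rw [pow_succ κ (n + 1)]
    refine emb_sum D (hD.mono fun x hx => hx.1) (fun x hx => hDκ x hx.1) ?_
    intro d hd
    refine (hN d hd n).mono ?_ le_rfl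
    rintro x ⟨⟨h1, h2⟩, h3⟩
    refine ⟨⟨h1, h3⟩, ?_⟩
    have h4 : N (D x) x + 1 ≤ n + 1 := h2
    rw [h3] at h4
    exact Nat.succ_le_succ_iff.1 h4

theorem MR.all {κ : Ordinal.{0}} (hκ : 1 < κ) (α : Ordinal.{0}) (hα : α.card ≤ κ.card) :
    MR κ (Set.Iio α) :=
  ind_card hκ (MR κ) (fun _ _ => MR.mono) (fun _ => MR.sub hκ) MR.step α hα

/-- A point-cofinite family of `μ` subsets of `S` of type at most `τ`. -/
def R (μ τ : Ordinal.{0}) (S : Set Ordinal.{0}) : Prop :=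
  ∃ cap : Ordinal.{0} → Finset Ordinal.{0}, ∀ b < μ, Emb {x | x ∈ S ∧ b ∉ cap x} τ

/-- A point-cofinite family of `κ` subsets of `S` of type less than `τ * κ * κ`. -/
def Q (κ τ : Ordinal.{0}) (S : Set Ordinal.{0}) : Prop :=
  ∃ φ : Ordinal.{0} → Finset Ordinal.{0}, ∀ t < κ, ∃ γ < κ,
    Emb {x | x ∈ S ∧ t ∉ φ x} (τ * κ * γ)

lemma R.mono {μ τ : Ordinal.{0}} {S S' : Set Ordinal.{0}} (hS : S ⊆ S') (h : R μ τ S') :
    R μ τ S := by
  obtain ⟨cap, hc⟩ := h
  exact ⟨cap, fun b hb => (hc b hb).mono (fun x hx => ⟨hS hx.1, hx.2⟩) le_rfl⟩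

lemma Q.mono {κ τ : Ordinal.{0}} {S S' : Set Ordinal.{0}} (hS : S ⊆ S') (h : Q κ τ S') :
    Q κ τ S := by
  obtain ⟨φ, hφ⟩ := h
  refine ⟨φ, fun t ht => ?_⟩
  obtain ⟨γ, h1, h2⟩ := hφ t ht
  exact ⟨γ, h1, h2.mono (fun x hx => ⟨hS hx.1, hx.2⟩) le_rfl⟩

lemma R.of_MR {κ : Ordinal.{0}} (hκ : 1 < κ) {S : Set Ordinal.{0}} (h : MR κ S) :
    R ω (κ ^ ω) S := by
  obtain ⟨N, hN⟩ := h
  refine ⟨fun x => (Finset.range (N x)).image (fun n : ℕ => (n : Ordinal.{0})), ?_⟩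
  intro b hb
  obtain ⟨n, rfl⟩ := Ordinal.lt_omega0.1 hb
  refine (hN n).mono ?_ ?_
  · rintro x ⟨h1, h2⟩
    refine ⟨h1, ?_⟩
    by_contra hcon
    apply h2
    rw [Finset.mem_image]
    exact ⟨n, Finset.mem_range.2 (not_le.1 hcon), rfl⟩
  · have h1 : ((n + 1 : ℕ) : Ordinal.{0}) ≤ ω := (Ordinal.natCast_lt_omega0 _).le
    have h2 := Ordinal.opow_le_opow_right (lt_trans zero_lt_one hκ) h1
    rwa [Ordinal.opow_natCast] at h2

/-- closure properties of `κ` used below -/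
structure Good (κ : Ordinal.{0}) : Prop where
  one_lt : 1 < κ
  succ : ∀ a < κ, a + 1 < κ
  mul : ∀ a < κ, ∀ b < κ, a * b < κ
  reg : ∀ t < κ, ∀ γ : Ordinal.{0} → Ordinal.{0}, (∀ d ≤ t, γ d < κ) → ∃ γ' < κ, ∀ d ≤ t, γ d ≤ γ'

lemma Q.step {κ μ τ : Ordinal.{0}} (hκ : Good κ)
    (e : Ordinal.{0} → Ordinal.{0} → Ordinal.{0}) (he : ∀ d < κ, Set.InjOn (e d) (Set.Iio d))
    (heμ : ∀ d < κ, ∀ t < d, e d t < μ)
    (S : Set Ordinal.{0}) (D : Ordinal.{0} → Ordinal.{0})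
    (hD : MonotoneOn D S) (hDκ : ∀ x ∈ S, D x < κ) (hR : ∀ d < κ, R μ τ {x | x ∈ S ∧ D x = d})
    (h : ∀ d < κ, Q κ τ {x | x ∈ S ∧ D x = d}) :
    Q κ τ S := by
  classical
  obtain ⟨cap, hcap⟩ := choose_lt hR
  obtain ⟨φ, hφ⟩ := choose_lt h
  have hfin : ∀ x, D x < κ → {t | t < D x ∧ e (D x) t ∈ cap (D x) x}.Finite := by
    intro x hx
    have h1 : (e (D x) '' {t | t < D x ∧ e (D x) t ∈ cap (D x) x}).Finite := by
      refine (Finset.finite_toSet (cap (D x) x)).subset ?_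
      rintro _ ⟨t, ht, rfl⟩
      exact ht.2
    exact Set.Finite.of_finite_image h1 ((he (D x) hx).mono fun t ht => ht.1)
  let ψ : Ordinal.{0} → Finset Ordinal.{0} := fun x =>
    (φ (D x) x).filter (fun t => D x ≤ t) ∪
      (if hx : D x < κ then (hfin x hx).toFinset else ∅)
  refine ⟨ψ, ?_⟩
  intro t ht
  obtain ⟨γ, hγ⟩ := choose_lt (κ := κ) (R := fun d γ => γ < κ ∧
    Emb {x | x ∈ {x | x ∈ S ∧ D x = d} ∧ t ∉ φ d x} (τ * κ * γ)) (fun d hd => by
      obtain ⟨γ, h1, h2⟩ := hφ d hd t ht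
      exact ⟨γ, h1, h2⟩)
  obtain ⟨γ', hγ', hγle⟩ := hκ.reg t ht γ (fun d hd => (hγ d (lt_of_le_of_lt hd ht)).1)
  refine ⟨γ' * (t + 1) + 1, hκ.succ _ (hκ.mul _ hγ' _ (hκ.succ _ ht)), ?_⟩
  have hψ : ∀ x ∈ S, t ∉ ψ x → (D x ≤ t → t ∉ φ (D x) x) ∧ (t < D x → e (D x) t ∉ cap (D x) x) := by
    intro x hx hnot
    simp only [ψ, Finset.mem_union, not_or] at hnot
    constructor
    · intro hle hmem
      exact hnot.1 (Finset.mem_filter.2 ⟨hmem, hle⟩)
    · intro hlt hmem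
      apply hnot.2
      rw [dif_pos (hDκ x hx), Set.Finite.mem_toFinset]
      exact ⟨hlt, hmem⟩
  rw [mul_add_one, ← mul_assoc]
  refine emb_append (fun x => D x ≤ t) ?_ ?_ ?_
  · intro x hx y hy hxy hyt
    exact (hD hx.1 hy.1 hxy).trans hyt
  · refine emb_sum D (hD.mono fun x hx => hx.1.1) (fun x hx => Order.lt_add_one_iff.2 hx.2) ?_
    intro d hd
    have hdt : d ≤ t := Order.lt_add_one_iff.1 hd
    have hdκ : d < κ := lt_of_le_of_lt hdt ht
    refine (hγ d hdκ).2.mono ?_ ?_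
    · rintro x ⟨⟨⟨h1, h2⟩, h3⟩, h4⟩
      refine ⟨⟨h1, h4⟩, ?_⟩
      have h5 := (hψ x h1 h2).1 h3
      rwa [h4] at h5
    · exact mul_le_mul_right (hγle d hdt) _
  · refine emb_sum D (hD.mono fun x hx => hx.1.1) (fun x hx => hDκ x hx.1.1) ?_
    intro d hd
    by_cases hdt : t < d
    · refine (hcap d hd (e d t) (heμ d hd t hdt)).mono ?_ le_rfl
      rintro x ⟨⟨⟨h1, h2⟩, h3⟩, h4⟩
      refine ⟨⟨h1, h4⟩, ?_⟩
      have h5 := (hψ x h1 h2).2 (by rw [h4]; exact hdt)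
      rwa [h4] at h5
    · apply emb_of_forall_not
      rintro x ⟨⟨⟨h1, h2⟩, h3⟩, h4⟩
      exact absurd (not_lt.1 hdt) (by rw [← h4]; exact h3)

/-- a regular uncountable cardinal is good -/
lemma good_ord {c : Cardinal.{0}} (hc : c.IsRegular) (hc0 : ℵ₀ < c) : Good c.ord := by
  have hlim : Order.IsSuccLimit c.ord := Cardinal.isSuccLimit_ord hc0.le
  refine ⟨?_, ?_, ?_, ?_⟩
  · have : ω ≤ c.ord := Cardinal.omega0_le_ord.2 hc0.le
    exact lt_of_lt_of_le Ordinal.one_lt_omega0 this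
  · intro a ha
    exact hlim.succ_lt ha
  · intro a ha b hb
    rw [Cardinal.lt_ord] at ha hb ⊢
    rw [Ordinal.card_mul]
    exact Cardinal.mul_lt_of_lt hc0.le ha hb
  · intro t ht γ hγ
    have hcard : #(γ '' Set.Iic t) < Cardinal.lift.{1} c := by
      refine lt_of_le_of_lt Cardinal.mk_image_le ?_
      have h1 : Set.Iic t = Set.Iio (Order.succ t) := by
        ext x; simp
      rw [h1, Cardinal.mk_Iio_ordinal, Cardinal.lift_lt]
      exact Cardinal.lt_ord.1 (hlim.succ_lt ht)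
    have hbdd : BddAbove (γ '' Set.Iic t) := by
      refine ⟨c.ord, ?_⟩
      rintro _ ⟨d, hd, rfl⟩
      exact (hγ d hd).le
    refine ⟨sSup (γ '' Set.Iic t), ?_, ?_⟩
    · apply Ordinal.sSup_lt_of_lt_cof
      · rwa [← Ordinal.lift_cof, hc.cof_ord]
      · rintro _ ⟨d, hd, rfl⟩
        exact hγ d hd
    · intro d hd
      exact le_csSup hbdd ⟨d, hd, rfl⟩

/-- injections of the ordinals below `m⁺` into `m` -/
lemma exists_inj (m : Cardinal.{0}) :
    ∃ e : Ordinal.{0} → Ordinal.{0} → Ordinal.{0},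
      (∀ d < (Order.succ m).ord, Set.InjOn (e d) (Set.Iio d)) ∧
      ∀ d < (Order.succ m).ord, ∀ t < d, e d t < m.ord := by
  have h : ∀ d < (Order.succ m).ord, ∃ e : Ordinal.{0} → Ordinal.{0},
      Set.InjOn e (Set.Iio d) ∧ ∀ t < d, e t < m.ord := by
    intro d hd
    have h1 : #(Set.Iio d) ≤ #(Set.Iio m.ord) := by
      rw [Cardinal.mk_Iio_ordinal, Cardinal.mk_Iio_ordinal, Cardinal.lift_le, Cardinal.card_ord]
      exact Order.lt_succ_iff.1 (Cardinal.lt_ord.1 hd)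
    obtain ⟨e⟩ := h1
    classical
    refine ⟨fun t => if ht : t < d then (e ⟨t, ht⟩ : Ordinal.{0}) else 0, ?_, ?_⟩
    · intro s hs t ht hst
      have hs' : s < d := hs
      have ht' : t < d := ht
      simp only [hs', ht', dif_pos] at hst
      exact congrArg Subtype.val (e.injective (Subtype.ext hst))
    · intro t ht
      simp only [ht, dif_pos]
      exact (e ⟨t, ht⟩).2
  obtain ⟨e, he⟩ := choose_lt h
  exact ⟨e, fun d hd => (he d hd).1, fun d hd => (he d hd).2⟩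

/-- All ordinals of cardinality at most `ℵ₁`. -/
theorem Q.all_aleph_one (α : Ordinal.{0}) (hα : α.card ≤ ℵ₁) :
    Q (ℵ₁ : Cardinal.{0}).ord ((ℵ₁ : Cardinal.{0}).ord ^ (ω : Ordinal.{0})) (Set.Iio α) := by
  have hreg : (ℵ₁ : Cardinal.{0}).IsRegular := Cardinal.isRegular_aleph_one
  have hgood : Good (ℵ₁ : Cardinal.{0}).ord := good_ord hreg Cardinal.aleph0_lt_aleph_one
  obtain ⟨e, he1, he2⟩ := exists_inj ℵ₀
  rw [Cardinal.succ_aleph0, Cardinal.ord_aleph0] at *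
  have := ind_card hgood.one_lt (fun S => MR (ℵ₁ : Cardinal.{0}).ord S ∧
    Q (ℵ₁ : Cardinal.{0}).ord ((ℵ₁ : Cardinal.{0}).ord ^ (ω : Ordinal.{0})) S)
    (fun S S' h1 h2 => ⟨h2.1.mono h1, h2.2.mono h1⟩) ?_ ?_ α (by rwa [Cardinal.card_ord])
  · exact this.2
  · intro S hS
    refine ⟨MR.sub hgood.one_lt hS, fun _ => ∅, fun t ht => ⟨1, hgood.one_lt, ?_⟩⟩
    refine emb_of_subsingleton (hS.anti fun x hx => hx.1) ?_
    have h0 : 0 < (ℵ₁ : Cardinal.{0}).ord := lt_trans zero_lt_one hgood.one_lt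
    rw [mul_one]
    exact mul_pos (Ordinal.opow_pos _ h0) h0
  · intro S D hD hDκ h
    refine ⟨MR.step S D hD hDκ (fun d hd => (h d hd).1), ?_⟩
    exact Q.step hgood e he1 he2 S D hD hDκ
      (fun d hd => R.of_MR hgood.one_lt (h d hd).1) (fun d hd => (h d hd).2)

end Pool.Agent.H665R2.PathOrd
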