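import Mathlib
import Pool.Agent.H665R2.PathMain
import Pool.Agent.H665R2.PathOrd

set_option autoImplicit false

namespace Pool.Agent.H665R2.PathFinal

open Set Ordinal Cardinal

/-- The relation `α → (τ, infinite path)²`: every graph on `α` has an infinite path (an injective
sequence of vertices, consecutive ones adjacent) or an independent set of order type `τ`. -/
def PathRel (α τ : Ordinal.{0}) : Prop :=
  ∀ G : SimpleGraph α.ToType,
    (∃ v : ℕ → α.ToType, Function.Injective v ∧ ∀ n, G.Adj (v n) (v (n + 1))) ∨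
    ∃ S : Set α.ToType, G.IsIndepSet S ∧ typeLT S = τ

/-- order type bound from an embedding into ordinals -/
lemma type_le_of {α β : Ordinal.{0}} (S : Set α.ToType) (f : Ordinal.{0} → Ordinal.{0})
    (hf : ∀ x ∈ S, ∀ y ∈ S, x < y → f (ToType.toOrd x : Ordinal.{0}) < f (ToType.toOrd y : Ordinal.{0}))
    (hlt : ∀ x ∈ S, f (ToType.toOrd x : Ordinal.{0}) < β) : typeLT S ≤ β := by
  conv_rhs => rw [← Ordinal.type_toType β]
  rw [Ordinal.type_le_iff']
  let F : S → β.ToType := fun x => ToType.mk ⟨f (ToType.toOrd x.1 : Ordinal.{0}), hlt x.1 x.2⟩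
  have hF : StrictMono F := by
    intro x y hxy
    change ToType.mk _ < ToType.mk _
    rw [OrderIso.lt_iff_lt]
    exact hf x.1 x.2 y.1 y.2 hxy
  exact ⟨(OrderEmbedding.ofStrictMono F hF).ltEmbedding⟩

theorem not_pathRel {c : Cardinal.{0}} (hc : c.IsRegular) (hc0 : ℵ₀ < c)
    (hpow : ∀ l < c, (2 : Cardinal.{0}) ^ l ≤ c) {α τ : Ordinal.{0}} (hα : α.card ≤ c)
    (φ : Ordinal.{0} → Finset Ordinal.{0})
    (hφ : ∀ t < c.ord, ∃ β < τ, PathOrd.Emb {x | x ∈ Set.Iio α ∧ t ∉ φ x} β) :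
    ¬ PathRel α τ := by
  classical
  intro hrel
  let ι : c.ord.ToType → Ordinal.{0} := fun i => (ToType.toOrd i : Ordinal.{0})
  have hι : Function.Injective ι := fun i j h => by
    have : ToType.toOrd i = ToType.toOrd j := Subtype.ext h
    exact ToType.mk.symm.injective this
  obtain ⟨G, hG1, hG2⟩ := PathTree.exists_graph (X := α.ToType) (I := c.ord.ToType) hc hc0 hpow
    (Cardinal.mk_ord_toType c) (fun i => by
      have h := Cardinal.mk_Iio_lt i (by simp)
      rwa [Cardinal.mk_ord_toType] at h)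
    (by rw [Cardinal.mk_toType]; exact hα)
    (fun x => (φ (ToType.toOrd x : Ordinal.{0})).preimage ι hι.injOn)
  rcases hrel G with ⟨v, hv, hadj⟩ | ⟨S, hS, hτ⟩
  · exact hG1 v hv hadj
  · obtain ⟨t, ht⟩ := hG2 S (by
      intro a ha b hb hab
      exact hS ha hb (G.ne_of_adj hab) hab)
    obtain ⟨β, hβ, f, hf1, hf2⟩ := hφ (ι t) (ToType.toOrd t).2
    have hmem : ∀ x ∈ S, (ToType.toOrd x : Ordinal.{0}) ∈ {x | x ∈ Set.Iio α ∧ ι t ∉ φ x} := by
      intro x hx
      refine ⟨(ToType.toOrd x).2, ?_⟩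
      intro hcon
      exact ht x hx (Finset.mem_preimage.2 hcon)
    have hle := type_le_of S f (fun x hx y hy hxy => hf1 (hmem x hx) (hmem y hy) (by
      have : ToType.toOrd x < ToType.toOrd y := by
        rwa [OrderIso.lt_iff_lt]
      exact this)) (fun x hx => hf2 _ (hmem x hx))
    rw [hτ] at hle
    exact absurd hβ (not_lt.2 hle)

/-- **CH implies a negative partition relation for all ordinals below `ω₂`.** -/
theorem ch_not_pathRel' (hCH : Cardinal.continuum.{0} = ℵ₁) (α τ : Ordinal.{0})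
    (hα : α.card ≤ ℵ₁) (hτ : (Cardinal.ord ℵ₁) ^ (ω + 2 : Ordinal.{0}) ≤ τ) : ¬ PathRel α τ := by
  obtain ⟨φ, hφ⟩ := PathOrd.Q.all_aleph_one α hα
  have hreg : (ℵ₁ : Cardinal.{0}).IsRegular := Cardinal.isRegular_aleph_one
  have hgood := PathOrd.good_ord hreg Cardinal.aleph0_lt_aleph_one
  have h0 : 0 < (ℵ₁ : Cardinal.{0}).ord := lt_trans zero_lt_one hgood.one_lt
  refine not_pathRel hreg Cardinal.aleph0_lt_aleph_one ?_ hα φ ?_
  · intro l hl
    have h1 : l ≤ ℵ₀ := by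
      rw [← Cardinal.succ_aleph0] at hl
      exact Order.lt_succ_iff.1 hl
    calc (2 : Cardinal.{0}) ^ l ≤ 2 ^ (ℵ₀ : Cardinal.{0}) :=
          Cardinal.power_le_power_left two_ne_zero h1
      _ = ℵ₁ := by rw [Cardinal.two_power_aleph0, hCH]
  · intro t ht
    obtain ⟨γ, hγ, hemb⟩ := hφ t ht
    refine ⟨_, lt_of_lt_of_le ?_ hτ, hemb⟩
    have h2 : (Cardinal.ord ℵ₁) ^ (ω + 2 : Ordinal.{0}) =
        (Cardinal.ord ℵ₁) ^ (ω : Ordinal.{0}) * Cardinal.ord ℵ₁ * Cardinal.ord ℵ₁ := by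
      rw [Ordinal.opow_add, mul_assoc, ← one_add_one_eq_two, Ordinal.opow_add, Ordinal.opow_one]
    rw [h2]
    exact (mul_lt_mul_iff_right₀ (mul_pos (Ordinal.opow_pos _ h0) h0)).2 hγ

/-- CH implies a negative partition relation for all ordinals below `ω₂`. -/
theorem ch_not_pathRel (hCH : Cardinal.continuum.{0} = ℵ₁) (α : Ordinal.{0})
    (hα : α.card ≤ ℵ₁) : ¬ PathRel α ((Cardinal.ord ℵ₁) ^ (ω + 2 : Ordinal.{0})) :=
  ch_not_pathRel' hCH α _ hα le_rfl

end Pool.Agent.H665R2.PathFinal
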