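import Mathlib
import Pool.Agent.H665R2.PathOrd

/-!
# Capturing machines

A machine reads a decreasing sequence of exponents and captures indices `η < θ`, finitely many for
every sequence, in such a way that for every `η` the sequences which do not capture `η` form a
well-founded tree of small rank.
-/

set_option autoImplicit false

namespace Pool.Agent.H665R2.PathMach

open Set Ordinal Cardinal PathOrd

/-- run a partial transition function along a list -/
def run {St : Type 1} (step : St → Ordinal.{0} → Option St) : List Ordinal.{0} → St → Option St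
  | [], s => some s
  | ν :: l, s => (step s ν).bind (run step l)

/-- A capturing machine for the indices below `θ`, exponents below `ρ`, ranks at most `r`. -/
structure Mach (θ ρ r : Ordinal.{0}) where
  /-- states -/
  St : Type 1
  /-- initial state for the index `η` -/
  init : Ordinal.{0} → St
  /-- transition, `none` means captured -/
  step : St → Ordinal.{0} → Option St
  /-- potential of a state with bound `ν` for the next exponents -/
  pot : St → Ordinal.{0} → Ordinal.{0}
  /-- valid states -/
  ok : St → Ordinal.{0} → Prop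
  ok_init : ∀ η < θ, ∀ ν ≤ ρ, ok (init η) ν
  ok_step : ∀ s ν, ok s ν → ∀ ν' < ν, ∀ s', step s ν' = some s' → ok s' ν' ∧ pot s' ν' < pot s ν
  pot_init : ∀ η < θ, ∀ ν ≤ ρ, pot (init η) ν ≤ r
  fin : ∀ l : List Ordinal.{0}, {η | η < θ ∧ run step l (init η) = none}.Finite

/-- the counting machine -/
noncomputable def base (ρ : Ordinal.{0}) : Mach ω ρ ω where
  St := ULift.{1} ℕ
  init := fun η => ⟨Cardinal.toNat η.card⟩
  step := fun s _ => if s.down = 0 then none else some ⟨s.down - 1⟩
  pot := fun s _ => (s.down : Ordinal.{0})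
  ok := fun _ _ => True
  ok_init := fun _ _ _ _ => trivial
  ok_step := by
    intro s ν _ ν' _ s' hs
    refine ⟨trivial, ?_⟩
    by_cases h : s.down = 0
    · rw [if_pos h] at hs
      exact absurd hs (by simp)
    · rw [if_neg h] at hs
      have h1 : s' = ⟨s.down - 1⟩ := (Option.some.inj hs).symm
      subst h1
      have h2 : s.down - 1 < s.down := Nat.sub_lt (Nat.pos_of_ne_zero h) one_pos
      exact_mod_cast h2
  pot_init := fun η _ ν _ => (Ordinal.natCast_lt_omega0 _).le
  fin := by
    intro l
    have key : ∀ (l : List Ordinal.{0}) (s : ULift.{1} ℕ),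
        run (fun (s : ULift.{1} ℕ) _ => if s.down = 0 then none else some ⟨s.down - 1⟩) l s = none →
        s.down < l.length := by
      intro l
      induction l with
      | nil => intro s h; simp [run] at h
      | cons ν l ih =>
        intro s h
        simp only [run] at h
        by_cases h0 : s.down = 0
        · rw [h0]; simp
        · rw [if_neg h0] at h
          have := ih ⟨s.down - 1⟩ h
          simp only [List.length_cons]
          simp only at this
          omega
    refine ((Finset.finite_toSet ((Finset.range l.length).image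
      (fun n : ℕ => (n : Ordinal.{0}))))).subset ?_
    rintro η ⟨h1, h2⟩
    obtain ⟨n, rfl⟩ := Ordinal.lt_omega0.1 h1
    have h3 := key l _ h2
    simp only [Ordinal.card_nat, Cardinal.toNat_natCast] at h3
    simp only [Finset.coe_image, Finset.coe_range, Set.mem_image, Set.mem_Iio]
    exact ⟨n, h3, rfl⟩

lemma good_add {κ : Ordinal.{0}} (hκ : Good κ) {a b : Ordinal.{0}} (ha : a < κ) (hb : b < κ) :
    a + b < κ := by
  have h2 : (1 + 1 : Ordinal.{0}) < κ := hκ.succ _ hκ.one_lt
  have h3 : a + b ≤ max a b * (1 + 1) := by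
    rw [mul_add_one, mul_one]
    exact add_le_add (le_max_left _ _) (le_max_right _ _)
  exact lt_of_le_of_lt h3 (hκ.mul _ (max_lt ha hb) _ h2)

section Lift

variable {θ Θ ρ r : Ordinal.{0}} (M : Mach θ ρ r) (e : Ordinal.{0} → Ordinal.{0} → Ordinal.{0})

open Classical in
/-- transition function of the lifted machine -/
noncomputable def lstep (Θ : Ordinal.{0}) (M : Mach θ ρ r)
    (e : Ordinal.{0} → Ordinal.{0} → Ordinal.{0}) :
    Ordinal.{0} ⊕ (M.St × Ordinal.{0}) → Ordinal.{0} → Option (Ordinal.{0} ⊕ (M.St × Ordinal.{0}))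
  | .inl η, ν => if η < ν % Θ then some (.inr (M.init (e (ν % Θ) η), ν / Θ)) else some (.inl η)
  | .inr (s, a), ν => if ν / Θ = a then some (.inr (s, a))
      else (M.step s (ν / Θ)).map (fun s' => .inr (s', ν / Θ))

open Classical in
/-- potential of the lifted machine -/
noncomputable def lpot (Θ : Ordinal.{0}) (M : Mach θ ρ r) :
    Ordinal.{0} ⊕ (M.St × Ordinal.{0}) → Ordinal.{0} → Ordinal.{0}
  | .inl η, ν => Θ * (r + 1) + ((η + 1) * (ν / Θ) + min (ν % Θ) (η + 1))
  | .inr (s, a), ν => Θ * M.pot s a + (if ν / Θ = a then ν % Θ else 0)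

/-- validity for the lifted machine -/
def lok (Θ : Ordinal.{0}) (M : Mach θ ρ r) :
    Ordinal.{0} ⊕ (M.St × Ordinal.{0}) → Ordinal.{0} → Prop
  | .inl η, ν => η < Θ ∧ ν ≤ Θ * ρ
  | .inr (s, a), ν => M.ok s a ∧ ν / Θ ≤ a

open Classical in
/-- the exponents fed to the old machine -/
noncomputable def feed (Θ : Ordinal.{0}) : Ordinal.{0} → List Ordinal.{0} → List Ordinal.{0}
  | _, [] => []
  | a, ν :: l => if ν / Θ = a then feed Θ a l else (ν / Θ) :: feed Θ (ν / Θ) l

lemma run_feed (Θ : Ordinal.{0}) (l : List Ordinal.{0}) : ∀ (s : M.St) (a : Ordinal.{0}),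
    run (lstep Θ M e) l (.inr (s, a)) = none → run M.step (feed Θ a l) s = none := by
  induction l with
  | nil => intro s a h; simp [run] at h
  | cons ν l ih =>
    intro s a h
    simp only [run, lstep] at h
    simp only [feed]
    by_cases h1 : ν / Θ = a
    · rw [if_pos h1] at h ⊢
      exact ih s a h
    · rw [if_neg h1] at h ⊢
      simp only [run]
      cases hs : M.step s (ν / Θ) with
      | none => rfl
      | some s' =>
        rw [hs] at h
        exact ih s' _ h

/-- the lifted machine -/
noncomputable def lift (hΘ : Good Θ) (hρ : ρ < Θ)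
    (he : ∀ d < Θ, Set.InjOn (e d) (Set.Iio d)) (heθ : ∀ d < Θ, ∀ t < d, e d t < θ) :
    Mach Θ (Θ * ρ) (Θ * (r + 2)) where
  St := Ordinal.{0} ⊕ (M.St × Ordinal.{0})
  init := fun η => .inl η
  step := lstep Θ M e
  pot := lpot Θ M
  ok := lok Θ M
  ok_init := fun η hη ν hν => ⟨hη, hν⟩
  ok_step := by
    have hΘ0 : Θ ≠ 0 := (lt_trans zero_lt_one hΘ.one_lt).ne'
    rintro (η | ⟨s, a⟩) ν hok ν' hν' s' hs
    · obtain ⟨h1, h2⟩ := hok
      have hdiv : ν' / Θ < ρ := (Ordinal.lt_mul_iff_div_lt hΘ0).1 (lt_of_lt_of_le hν' h2)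
      simp only [lstep] at hs
      by_cases h : η < ν' % Θ
      · rw [if_pos h] at hs
        have hs' := (Option.some.inj hs).symm
        subst hs'
        have hmod : ν' % Θ < Θ := Ordinal.mod_lt _ hΘ0
        have h3 : e (ν' % Θ) η < θ := heθ _ hmod _ h
        refine ⟨⟨M.ok_init _ h3 _ hdiv.le, le_rfl⟩, ?_⟩
        simp only [lpot]
        rw [if_pos trivial]
        refine lt_of_lt_of_le ?_ le_self_add
        rw [mul_add_one]
        refine lt_of_le_of_lt (add_le_add_left (mul_le_mul_right (M.pot_init _ h3 _ hdiv.le) Θ) _) ?_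
        exact (add_lt_add_iff_left _).2 hmod
      · rw [if_neg h] at hs
        have hs' := (Option.some.inj hs).symm
        subst hs'
        refine ⟨⟨h1, hν'.le.trans h2⟩, ?_⟩
        simp only [lpot]
        rw [add_lt_add_iff_left]
        have h3 : ν' % Θ ≤ η := not_lt.1 h
        have h4 : min (ν' % Θ) (η + 1) < η + 1 :=
          lt_of_le_of_lt (min_le_left _ _) (Order.lt_add_one_iff.2 h3)
        rcases lt_or_eq_of_le (Ordinal.div_le_left hν'.le Θ) with h5 | h5
        · refine lt_of_lt_of_le ((add_lt_add_iff_left _).2 h4) ?_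
          refine le_trans ?_ le_self_add
          rw [← mul_add_one]
          exact mul_le_mul_right (Order.add_one_le_of_lt h5) _
        · rw [h5, add_lt_add_iff_left]
          refine lt_min ?_ h4
          refine lt_of_le_of_lt (min_le_left _ _) ?_
          rw [← Ordinal.div_add_mod ν' Θ, ← Ordinal.div_add_mod ν Θ, h5, add_lt_add_iff_left] at hν'
          exact hν'
    · obtain ⟨h1, h2⟩ := hok
      simp only [lstep] at hs
      have hle : ν' / Θ ≤ ν / Θ := Ordinal.div_le_left hν'.le Θ
      by_cases h : ν' / Θ = a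
      · rw [if_pos h] at hs
        have hs' := (Option.some.inj hs).symm
        subst hs'
        refine ⟨⟨h1, h.le⟩, ?_⟩
        have h3 : ν / Θ = a := le_antisymm h2 (h ▸ hle)
        simp only [lpot]
        rw [if_pos h, if_pos h3, add_lt_add_iff_left]
        rw [← Ordinal.div_add_mod ν' Θ, ← Ordinal.div_add_mod ν Θ, h, h3, add_lt_add_iff_left] at hν'
        exact hν'
      · rw [if_neg h] at hs
        cases hs1 : M.step s (ν' / Θ) with
        | none => rw [hs1] at hs; exact absurd hs (by simp)
        | some s1 =>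
          rw [hs1] at hs
          have hs' : s' = .inr (s1, ν' / Θ) := (Option.some.inj hs).symm
          subst hs'
          have h3 : ν' / Θ < a := lt_of_le_of_ne (hle.trans h2) h
          obtain ⟨h4, h5⟩ := M.ok_step s a h1 _ h3 s1 hs1
          refine ⟨⟨h4, le_rfl⟩, ?_⟩
          simp only [lpot]
          rw [if_pos trivial]
          refine lt_of_lt_of_le ((add_lt_add_iff_left _).2 (Ordinal.mod_lt _ hΘ0)) ?_
          rw [← mul_add_one]
          exact (mul_le_mul_right (Order.add_one_le_of_lt h5) Θ).trans le_self_add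
  pot_init := by
    intro η hη ν hν
    have hΘ0 : Θ ≠ 0 := (lt_trans zero_lt_one hΘ.one_lt).ne'
    simp only [lpot]
    have h2 : Θ * (r + 2) = Θ * (r + 1) + Θ := by
      rw [← one_add_one_eq_two, ← add_assoc, mul_add_one]
    rw [h2, add_le_add_iff_left]
    have h3 : ν / Θ ≤ ρ := Ordinal.div_le_of_le_mul hν
    have h4 : (η + 1) * (ν / Θ) < Θ :=
      hΘ.mul _ (hΘ.succ _ hη) _ (lt_of_le_of_lt h3 hρ)
    have h5 : min (ν % Θ) (η + 1) < Θ := lt_of_le_of_lt (min_le_right _ _) (hΘ.succ _ hη)
    exact (good_add hΘ h4 h5).le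
  fin := by
    intro l
    induction l with
    | nil =>
      refine Set.finite_empty.subset ?_
      rintro η ⟨_, h⟩
      simp [run] at h
    | cons ν l ih =>
      have hΘ0 : Θ ≠ 0 := (lt_trans zero_lt_one hΘ.one_lt).ne'
      have hmod : ν % Θ < Θ := Ordinal.mod_lt _ hΘ0
      have h1 : {η | η < ν % Θ ∧ run M.step (feed Θ (ν / Θ) l) (M.init (e (ν % Θ) η)) = none}.Finite := by
        refine Set.Finite.of_finite_image (f := e (ν % Θ)) ?_ ((he _ hmod).mono fun t ht => ht.1)
        refine (M.fin (feed Θ (ν / Θ) l)).subset ?_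
        rintro _ ⟨η, ⟨h3, h4⟩, rfl⟩
        exact ⟨heθ _ hmod _ h3, h4⟩
      refine (h1.union ih).subset ?_
      rintro η ⟨h2, h3⟩
      simp only [run, lstep] at h3
      by_cases h : η < ν % Θ
      · rw [if_pos h] at h3
        exact Or.inl ⟨h, run_feed M e Θ l _ _ h3⟩
      · rw [if_neg h] at h3
        exact Or.inr ⟨h2, h3⟩

end Lift

/-! ### From machines to families of small sets -/

/-- exponents of the Cantor normal form to the base `κ` -/
noncomputable def exps (κ x : Ordinal.{0}) : List Ordinal.{0} := (Ordinal.CNF κ x).map Prod.fst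

lemma exps_zero (κ : Ordinal.{0}) : exps κ 0 = [] := by
  simp [exps]

lemma exps_ne_zero (κ : Ordinal.{0}) {x : Ordinal.{0}} (hx : x ≠ 0) :
    exps κ x = Ordinal.log κ x :: exps κ (x % κ ^ Ordinal.log κ x) := by
  simp [exps, Ordinal.CNF.ne_zero hx]

/-- The ordinals `< κ ^ ν` which do not lead to a capture have small order type. -/
lemma emb_run {θ ρ r κ : Ordinal.{0}} (M : Mach θ ρ r) (hκ : Good κ) (ν : Ordinal.{0}) :
    ∀ s : M.St, ν < κ → M.ok s ν →
      Emb {x | x < κ ^ ν ∧ run M.step (exps κ x) s ≠ none} (κ ^ (2 * M.pot s ν + 2)) := by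
  induction ν using WellFoundedLT.induction with
  | ind ν ih =>
  intro s hν hok
  have hκ0 : 0 < κ := lt_trans zero_lt_one hκ.one_lt
  have hpow : κ ^ (2 * M.pot s ν + 2) = κ ^ (2 * M.pot s ν) * κ * κ := by
    rw [Ordinal.opow_add, ← one_add_one_eq_two, Ordinal.opow_add, Ordinal.opow_one, mul_assoc]
  rw [hpow]
  refine emb_sum (fun x => Ordinal.log κ x) ?_ ?_ ?_
  · intro x _ y _ hxy
    exact Ordinal.log_mono_right κ hxy
  · rintro x ⟨hx, _⟩
    by_cases h0 : x = 0
    · rw [h0, Ordinal.log_zero_right]; exact hκ0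
    · exact lt_trans ((Ordinal.lt_opow_iff_log_lt hκ.one_lt h0).1 hx) hν
  · intro ν' hν'
    refine emb_sum (fun x => x / κ ^ ν') ?_ ?_ ?_
    · intro x _ y _ hxy
      exact Ordinal.div_le_left hxy _
    · rintro x ⟨_, hx⟩
      have hx' : Ordinal.log κ x = ν' := hx
      rw [← hx']
      exact Ordinal.div_opow_log_lt x hκ.one_lt
    · intro c hc
      have hpos : 0 < κ ^ (2 * M.pot s ν) := Ordinal.opow_pos _ hκ0
      by_cases hc0 : c = 0
      · -- only `0` has leading coefficient `0`
        have key : ∀ x, x ∈ {x | x ∈ {x | x ∈ {x | x < κ ^ ν ∧ run M.step (exps κ x) s ≠ none} ∧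
            Ordinal.log κ x = ν'} ∧ x / κ ^ ν' = c} → x = 0 := by
          rintro x ⟨⟨_, h1⟩, h2⟩
          by_contra h0
          have h3 := Ordinal.div_opow_log_pos κ h0
          rw [h1, h2, hc0] at h3
          exact lt_irrefl _ h3
        refine emb_of_subsingleton ?_ hpos
        intro x hx y hy
        rw [key x hx, key y hy]
      · -- the remaining elements
        have key : ∀ x, x ∈ {x | x ∈ {x | x ∈ {x | x < κ ^ ν ∧ run M.step (exps κ x) s ≠ none} ∧
            Ordinal.log κ x = ν'} ∧ x / κ ^ ν' = c} → ν' < ν ∧ ∃ s', M.step s ν' = some s' ∧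
            run M.step (exps κ (x % κ ^ ν')) s' ≠ none := by
          rintro x ⟨⟨⟨h1, h2⟩, h3⟩, h4⟩
          have h0 : x ≠ 0 := by
            rintro rfl
            rw [Ordinal.zero_div] at h4
            exact hc0 h4.symm
          have h5 : ν' < ν := by
            rw [← h3]
            exact (Ordinal.lt_opow_iff_log_lt hκ.one_lt h0).1 h1
          refine ⟨h5, ?_⟩
          rw [exps_ne_zero κ h0, h3] at h2
          simp only [run] at h2
          cases hs : M.step s ν' with
          | none => rw [hs] at h2; exact absurd rfl h2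
          | some s' =>
            rw [hs] at h2
            exact ⟨s', rfl, h2⟩
        by_cases hcap : ν' < ν ∧ ∃ s', M.step s ν' = some s'
        · obtain ⟨hνν, s', hs'⟩ := hcap
          obtain ⟨hok', hpot⟩ := M.ok_step s ν hok ν' hνν s' hs'
          obtain ⟨f, hf1, hf2⟩ := ih ν' hνν s' hν' hok'
          have hE : κ ^ (2 * M.pot s' ν' + 2) ≤ κ ^ (2 * M.pot s ν) := by
            apply Ordinal.opow_le_opow_right hκ0
            calc 2 * M.pot s' ν' + 2 = 2 * (M.pot s' ν' + 1) := by rw [mul_add_one]
              _ ≤ 2 * M.pot s ν := mul_le_mul_right (Order.add_one_le_of_lt hpot) 2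
          have hmem : ∀ x, x ∈ {x | x ∈ {x | x ∈ {x | x < κ ^ ν ∧ run M.step (exps κ x) s ≠ none} ∧
            Ordinal.log κ x = ν'} ∧ x / κ ^ ν' = c} → x % κ ^ ν' ∈
            {x | x < κ ^ ν' ∧ run M.step (exps κ x) s' ≠ none} := by
            intro x hx
            obtain ⟨_, s'', h1, h2⟩ := key x hx
            rw [hs'] at h1
            have h3 : s'' = s' := (Option.some.inj h1).symm
            subst h3
            exact ⟨Ordinal.mod_lt _ (Ordinal.opow_pos _ hκ0).ne', h2⟩
          refine ⟨fun x => f (x % κ ^ ν'), ?_, ?_⟩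
          · intro x hx y hy hxy
            refine hf1 (hmem x hx) (hmem y hy) ?_
            have h1 : x / κ ^ ν' = c := hx.2
            have h2 : y / κ ^ ν' = c := hy.2
            rw [← Ordinal.div_add_mod x (κ ^ ν'), ← Ordinal.div_add_mod y (κ ^ ν'), h1, h2,
              add_lt_add_iff_left] at hxy
            exact hxy
          · intro x hx
            exact lt_of_lt_of_le (hf2 _ (hmem x hx)) hE
        · apply emb_of_forall_not
          intro x hx
          obtain ⟨h1, s', h2, _⟩ := key x hx
          exact hcap ⟨h1, s', h2⟩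

/-- A machine gives a point-cofinite family on `κ ^ ρ`. -/
theorem R_of_mach {θ ρ r κ : Ordinal.{0}} (M : Mach θ ρ r) (hκ : Good κ) (hρ : ρ < κ) :
    R θ (κ ^ (2 * r + 2)) (Set.Iio (κ ^ ρ)) := by
  refine ⟨fun x => (M.fin (exps κ x)).toFinset, ?_⟩
  intro b hb
  have h := emb_run M hκ ρ (M.init b) hρ (M.ok_init b hb ρ le_rfl)
  refine h.mono ?_ ?_
  · rintro x ⟨h1, h2⟩
    refine ⟨h1, ?_⟩
    intro h3
    apply h2
    rw [Set.Finite.mem_toFinset]
    exact ⟨hb, h3⟩
  · apply Ordinal.opow_le_opow_right (lt_trans zero_lt_one hκ.one_lt)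
    exact add_le_add_left (mul_le_mul_right (M.pot_init b hb ρ le_rfl) 2) 2

end Pool.Agent.H665R2.PathMach
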