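import Mathlib
import Pool.Agent.H665R2.PathFinal
import Pool.Agent.H665R2.PathMach

set_option autoImplicit false

namespace Pool.Agent.H665R2.PathGen

open Set Ordinal Cardinal PathOrd PathMach PathFinal

/-- `ω_n * (ω_(n-1) * (... * (ω_1 * β)))` -/
noncomputable def sg (β : Ordinal.{0}) : ℕ → Ordinal.{0}
  | 0 => β
  | n + 1 => ω_ ((n + 1 : ℕ) : Ordinal.{0}) * sg β n

/-- rank bounds -/
noncomputable def rr : ℕ → Ordinal.{0}
  | 0 => ω
  | n + 1 => ω_ ((n + 1 : ℕ) : Ordinal.{0}) * (rr n + 2)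

lemma aleph_nat_succ (n : ℕ) : (ℵ_ ((n + 1 : ℕ) : Ordinal.{0}) : Cardinal.{0}) = Order.succ (ℵ_ (n : Ordinal.{0})) := by
  rw [Cardinal.succ_aleph, Nat.cast_succ]

lemma isRegular_aleph_succ (n : ℕ) : (ℵ_ ((n + 1 : ℕ) : Ordinal.{0}) : Cardinal.{0}).IsRegular := by
  rw [aleph_nat_succ]
  exact Cardinal.isRegular_succ (Cardinal.aleph0_le_aleph _)

lemma aleph0_lt_aleph_succ (n : ℕ) : ℵ₀ < (ℵ_ ((n + 1 : ℕ) : Ordinal.{0}) : Cardinal.{0}) := by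
  rw [aleph_nat_succ]
  exact lt_of_le_of_lt (Cardinal.aleph0_le_aleph _) (Order.lt_succ _)

lemma good_omega_succ (n : ℕ) : Good (ω_ ((n + 1 : ℕ) : Ordinal.{0})) := by
  rw [← Cardinal.ord_aleph]
  exact good_ord (isRegular_aleph_succ n) (aleph0_lt_aleph_succ n)

lemma exists_inj' (n : ℕ) : ∃ e : Ordinal.{0} → Ordinal.{0} → Ordinal.{0},
    (∀ d < ω_ ((n + 1 : ℕ) : Ordinal.{0}), Set.InjOn (e d) (Set.Iio d)) ∧
    ∀ d < ω_ ((n + 1 : ℕ) : Ordinal.{0}), ∀ t < d, e d t < ω_ (n : Ordinal.{0}) := by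
  have h := exists_inj (ℵ_ (n : Ordinal.{0}))
  rw [← aleph_nat_succ, Cardinal.ord_aleph, Cardinal.ord_aleph] at h
  exact h

lemma sg_lt {β : Ordinal.{0}} (hβ : β < ω_ 1) (n : ℕ) : sg β n < ω_ ((n + 1 : ℕ) : Ordinal.{0}) := by
  induction n with
  | zero => simpa [sg] using hβ
  | succ n ih =>
    have hlt : (ω_ ((n + 1 : ℕ) : Ordinal.{0})) < ω_ ((n + 1 + 1 : ℕ) : Ordinal.{0}) := by
      rw [Ordinal.omega_lt_omega]
      exact_mod_cast Nat.lt_succ_self (n + 1)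
    exact (good_omega_succ (n + 1)).mul _ hlt _ (ih.trans hlt)

/-- machines for all `n` -/
theorem exists_mach {β : Ordinal.{0}} (hβ : β < ω_ 1) (n : ℕ) :
    Nonempty (Mach (ω_ (n : Ordinal.{0})) (sg β n) (rr n)) := by
  induction n with
  | zero =>
    simp only [sg, rr, Nat.cast_zero, Ordinal.omega_zero]
    exact ⟨base β⟩
  | succ n ih =>
    obtain ⟨M⟩ := ih
    obtain ⟨e, he1, he2⟩ := exists_inj' n
    exact ⟨lift M e (good_omega_succ n) (sg_lt hβ n) he1 he2⟩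

/-- Families on `κ ^ sg β n`. -/
theorem exists_Q {β : Ordinal.{0}} (hβ : β < ω_ 1) (n : ℕ) :
    Q (ω_ ((n + 1 : ℕ) : Ordinal.{0})) (ω_ ((n + 1 : ℕ) : Ordinal.{0}) ^ (2 * rr n + 2))
      (Set.Iio (ω_ ((n + 1 : ℕ) : Ordinal.{0}) ^ sg β n)) := by
  obtain ⟨M⟩ := exists_mach hβ n
  have hκ := good_omega_succ n
  have hR := R_of_mach M hκ (sg_lt hβ n)
  obtain ⟨e, he1, he2⟩ := exists_inj' n
  have hκ0 : 0 < ω_ ((n + 1 : ℕ) : Ordinal.{0}) := lt_trans zero_lt_one hκ.one_lt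
  have h := ind_card hκ.one_lt (fun S => Q (ω_ ((n + 1 : ℕ) : Ordinal.{0}))
    (ω_ ((n + 1 : ℕ) : Ordinal.{0}) ^ (2 * rr n + 2))
    (S ∩ Set.Iio (ω_ ((n + 1 : ℕ) : Ordinal.{0}) ^ sg β n))) ?_ ?_ ?_
    (ω_ ((n + 1 : ℕ) : Ordinal.{0}) ^ sg β n) ?_
  · rwa [Set.inter_self] at h
  · intro S S' hSS h
    exact h.mono (Set.inter_subset_inter_left _ hSS)
  · intro S hS
    refine ⟨fun _ => ∅, fun t ht => ⟨1, hκ.one_lt, ?_⟩⟩
    refine emb_of_subsingleton (hS.anti fun x hx => hx.1.1) ?_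
    rw [mul_one]
    exact mul_pos (Ordinal.opow_pos _ hκ0) hκ0
  · intro S D hD hDκ h
    refine Q.step hκ e he1 he2 _ D (hD.mono Set.inter_subset_left) (fun x hx => hDκ x hx.1)
      (fun d hd => hR.mono (fun x hx => hx.1.2)) (fun d hd => (h d hd).mono ?_)
    rintro x ⟨⟨h1, h2⟩, h3⟩
    exact ⟨⟨h1, h3⟩, h2⟩
  · refine (Ordinal.card_opow_le _ _).trans ?_
    rw [Ordinal.card_omega]
    refine max_le (Cardinal.aleph0_le_aleph _) (max_le le_rfl ?_)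
    have := sg_lt hβ n
    rw [← Cardinal.ord_aleph, Cardinal.lt_ord] at this
    exact this.le

/-- **Negative relation at `ω_(n+1)` under `2 ^ ℵ_n = ℵ_(n+1)`.** -/
theorem gch_not_pathRel (n : ℕ)
    (hGCH : (2 : Cardinal.{0}) ^ (ℵ_ (n : Ordinal.{0})) = ℵ_ ((n + 1 : ℕ) : Ordinal.{0}))
    {β : Ordinal.{0}} (hβ : β < ω_ 1) (α τ : Ordinal.{0})
    (hα : α ≤ ω_ ((n + 1 : ℕ) : Ordinal.{0}) ^ sg β n)
    (hτ : ω_ ((n + 1 : ℕ) : Ordinal.{0}) ^ (2 * rr n + 4) ≤ τ) : ¬ PathRel α τ := by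
  obtain ⟨φ, hφ⟩ := exists_Q hβ n
  have hκ := good_omega_succ n
  have hκ0 : 0 < ω_ ((n + 1 : ℕ) : Ordinal.{0}) := lt_trans zero_lt_one hκ.one_lt
  have hcard : (ω_ ((n + 1 : ℕ) : Ordinal.{0}) ^ sg β n).card ≤ ℵ_ ((n + 1 : ℕ) : Ordinal.{0}) := by
    refine (Ordinal.card_opow_le _ _).trans ?_
    rw [Ordinal.card_omega]
    refine max_le (Cardinal.aleph0_le_aleph _) (max_le le_rfl ?_)
    have := sg_lt hβ n
    rw [← Cardinal.ord_aleph, Cardinal.lt_ord] at this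
    exact this.le
  refine not_pathRel (isRegular_aleph_succ n) (aleph0_lt_aleph_succ n) ?_
    ((Ordinal.card_le_card hα).trans hcard) φ ?_
  · intro l hl
    rw [aleph_nat_succ, Order.lt_succ_iff] at hl
    rw [← hGCH]
    exact Cardinal.power_le_power_left two_ne_zero hl
  · intro t ht
    rw [Cardinal.ord_aleph] at ht
    obtain ⟨γ, hγ, hemb⟩ := hφ t ht
    refine ⟨_, lt_of_lt_of_le ?_ hτ, hemb.mono (fun x hx => ⟨lt_of_lt_of_le hx.1 hα, hx.2⟩) le_rfl⟩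
    have h2 : ω_ ((n + 1 : ℕ) : Ordinal.{0}) ^ (2 * rr n + 4) =
        ω_ ((n + 1 : ℕ) : Ordinal.{0}) ^ (2 * rr n + 2) * ω_ ((n + 1 : ℕ) : Ordinal.{0}) *
          ω_ ((n + 1 : ℕ) : Ordinal.{0}) := by
      have h4 : (4 : Ordinal.{0}) = 2 + 1 + 1 := by norm_num
      rw [h4, ← add_assoc, ← add_assoc, Ordinal.opow_add _ (2 * rr n + 2 + 1), Ordinal.opow_one,
        Ordinal.opow_add _ (2 * rr n + 2), Ordinal.opow_one]
    rw [h2]
    exact (mul_lt_mul_iff_right₀ (mul_pos (Ordinal.opow_pos _ hκ0) hκ0)).2 hγ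

lemma isSuccLimit_om (o : Ordinal.{0}) : Order.IsSuccLimit (ω_ o) := by
  rw [← Cardinal.ord_aleph]
  exact Cardinal.isSuccLimit_ord (Cardinal.aleph0_le_aleph _)

lemma two_mul_omega {κ : Ordinal.{0}} (hlim : Order.IsSuccLimit κ) (h : ∀ x < κ, 2 * x < κ) :
    2 * κ = κ := by
  apply le_antisymm
  · rw [Ordinal.mul_le_iff_of_isSuccLimit hlim]
    exact fun x hx => (h x hx).le
  · exact Ordinal.le_mul_right κ two_pos

lemma two_mul_rr (n : ℕ) : 2 * rr n = rr n := by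
  cases n with
  | zero =>
    refine two_mul_omega Ordinal.isSuccLimit_omega0 ?_
    intro x hx
    obtain ⟨m, rfl⟩ := Ordinal.lt_omega0.1 hx
    exact_mod_cast Ordinal.natCast_lt_omega0 (2 * m)
  | succ n =>
    have hκ := good_omega_succ n
    have hlim : Order.IsSuccLimit (ω_ ((n + 1 : ℕ) : Ordinal.{0})) := isSuccLimit_om _
    have h2 : (2 : Ordinal.{0}) < ω_ ((n + 1 : ℕ) : Ordinal.{0}) := by
      have := hκ.succ _ hκ.one_lt
      rwa [one_add_one_eq_two] at this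
    simp only [rr]
    rw [← mul_assoc, two_mul_omega hlim (fun x hx => hκ.mul _ h2 _ hx)]

lemma rr_add_two_lt (n : ℕ) : rr n + 2 < sg (ω + 4) n := by
  induction n with
  | zero =>
    simp only [sg, rr]
    rw [add_lt_add_iff_left]
    norm_num
  | succ n ih =>
    have hκ := good_omega_succ n
    have h2 : (2 : Ordinal.{0}) < ω_ ((n + 1 : ℕ) : Ordinal.{0}) := by
      have := hκ.succ _ hκ.one_lt
      rwa [one_add_one_eq_two] at this
    simp only [sg, rr]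
    calc ω_ ((n + 1 : ℕ) : Ordinal.{0}) * (rr n + 2) + 2
        < ω_ ((n + 1 : ℕ) : Ordinal.{0}) * (rr n + 2) + ω_ ((n + 1 : ℕ) : Ordinal.{0}) :=
          (add_lt_add_iff_left _).2 h2
      _ = ω_ ((n + 1 : ℕ) : Ordinal.{0}) * (rr n + 2 + 1) := by rw [mul_add_one]
      _ ≤ _ := mul_le_mul_right (Order.add_one_le_of_lt ih) _

lemma rank_le (n : ℕ) : 2 * rr n + 4 ≤ sg (ω + 4) n := by
  rw [two_mul_rr]
  cases n with
  | zero => simp only [sg, rr]; exact le_rfl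
  | succ n =>
    have hκ := good_omega_succ n
    have h4 : (4 : Ordinal.{0}) < ω_ ((n + 1 : ℕ) : Ordinal.{0}) := by
      have h := hκ.succ _ (hκ.succ _ (hκ.succ _ hκ.one_lt))
      have e : (1 + 1 + 1 + 1 : Ordinal.{0}) = 4 := by norm_num
      rwa [e] at h
    simp only [sg, rr]
    calc ω_ ((n + 1 : ℕ) : Ordinal.{0}) * (rr n + 2) + 4
        ≤ ω_ ((n + 1 : ℕ) : Ordinal.{0}) * (rr n + 2) + ω_ ((n + 1 : ℕ) : Ordinal.{0}) :=
          (add_le_add_iff_left _).2 h4.le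
      _ = ω_ ((n + 1 : ℕ) : Ordinal.{0}) * (rr n + 2 + 1) := by rw [mul_add_one]
      _ ≤ _ := mul_le_mul_right (Order.add_one_le_of_lt (rr_add_two_lt n)) _

lemma sg_eq (β : Ordinal.{0}) (n : ℕ) : sg β n = sg 1 n * β := by
  induction n with
  | zero => simp [sg]
  | succ n ih =>
    simp only [sg]
    rw [ih, mul_assoc]

lemma exists_beta (n : ℕ) {α : Ordinal.{0}}
    (hα : α < ω_ ((n + 1 : ℕ) : Ordinal.{0}) ^ sg (ω_ 1) n) :
    ∃ β < ω_ 1, α ≤ ω_ ((n + 1 : ℕ) : Ordinal.{0}) ^ sg β n := by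
  have hκ := good_omega_succ n
  have hκ0 : 0 < ω_ ((n + 1 : ℕ) : Ordinal.{0}) := lt_trans zero_lt_one hκ.one_lt
  have hsg : ∀ n, sg 1 n ≠ 0 := by
    intro n
    induction n with
    | zero => simp [sg]
    | succ n ih =>
      simp only [sg]
      exact mul_ne_zero (lt_trans zero_lt_one (good_omega_succ n).one_lt).ne' ih
  have hlim1 : Order.IsSuccLimit (ω_ (1 : Ordinal.{0})) := isSuccLimit_om _
  have hlim : Order.IsSuccLimit (sg (ω_ 1) n) := by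
    rw [sg_eq]
    exact Ordinal.isSuccLimit_mul_right (pos_iff_ne_zero.2 (hsg n)) hlim1
  obtain ⟨c, hc, hαc⟩ := (Ordinal.lt_opow_of_isSuccLimit hκ0.ne' hlim).1 hα
  rw [sg_eq] at hc
  obtain ⟨β, hβ, hcβ⟩ := (Ordinal.lt_mul_iff_of_isSuccLimit hlim1).1 hc
  refine ⟨β, hβ, hαc.le.trans ?_⟩
  rw [sg_eq]
  exact Ordinal.opow_le_opow_right hκ0 hcβ.le

/-- Failure on an interval. -/
theorem gch_interval (n : ℕ)
    (hGCH : (2 : Cardinal.{0}) ^ (ℵ_ (n : Ordinal.{0})) = ℵ_ ((n + 1 : ℕ) : Ordinal.{0}))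
    (α τ : Ordinal.{0}) (hα : α < ω_ ((n + 1 : ℕ) : Ordinal.{0}) ^ sg (ω_ 1) n)
    (hτ : ω_ ((n + 1 : ℕ) : Ordinal.{0}) ^ sg (ω + 4) n ≤ τ) : ¬ PathRel α τ := by
  obtain ⟨β, hβ, hαβ⟩ := exists_beta n hα
  refine gch_not_pathRel n hGCH hβ α τ hαβ (le_trans ?_ hτ)
  exact Ordinal.opow_le_opow_right (lt_trans zero_lt_one (good_omega_succ n).one_lt) (rank_le n)

end Pool.Agent.H665R2.PathGen
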