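import Mathlib
import Pool.Agent.H665R2.ClubBasic

/-!
# Club guessing along a weak square sequence at a singular cardinal

From any `□_{λ, <μ}`-like sequence at a singular cardinal `λ` (at most `cf λ` clubs at every point)
one obtains, by the `Drop` operation along a club, one which guesses clubs at the points of
cofinality `θ`, for every regular `θ < λ`.
-/

set_option autoImplicit false

namespace Pool.Agent.H665R2.SqGuess

open Cardinal Ordinal Set Order Pool.Agent.H665R2.ClubBasic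

universe u

/-- A `□_{l, ν}`-sequence. The side condition `P` on the order types is a property of sets of
ordinals which passes to sets of smaller order type. -/
def Sq (P : Set Ordinal.{u} → Prop) (l ν : Cardinal.{u}) (𝒞 : Ordinal.{u} → Set (Set Ordinal.{u})) :
    Prop :=
  ∀ α < (Order.succ l).ord, (0 < α ∧ ∀ β < α, Order.succ β < α) →
    ((𝒞 α).Nonempty ∧ #(𝒞 α) ≤ Cardinal.lift.{u + 1} ν ∧
      ∀ C ∈ 𝒞 α, Club α C ∧ P C ∧ ∀ β < α, Acc C β → C ∩ Set.Iio β ∈ 𝒞 β)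

/-- the `Drop` operation -/
noncomputable def Dr (D : Set Ordinal.{u}) (α : Ordinal.{u}) (C : Set Ordinal.{u}) : Set Ordinal.{u} :=
  {x | (Acc D α ∧ ∃ β ∈ C, (∃ d ∈ D, d < β) ∧ x = sD D β) ∨ (¬ Acc D α ∧ x ∈ C ∧ sD D α < x)}

lemma Dr_of_acc {D : Set Ordinal.{u}} {α : Ordinal.{u}} (h : Acc D α) (C : Set Ordinal.{u}) :
    Dr D α C = {x | ∃ β ∈ C, (∃ d ∈ D, d < β) ∧ x = sD D β} := by
  ext x; simp [Dr, h]

lemma Dr_of_not_acc {D : Set Ordinal.{u}} {α : Ordinal.{u}} (h : ¬ Acc D α) (C : Set Ordinal.{u}) :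
    Dr D α C = {x | x ∈ C ∧ sD D α < x} := by
  ext x; simp [Dr, h]

lemma sD_lt_of_not_acc {D : Set Ordinal.{u}} {α : Ordinal.{u}} (h0 : 0 < α) (h : ¬ Acc D α) :
    sD D α < α := by
  by_contra hle
  rw [not_lt] at hle
  apply h
  refine ⟨h0, fun γ hγ => ?_⟩
  obtain ⟨d, hd, h1, h2⟩ := lt_sD_iff.1 (lt_of_lt_of_le hγ hle)
  exact ⟨d, hd, h2, h1⟩

/-- limit points of `Dr D α C` are limit points of both `D` and `C` -/
lemma acc_Dr {D : Set Ordinal.{u}} {α : Ordinal.{u}} (h : Acc D α) {C : Set Ordinal.{u}}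
    {η : Ordinal.{u}} (hη : Acc (Dr D α C) η) : Acc D η ∧ Acc C η := by
  rw [Dr_of_acc h] at hη
  have hD : Acc D η := by
    refine ⟨hη.1, fun γ hγ => ?_⟩
    obtain ⟨δ, ⟨β, _, _, rfl⟩, h1, h2⟩ := hη.2 γ hγ
    obtain ⟨d, hd, h3, h4⟩ := lt_sD_iff.1 h1
    exact ⟨d, hd, h4, lt_of_le_of_lt (le_sD hd h3) h2⟩
  refine ⟨hD, hη.1, fun γ hγ => ?_⟩
  obtain ⟨δ, ⟨β, hβ, _, rfl⟩, h1, h2⟩ := hη.2 γ hγ
  refine ⟨β, hβ, lt_of_lt_of_le h1 (sD_le D β), ?_⟩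
  by_contra hle
  rw [not_lt] at hle
  have := sD_mono D hle
  rw [hD.sD_eq] at this
  exact absurd h2 (not_lt.2 this)

lemma Dr_inter_acc {D : Set Ordinal.{u}} {α : Ordinal.{u}} (h : Acc D α) {C : Set Ordinal.{u}}
    {η : Ordinal.{u}} (hη : Acc (Dr D α C) η) :
    Dr D α C ∩ Set.Iio η = Dr D η (C ∩ Set.Iio η) := by
  have hD := (acc_Dr h hη).1
  rw [Dr_of_acc h, Dr_of_acc hD]
  ext x
  constructor
  · rintro ⟨⟨β, hβ, hd, rfl⟩, hx⟩
    refine ⟨β, ⟨hβ, ?_⟩, hd, rfl⟩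
    rw [Set.mem_Iio]
    by_contra hle
    rw [not_lt] at hle
    have := sD_mono D hle
    rw [hD.sD_eq] at this
    exact absurd hx (not_lt.2 this)
  · rintro ⟨β, ⟨hβ, hβη⟩, hd, rfl⟩
    exact ⟨⟨β, hβ, hd, rfl⟩, lt_of_le_of_lt (sD_le D β) hβη⟩

lemma club_Dr {D : Set Ordinal.{u}} {α : Ordinal.{u}} (h0 : 0 < α) {C : Set Ordinal.{u}}
    (hC : Club α C) : Club α (Dr D α C) := by
  by_cases h : Acc D α
  · refine ⟨?_, ?_, ?_⟩
    · rw [Dr_of_acc h]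
      rintro x ⟨β, hβ, _, rfl⟩
      exact lt_of_le_of_lt (sD_le D β) (hC.1 hβ)
    · intro ε hε
      obtain ⟨d, hd, h1, h2⟩ := h.2 ε hε
      obtain ⟨β, hβ, h3⟩ := hC.2.1 d h2
      rw [Dr_of_acc h]
      exact ⟨sD D β, ⟨β, hβ, ⟨d, hd, h3⟩, rfl⟩, lt_of_lt_of_le h1 (le_sD hd h3)⟩
    · intro η hη h0 hlim
      have hacc : Acc (Dr D α C) η := ⟨h0, hlim⟩
      obtain ⟨hDη, hCη⟩ := acc_Dr h hacc
      have hηC : η ∈ C := hC.2.2 η hη h0 hCη.2
      rw [Dr_of_acc h]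
      obtain ⟨d, hd, _, h2⟩ := hDη.2 0 h0
      exact ⟨η, hηC, ⟨d, hd, h2⟩, hDη.sD_eq.symm⟩
  · rw [Dr_of_not_acc h]
    have hlt := sD_lt_of_not_acc h0 h
    refine ⟨fun x hx => hC.1 hx.1, ?_, ?_⟩
    · intro β hβ
      obtain ⟨γ, hγ, h1⟩ := hC.2.1 _ (max_lt hβ hlt)
      exact ⟨γ, ⟨hγ, lt_of_le_of_lt (le_max_right _ _) h1⟩, lt_of_le_of_lt (le_max_left _ _) h1⟩
    · intro β hβ h0 hlim
      refine ⟨hC.2.2 β hβ h0 ?_, ?_⟩
      · intro γ hγ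
        obtain ⟨δ, hδ, h1, h2⟩ := hlim γ hγ
        exact ⟨δ, hδ.1, h1, h2⟩
      · obtain ⟨δ, hδ, _, h2⟩ := hlim 0 h0
        exact hδ.2.trans h2

/-- `P` passes to sets which map in a strictly increasing way. -/
def Hereditary (P : Set Ordinal.{u} → Prop) : Prop :=
  ∀ C C' : Set Ordinal.{u}, (∃ g : Ordinal.{u} → Ordinal.{u}, StrictMonoOn g C' ∧ ∀ x ∈ C', g x ∈ C) →
    P C → P C'

lemma exists_strictMono_Dr (D : Set Ordinal.{u}) (α : Ordinal.{u}) (C : Set Ordinal.{u}) :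
    ∃ g : Ordinal.{u} → Ordinal.{u}, StrictMonoOn g (Dr D α C) ∧ ∀ x ∈ Dr D α C, g x ∈ C := by
  by_cases h : Acc D α
  · rw [Dr_of_acc h]
    refine ⟨fun x => sInf {β | β ∈ C ∧ sD D β = x}, ?_, ?_⟩
    · rintro x ⟨β, hβ, _, rfl⟩ x' ⟨β', hβ', _, rfl⟩ hlt
      have h1 : sInf {γ | γ ∈ C ∧ sD D γ = sD D β} ∈ {γ | γ ∈ C ∧ sD D γ = sD D β} :=
        csInf_mem ⟨β, hβ, rfl⟩
      have h2 : sInf {γ | γ ∈ C ∧ sD D γ = sD D β'} ∈ {γ | γ ∈ C ∧ sD D γ = sD D β'} :=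
        csInf_mem ⟨β', hβ', rfl⟩
      change sInf {γ | γ ∈ C ∧ sD D γ = sD D β} < sInf {γ | γ ∈ C ∧ sD D γ = sD D β'}
      by_contra hle
      rw [not_lt] at hle
      have := sD_mono D hle
      rw [h1.2, h2.2] at this
      exact absurd hlt (not_lt.2 this)
    · rintro x ⟨β, hβ, _, rfl⟩
      exact (csInf_mem (s := {γ | γ ∈ C ∧ sD D γ = sD D β}) ⟨β, hβ, rfl⟩).1
  · rw [Dr_of_not_acc h]
    exact ⟨id, strictMonoOn_id, fun x hx => hx.1⟩

/-- `Drop` gives a weak square sequence again. -/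
lemma Sq.drop {P : Set Ordinal.{u} → Prop} (hP : Hereditary P) {l ν : Cardinal.{u}}
    {𝒞 : Ordinal.{u} → Set (Set Ordinal.{u})}
    (h : Sq P l ν 𝒞) (D : Set Ordinal.{u}) : Sq P l ν (fun α => Dr D α '' (𝒞 α)) := by
  intro α hα hlim
  obtain ⟨h1, h2, h3⟩ := h α hα hlim
  refine ⟨h1.image _, Cardinal.mk_image_le.trans h2, ?_⟩
  rintro _ ⟨C, hC, rfl⟩
  obtain ⟨hc, hp, hcoh⟩ := h3 C hC
  refine ⟨club_Dr hlim.1 hc, hP _ _ (exists_strictMono_Dr D α C) hp, ?_⟩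
  intro η hη hacc
  by_cases hD : Acc D α
  · exact ⟨C ∩ Set.Iio η, hcoh η hη (acc_Dr hD hacc).2, (Dr_inter_acc hD hacc).symm⟩
  · have hlt := sD_lt_of_not_acc hlim.1 hD
    rw [Dr_of_not_acc hD] at hacc
    have hσ : sD D α < η := by
      obtain ⟨δ, hδ, _, h2⟩ := hacc.2 0 hacc.1
      exact hδ.2.trans h2
    have haccC : Acc C η := ⟨hacc.1, fun γ hγ => by
      obtain ⟨δ, hδ, h1, h2⟩ := hacc.2 γ hγ
      exact ⟨δ, hδ.1, h1, h2⟩⟩
    have hnot : ¬ Acc D η := by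
      intro h'
      obtain ⟨d, hd, h1, h2⟩ := h'.2 _ hσ
      exact absurd (le_sD hd (h2.trans hη)) (not_le.2 h1)
    have heq : sD D η = sD D α := by
      apply le_antisymm (sD_mono D hη.le)
      by_contra hne
      rw [not_le] at hne
      obtain ⟨d, hd, h1, h2⟩ := lt_sD_iff.1 hne
      have h4 : d < η := lt_of_le_of_lt (le_sD hd h1) hσ
      exact absurd (le_sD hd h4) (not_le.2 h2)
    refine ⟨C ∩ Set.Iio η, hcoh η hη haccC, ?_⟩
    rw [Dr_of_not_acc hD, Dr_of_not_acc hnot, heq]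
    ext x
    simp only [Set.mem_inter_iff, Set.mem_ofPred_eq, Set.mem_Iio]
    tauto

/-- the decreasing sequence of clubs -/
noncomputable def Ds (E : Set Ordinal.{u} → Set Ordinal.{u}) (top : Set Ordinal.{u})
    (i : Ordinal.{u}) : Set Ordinal.{u} :=
  top ∩ {x | ∀ j : Set.Iio i, x ∈ E (Ds E top j.1)}
termination_by i
decreasing_by exact j.2

lemma Ds_eq (E : Set Ordinal.{u} → Set Ordinal.{u}) (top : Set Ordinal.{u})
    (i : Ordinal.{u}) : Ds E top i = top ∩ {x | ∀ j < i, x ∈ E (Ds E top j)} := by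
  rw [Ds.eq_1]
  ext x
  simp

lemma Ds_anti (E : Set Ordinal.{u} → Set Ordinal.{u}) (top : Set Ordinal.{u})
    {i j : Ordinal.{u}} (h : i ≤ j) : Ds E top j ⊆ Ds E top i := by
  rw [Ds_eq, Ds_eq E top i]
  rintro x ⟨h1, h2⟩
  exact ⟨h1, fun k hk => h2 k (lt_of_lt_of_le hk h)⟩

/-- **Club guessing along a weak square sequence.** -/
theorem main {P : Set Ordinal.{u} → Prop} (hP : Hereditary P) {l ν θ : Cardinal.{u}}
    (hl0 : ℵ₀ ≤ l) (hcof : l.ord.cof < l) (hν : ν < l) (hθ : θ.IsRegular) (hθl : θ < l)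
    (hPl : ∀ C, P C → ∃ f : Ordinal.{u} → Ordinal.{u}, StrictMonoOn f C ∧ ∀ x ∈ C, f x < l.ord)
    (hsq : ∃ 𝒞, Sq P l ν 𝒞) :
    ∃ 𝒞, Sq P l ν 𝒞 ∧ ∀ D, Club (Order.succ l).ord D →
      ∃ α < (Order.succ l).ord, α.cof = θ ∧
        ∀ C ∈ 𝒞 α, ∀ γ < α, ∃ δ ∈ C, ¬ Acc C δ ∧ δ ∈ D ∧ γ < δ := by
  classical
  by_contra hcon
  obtain ⟨𝒞, h𝒞⟩ := hsq
  have hreg : (Order.succ l).IsRegular := isRegular_succ hl0
  set μ := (Order.succ l).ord with hμ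
  -- the clubs witnessing the failure
  have hfail : ∀ D : Set Ordinal.{u}, ∃ E, Club μ E ∧ ∀ α < μ, α.cof = θ →
      ∃ C ∈ 𝒞 α, ∃ γ < α, ∀ δ ∈ Dr D α C, ¬ Acc (Dr D α C) δ → δ ∈ E → ¬ γ < δ := by
    intro D
    by_contra hne
    apply hcon
    refine ⟨fun α => Dr D α '' (𝒞 α), h𝒞.drop hP D, ?_⟩
    intro E hE
    by_contra hno
    apply hne
    refine ⟨E, hE, ?_⟩
    intro α hα hcofα
    by_contra hno2
    apply hno
    refine ⟨α, hα, hcofα, ?_⟩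
    rintro _ ⟨C, hC, rfl⟩ γ hγ
    by_contra hno3
    apply hno2
    refine ⟨C, hC, γ, hγ, ?_⟩
    intro δ hδ h1 h2 h3
    exact hno3 ⟨δ, hδ, h1, h2, h3⟩
  choose E hEclub hEfail using hfail
  -- the length of the iteration
  have hsucc : ∀ κ : Cardinal.{u}, ℵ₀ ≤ κ → κ < l → Order.succ κ < l := by
    intro κ h0 h1
    refine lt_of_le_of_ne (Order.succ_le_of_lt h1) ?_
    intro he
    have := (isRegular_succ h0).cof_ord
    rw [he] at this
    exact absurd this hcof.ne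
  set κ := max θ ν with hκ
  have hκl : κ < l := max_lt hθl hν
  have hκ0 : ℵ₀ ≤ κ := hθ.aleph0_le.trans (le_max_left _ _)
  set ρ := Order.succ κ with hρ
  have hρl : ρ < l := hsucc κ hκ0 hκl
  have hρreg : ρ.IsRegular := isRegular_succ hκ0
  have hρμ : ρ.ord < μ := Cardinal.ord_lt_ord.2 (hρl.trans (Order.lt_succ l))
  have hl1 : ℵ₀ < Order.succ l := hl0.trans_lt (Order.lt_succ l)
  -- the clubs
  let D : Ordinal.{u} → Set Ordinal.{u} := Ds E (Set.Iio μ)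
  have hD : ∀ i, D i = Set.Iio μ ∩ {x | ∀ j < i, x ∈ E (D j)} := fun i => Ds_eq E _ i
  have hDanti : ∀ {i j}, i ≤ j → D j ⊆ D i := fun h => Ds_anti E _ h
  have hDclub : ∀ i < μ, Club μ (D i) := by
    intro i hi
    rw [hD i]
    exact club_iInter hreg hl1 hi (fun j => E (D j)) (fun j _ => hEclub _)
  set Dinf := D ρ.ord with hDinf
  have hDinfclub : Club μ Dinf := hDclub _ hρμ
  -- the point `α`
  have hmany : ∀ γ : Ordinal.{u}, ∃ x, γ < x ∧ (γ < μ → x ∈ Dinf ∧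
      Cardinal.lift.{u + 1} l ≤ #(Dinf ∩ Set.Ioo γ x : Set Ordinal.{u})) := by
    intro γ
    by_cases hγ : γ < μ
    · obtain ⟨x, hx, h1, h2⟩ := exists_many hreg (Order.lt_succ l) hDinfclub.1 hDinfclub.2.1 hγ
      exact ⟨x, h1, fun _ => ⟨hx, h2⟩⟩
    · exact ⟨Order.succ γ, Order.lt_succ γ, fun h => absurd h hγ⟩
  choose nx hnx1 hnx2 using hmany
  obtain ⟨α, hαμ, hαcof, hαcl⟩ := exists_closed hreg hθ (hθl.trans (Order.lt_succ l)) (H := nx) hnx1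
    (fun β hβ => hDinfclub.1 (hnx2 β hβ).1)
  have hαlim : Order.IsSuccLimit α := by
    rw [← Ordinal.one_lt_cof_iff, ← Ordinal.aleph0_le_cof_iff, hαcof]; exact hθ.aleph0_le
  have hαlim' : 0 < α ∧ ∀ β < α, Order.succ β < α :=
    ⟨hαlim.bot_lt, fun β hβ => hαlim.succ_lt hβ⟩
  obtain ⟨_, hcardα, hCα⟩ := h𝒞 α hαμ hαlim'
  have hDinfacc : Acc Dinf α := by
    refine ⟨hαlim'.1, fun γ hγ => ?_⟩
    obtain ⟨β, h1, h2⟩ := hαcl γ hγ
    have hβμ : β < μ := ((hnx1 β).trans h2).trans hαμ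
    exact ⟨nx β, (hnx2 β hβμ).1, h1.trans (hnx1 β), h2⟩
  -- points of `Dinf` outside `C`
  have hout : ∀ C ∈ 𝒞 α, ∀ γ < α, ∃ d ∈ Dinf, d ∉ C ∧ γ < d ∧ d < α := by
    intro C hC γ hγ
    by_contra hno
    push Not at hno
    obtain ⟨β, h1, h2⟩ := hαcl γ hγ
    have hβμ : β < μ := ((hnx1 β).trans h2).trans hαμ
    obtain ⟨h3, h4⟩ := hnx2 β hβμ
    have hmem : ∀ d ∈ Dinf, γ < d → d < α → d ∈ C := by
      intro d hd hd1 hd2
      by_contra hdC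
      exact absurd hd2 (not_lt.2 (hno d hd hdC hd1))
    obtain ⟨f, hf, hfl⟩ := hPl C (hCα C hC).2.1
    have hxC : nx β ∈ C := hmem _ h3 (h1.trans (hnx1 β)) h2
    have hinj : #(Dinf ∩ Set.Ioo β (nx β) : Set Ordinal.{u}) ≤ #(Set.Iio (f (nx β))) := by
      refine Cardinal.mk_le_of_injective (f := fun x => ⟨f x.1, ?_⟩) ?_
      · exact hf (hmem x.1 x.2.1 (h1.trans x.2.2.1) (x.2.2.2.trans h2)) hxC x.2.2.2
      · intro x y hxy
        have hx := hmem x.1 x.2.1 (h1.trans x.2.2.1) (x.2.2.2.trans h2)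
        have hy := hmem y.1 y.2.1 (h1.trans y.2.2.1) (y.2.2.2.trans h2)
        exact Subtype.ext (hf.injOn hx hy (congrArg Subtype.val hxy))
    exact absurd (h4.trans hinj) (not_le.2 (mk_Iio_lt (hfl _ hxC)))
  -- a cofinal sequence in `α`
  obtain ⟨S, hScof, hScard⟩ : ∃ S : Set Ordinal.{u}, (∀ γ < α, ∃ s ∈ S, γ < s ∧ s < α) ∧
      #S ≤ Cardinal.lift.{u + 1} θ := by
    obtain ⟨T, hT, hTc⟩ := Order.exists_cof_eq (α := Set.Iio α)
    refine ⟨Subtype.val '' T, ?_, ?_⟩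
    · intro γ hγ
      obtain ⟨t, ht, hle⟩ := hT ⟨Order.succ γ, hαlim.succ_lt hγ⟩
      exact ⟨t.1, ⟨t, ht, rfl⟩, Order.succ_le_iff.1 (Subtype.coe_le_coe.2 hle), t.2⟩
    · refine Cardinal.mk_image_le.trans ?_
      rw [hTc, Ordinal.cof_Iio, ← Ordinal.lift_cof, hαcof]
  -- stabilisation
  have hstab : ∀ β : Ordinal.{u}, ∃ i < ρ.ord, ∀ j, i ≤ j → j < ρ.ord → sD (D j) β = sD (D i) β := by
    intro β
    have hne : ({x | ∃ i < ρ.ord, sD (D i) β = x} : Set Ordinal.{u}).Nonempty :=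
      ⟨_, 0, hρreg.ord_pos, rfl⟩
    obtain ⟨i, hi, hix⟩ := csInf_mem hne
    refine ⟨i, hi, fun j hij hj => le_antisymm (sD_subset (hDanti hij) β) ?_⟩
    rw [hix]
    exact csInf_le' ⟨j, hj, rfl⟩
  choose st hst1 hst2 using hstab
  -- choice of the gaps
  have hgap : ∀ (C : Set Ordinal.{u}) (s : Ordinal.{u}), ∃ d β : Ordinal.{u}, C ∈ 𝒞 α → s < α →
      (d ∈ Dinf ∧ d ∉ C ∧ s < d ∧ β ∈ C ∧ d < β ∧ ∀ β' ∈ C, β' < β → β' < d) := by
    intro C s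
    by_cases h : C ∈ 𝒞 α ∧ s < α
    · obtain ⟨d, hd, hdC, h1, h2⟩ := hout C h.1 s h.2
      have hne : ({β | β ∈ C ∧ d < β} : Set Ordinal.{u}).Nonempty := by
        obtain ⟨β, hβ, h3⟩ := (hCα C h.1).1.2.1 d h2
        exact ⟨β, hβ, h3⟩
      have hmem := csInf_mem hne
      refine ⟨d, sInf {β | β ∈ C ∧ d < β}, fun _ _ => ⟨hd, hdC, h1, hmem.1, hmem.2, ?_⟩⟩
      intro β' hβ' hlt
      rcases lt_trichotomy β' d with h3 | h3 | h3
      · exact h3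
      · exact absurd (h3 ▸ hβ') hdC
      · exact absurd (csInf_le' (show β' ∈ {β | β ∈ C ∧ d < β} from ⟨hβ', h3⟩)) (not_le.2 hlt)
    · exact ⟨0, 0, fun h1 h2 => absurd ⟨h1, h2⟩ h⟩
  choose gd gb hg using hgap
  -- a common stage
  let St : Set Ordinal.{u} := (fun p : Set Ordinal.{u} × Ordinal.{u} => st (gb p.1 p.2)) '' ((𝒞 α) ×ˢ S)
  have hStc : #St < Cardinal.lift.{u + 1} ρ := by
    have h1 : #St ≤ #(𝒞 α) * #S := by
      refine Cardinal.mk_image_le.trans ?_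
      rw [Cardinal.mk_setProd]
    refine h1.trans_lt ?_
    have h2 : #(𝒞 α) * #S ≤ Cardinal.lift.{u + 1} κ * Cardinal.lift.{u + 1} κ := by
      apply mul_le_mul'
      · exact hcardα.trans (Cardinal.lift_le.2 (le_max_right _ _))
      · exact hScard.trans (Cardinal.lift_le.2 (le_max_left _ _))
    refine h2.trans_lt ?_
    rw [Cardinal.mul_eq_self (by rw [← Cardinal.lift_aleph0.{u + 1, u}]; exact Cardinal.lift_le.2 hκ0)]
    exact Cardinal.lift_lt.2 (Order.lt_succ κ)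
  have hSt : ∀ i ∈ St, i < ρ.ord := by
    rintro _ ⟨p, _, rfl⟩
    exact hst1 _
  have histar := sup_lt hρreg hStc hSt
  set i := sSup St with hi
  have hρlim : Order.IsSuccLimit ρ.ord := Cardinal.isSuccLimit_ord hρreg.aleph0_le
  have hi1 : Order.succ i < ρ.ord := hρlim.succ_lt histar
  -- the contradiction
  obtain ⟨C, hC, γ, hγ, hno⟩ := hEfail (D i) α hαμ hαcof
  obtain ⟨s, hs, hγs, hsα⟩ := hScof γ hγ
  obtain ⟨hd1, hd2, hd3, hb1, hb2, hb3⟩ := hg C s hC hsα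
  set d := gd C s
  set β := gb C s
  have hacci : Acc (D i) α := ⟨hDinfacc.1, fun γ hγ => by
    obtain ⟨x, hx, h1, h2⟩ := hDinfacc.2 γ hγ
    exact ⟨x, hDanti histar.le hx, h1, h2⟩⟩
  have hdi : d ∈ D i := hDanti histar.le hd1
  have hmemDr : sD (D i) β ∈ Dr (D i) α C := by
    rw [Dr_of_acc hacci]
    exact ⟨β, hb1, ⟨d, hdi, hb2⟩, rfl⟩
  have hdle : d ≤ sD (D i) β := le_sD hdi hb2
  refine hno _ hmemDr ?_ ?_ (hγs.trans (hd3.trans_le hdle))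
  · -- not an accumulation point
    intro hacc
    have hsup : sSup (C ∩ Set.Iio d) < d := by
      have hle : sD C d ≤ d := sD_le C d
      refine lt_of_le_of_ne hle ?_
      intro he
      apply hd2
      have hCclub := (hCα C hC).1
      have hdα : d < α := hb2.trans (hCclub.1 hb1)
      refine hCclub.2.2 d hdα (lt_of_le_of_lt (zero_le) hd3) ?_
      intro γ' hγ'
      have hγ'' : γ' < sD C d := by
        change γ' < sSup (C ∩ Set.Iio d)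
        rw [he]; exact hγ'
      obtain ⟨x, hx, h1, h2⟩ := lt_sD_iff.1 hγ''
      exact ⟨x, hx, h2, h1⟩
    obtain ⟨y, hy, h1, h2⟩ := hacc.2 _ (hsup.trans_le hdle)
    rw [Dr_of_acc hacci] at hy
    obtain ⟨β', hβ', _, rfl⟩ := hy
    have hlt : β' < β := by
      by_contra hle
      rw [not_lt] at hle
      exact absurd (sD_mono (D i) hle) (not_le.2 h2)
    have hβ'd := hb3 β' hβ' hlt
    have : sD (D i) β' ≤ sSup (C ∩ Set.Iio d) :=
      (sD_le _ _).trans (le_sD hβ' hβ'd)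
    exact absurd h1 (not_lt.2 this)
  · -- belongs to the club
    have hsti : st β ≤ i := by
      apply le_csSup ⟨ρ.ord, fun x hx => (hSt x hx).le⟩
      exact ⟨(C, s), ⟨hC, hs⟩, rfl⟩
    have he : sD (D (Order.succ i)) β = sD (D i) β := by
      rw [hst2 β (Order.succ i) (hsti.trans (Order.le_succ i)) hi1, hst2 β i hsti histar]
    rw [← he]
    have hsubE : D (Order.succ i) ⊆ E (D i) := by
      rw [hD (Order.succ i)]
      rintro x ⟨_, hx⟩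
      exact hx i (Order.lt_succ i)
    have hβμ : β < μ := ((hCα C hC).1.1 hb1).trans hαμ
    exact (hEclub (D i)).sD_mem hsubE ⟨d, hDanti hi1.le hd1, hb2⟩ (lt_of_le_of_lt (sD_le _ _) hβμ)

end Pool.Agent.H665R2.SqGuess
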